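import Pool.Agent.Helper15.GL.GrowR

set_option autoImplicit false

/-!
# Project GL (MP_120218), Dil: sums of dilates with dilation factors in a group of rank `r`
-/

namespace Pool.Agent.Helper15.GL

open Finset

/-- `Y s` -/
def dl (Y : Finset ℤ) (s : ℕ) : Finset ℤ := Y.image (fun y => y * (s : ℤ))

theorem dl_inj (Y : Finset ℤ) (s : ℕ) (hs : s ≠ 0) :
    Set.InjOn (fun y : ℤ => y * (s : ℤ)) Y := by
  intro a _ a' _ h
  have h4 : (s : ℤ) ≠ 0 := by exact_mod_cast hs
  exact mul_right_cancel₀ h4 h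

theorem card_dl (Y : Finset ℤ) (s : ℕ) (hs : s ≠ 0) : (dl Y s).card = Y.card :=
  Finset.card_image_of_injOn (dl_inj Y s hs)

theorem card_cls_dl (p : ℕ) (hp : p.Prime) (Y : Finset ℤ) (s : ℕ) (hs : s ≠ 0) (i : ℕ) (y : ℤ) :
    (cls p i (dl Y s) (y * (s : ℤ))).card = (cls p (i - padicValNat p s) Y y).card := by
  classical
  have := Fact.mk hp
  have h4 : (s : ℤ) ≠ 0 := by exact_mod_cast hs
  have hdiv : ∀ c : ℤ, (p : ℤ) ^ i ∣ c * (s : ℤ) ↔ (p : ℤ) ^ (i - padicValNat p s) ∣ c := by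
    intro c
    rcases eq_or_ne c 0 with rfl | hc
    · simp
    · rw [padicValInt_dvd_iff, padicValInt_dvd_iff, padicValInt.mul hc h4, padicValInt.of_nat]
      simp only [mul_eq_zero, hc, h4, or_self, false_or]
      omega
  have h1 : cls p i (dl Y s) (y * (s : ℤ)) =
      (cls p (i - padicValNat p s) Y y).image (fun y => y * (s : ℤ)) := by
    ext z
    unfold dl
    rw [mem_cls, Finset.mem_image, Finset.mem_image]
    constructor
    · rintro ⟨⟨c, hc, rfl⟩, hd⟩
      refine ⟨c, ?_, rfl⟩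
      rw [mem_cls]
      refine ⟨hc, (hdiv (c - y)).1 ?_⟩
      rw [sub_mul]
      exact hd
    · rintro ⟨c, hc, rfl⟩
      rw [mem_cls] at hc
      refine ⟨⟨c, hc.1, rfl⟩, ?_⟩
      have := (hdiv (c - y)).2 hc.2
      rwa [sub_mul] at this
  rw [h1, Finset.card_image_of_injOn]
  intro c _ c' _ h
  exact mul_right_cancel₀ h4 h

theorem Fj_dl (p : ℕ) (hp : p.Prime) (Y : Finset ℤ) (s : ℕ) (hs : s ≠ 0) (j : ℕ) :
    Fj p j (dl Y s) = if padicValNat p s ≤ j then Fj p (j - padicValNat p s) Y else 0 := by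
  have h1 : Fj p j (dl Y s) = ∑ y ∈ Y, ell p j (dl Y s) (y * (s : ℤ)) := by
    unfold Fj
    conv_lhs => rw [dl]
    rw [Finset.sum_image (dl_inj Y s hs)]
    rfl
  rw [h1]
  by_cases h : padicValNat p s ≤ j
  · rw [if_pos h]
    unfold Fj
    refine Finset.sum_congr rfl fun y _ => ?_
    unfold ell
    rw [card_cls_dl p hp Y s hs, card_cls_dl p hp Y s hs]
    have h2 : j + 1 - padicValNat p s = j - padicValNat p s + 1 := by omega
    rw [h2]
  · rw [if_neg h]
    refine Finset.sum_eq_zero fun y _ => ?_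
    unfold ell
    rw [card_cls_dl p hp Y s hs, card_cls_dl p hp Y s hs]
    have h2 : j + 1 - padicValNat p s = 0 := by omega
    have h3 : j - padicValNat p s = 0 := by omega
    rw [h2, h3, sub_self]

/-- dilates with different valuations have different digits -/
theorem sum_Fj_dl (p : ℕ) (hp : p.Prime) (Y : Finset ℤ) (T : Finset ℕ) (hT : ∀ s ∈ T, s ≠ 0)
    (hinj : Set.InjOn (fun s => padicValNat p s) T) (j : ℕ) :
    ∑ s ∈ T, Fj p j (dl Y s) ≤ Y.card * Real.log Y.card := by
  classical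
  have h1 : ∑ s ∈ T, Fj p j (dl Y s) =
      ∑ s ∈ T.filter (fun s => padicValNat p s ≤ j), Fj p (j - padicValNat p s) Y := by
    rw [Finset.sum_filter]
    exact Finset.sum_congr rfl fun s hs => Fj_dl p hp Y s (hT s hs) j
  rw [h1]
  have h2 : ∑ s ∈ T.filter (fun s => padicValNat p s ≤ j), Fj p (j - padicValNat p s) Y =
      ∑ t ∈ (T.filter (fun s => padicValNat p s ≤ j)).image (fun s => j - padicValNat p s),
        Fj p t Y := by
    rw [Finset.sum_image]
    intro s hs s' hs' h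
    have hs1 := Finset.mem_filter.1 (Finset.mem_coe.1 hs)
    have hs1' := Finset.mem_filter.1 (Finset.mem_coe.1 hs')
    refine hinj (Finset.mem_coe.2 hs1.1) (Finset.mem_coe.2 hs1'.1) ?_
    have h' : j - padicValNat p s = j - padicValNat p s' := h
    show padicValNat p s = padicValNat p s'
    omega
  rw [h2]
  refine le_trans (Finset.sum_le_sum_of_subset_of_nonneg (t := Finset.range (j + 1)) ?_
    fun t _ _ => Fj_nonneg p t Y) (sum_Fj_le p (j + 1) Y)
  intro t ht
  obtain ⟨s, _, rfl⟩ := Finset.mem_image.1 ht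
  rw [Finset.mem_range]
  omega

/-- at one prime -/
theorem dil_core {η K : ℝ} (hK : 0 < K) (hN : NodeE η K) (p : ℕ) (hp : p.Prime)
    (X Y : Finset ℤ) (hX : X.Nonempty) (hY : Y.Nonempty) (T : Finset ℕ) (hT : ∀ s ∈ T, s ≠ 0)
    (hinj : Set.InjOn (fun s => padicValNat p s) T) (lam : ℝ)
    (hbad : ∀ s ∈ T, Real.log ((Finset.image₂ (fun a b => a + b) X (dl Y s)).card) ≤
      (1 - η) * (Real.log X.card + Real.log Y.card) - lam) :
    T.card * lam ≤ K * (Real.log X.card * Real.log Y.card) := by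
  classical
  have hXc : (0 : ℝ) < X.card := by exact_mod_cast hX.card_pos
  have hYc : (0 : ℝ) < Y.card := by exact_mod_cast hY.card_pos
  have hex : ∀ s : ℕ, ∃ J : ℕ, s ∈ T → (1 - η) * (Real.log X.card + Real.log Y.card) -
      K * (∑ j ∈ Finset.range J, Fj p j X * Fj p j (dl Y s)) / (X.card * Y.card) ≤
      Real.log ((Finset.image₂ (fun a b => a + b) X (dl Y s)).card) := by
    intro s
    by_cases hs : s ∈ T
    · have hne : (dl Y s).Nonempty := hY.image _
      obtain ⟨J, hJ⟩ := sum_ge hN p hp.two_le X (dl Y s) hX hne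
      rw [card_dl Y s (hT s hs)] at hJ
      exact ⟨J, fun _ => hJ⟩
    · exact ⟨0, fun h => absurd h hs⟩
  choose J hJ using hex
  obtain ⟨J1, hJ1⟩ : ∃ J1 : ℕ, J1 = T.sup J := ⟨_, rfl⟩
  have hone : ∀ s ∈ T, lam * (X.card * Y.card) ≤
      K * ∑ j ∈ Finset.range J1, Fj p j X * Fj p j (dl Y s) := by
    intro s hs
    have h1 := hJ s hs
    have h2 := hbad s hs
    have h3 : lam ≤ K * (∑ j ∈ Finset.range (J s), Fj p j X * Fj p j (dl Y s)) /
        (X.card * Y.card) := by linarith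
    rw [le_div_iff₀ (by positivity)] at h3
    refine h3.trans (mul_le_mul_of_nonneg_left ?_ hK.le)
    refine Finset.sum_le_sum_of_subset_of_nonneg ?_
      fun j _ _ => mul_nonneg (Fj_nonneg p j X) (Fj_nonneg p j (dl Y s))
    intro j hj
    rw [Finset.mem_range] at hj ⊢
    have : J s ≤ J1 := by rw [hJ1]; exact Finset.le_sup hs
    omega
  have hsum : ∑ s ∈ T, lam * ((X.card : ℝ) * Y.card) ≤
      K * ((X.card * Real.log X.card) * (Y.card * Real.log Y.card)) := by
    calc ∑ s ∈ T, lam * ((X.card : ℝ) * Y.card) ≤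
          ∑ s ∈ T, K * ∑ j ∈ Finset.range J1, Fj p j X * Fj p j (dl Y s) :=
            Finset.sum_le_sum hone
      _ = K * ∑ j ∈ Finset.range J1, Fj p j X * ∑ s ∈ T, Fj p j (dl Y s) := by
            rw [← Finset.mul_sum, Finset.sum_comm]
            congr 1
            exact Finset.sum_congr rfl fun j _ => by rw [Finset.mul_sum]
      _ ≤ K * ∑ j ∈ Finset.range J1, Fj p j X * (Y.card * Real.log Y.card) := by
            refine mul_le_mul_of_nonneg_left ?_ hK.le
            exact Finset.sum_le_sum fun j _ =>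
              mul_le_mul_of_nonneg_left (sum_Fj_dl p hp Y T hT hinj j) (Fj_nonneg p j X)
      _ = K * ((∑ j ∈ Finset.range J1, Fj p j X) * (Y.card * Real.log Y.card)) := by
            rw [Finset.sum_mul]
      _ ≤ K * ((X.card * Real.log X.card) * (Y.card * Real.log Y.card)) := by
            refine mul_le_mul_of_nonneg_left ?_ hK.le
            refine mul_le_mul_of_nonneg_right (sum_Fj_le p J1 X) ?_
            exact mul_nonneg hYc.le (Real.log_natCast_nonneg _)
  rw [Finset.sum_const, nsmul_eq_mul] at hsum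
  have h5 : ((X.card : ℝ) * Y.card) * (T.card * lam) ≤
      ((X.card : ℝ) * Y.card) * (K * (Real.log X.card * Real.log Y.card)) := by
    calc ((X.card : ℝ) * Y.card) * (T.card * lam) = T.card * (lam * ((X.card : ℝ) * Y.card)) := by
          ring
      _ ≤ K * ((X.card * Real.log X.card) * (Y.card * Real.log Y.card)) := hsum
      _ = _ := by ring
  exact le_of_mul_le_mul_left h5 (by positivity)

/-- `X + s Y` -/
def xs (X Y : Finset ℤ) (s : ℚ) : Finset ℚ :=
  Finset.image₂ (fun x y : ℤ => (x : ℚ) + s * (y : ℚ)) X Y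

/-- positive dilation factors -/
theorem dil_pos (ε : ℝ) (hε : 0 < ε) : ∃ C : ℝ, 0 < C ∧ ∀ (X Y : Finset ℤ), 2 ≤ X.card →
    2 ≤ Y.card → ∀ (r : ℕ) (g : Fin r → ℚ) (S : Finset ℚ), (∀ i, 0 < g i) →
    (∀ s ∈ S, ∃ e : Fin r → ℤ, s = ∏ i, g i ^ e i) →
    (∀ s ∈ S, ((xs X Y s).card : ℝ) < ((X.card : ℝ) * Y.card) ^ (1 - ε)) →
    (S.card : ℝ) ≤ (C * Real.log (min X.card Y.card : ℕ)) ^ r := by
  classical
  obtain ⟨K, hK, hN⟩ := node_exists (ε / 2) (by positivity)
  have hl2 : 0 < Real.log 2 := Real.log_pos (by norm_num)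
  refine ⟨2 * K / ε + 1 / Real.log 2, by positivity, ?_⟩
  intro X Y hX2 hY2 r g S hg hS hbad
  have hX : X.Nonempty := Finset.card_pos.1 (by omega)
  have hY : Y.Nonempty := Finset.card_pos.1 (by omega)
  have hX2R : (2 : ℝ) ≤ X.card := by exact_mod_cast hX2
  have hY2R : (2 : ℝ) ≤ Y.card := by exact_mod_cast hY2
  obtain ⟨x, hx⟩ : ∃ x : ℝ, x = Real.log X.card := ⟨_, rfl⟩
  obtain ⟨y, hy⟩ : ∃ y : ℝ, y = Real.log Y.card := ⟨_, rfl⟩
  have hx2 : Real.log 2 ≤ x := by rw [hx]; exact Real.log_le_log (by norm_num) hX2R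
  have hy2 : Real.log 2 ≤ y := by rw [hy]; exact Real.log_le_log (by norm_num) hY2R
  have hx0 : 0 < x := by linarith
  have hy0 : 0 < y := by linarith
  have hmin : Real.log (min X.card Y.card : ℕ) = min x y := by
    rcases le_total X.card Y.card with h | h
    · have h' : x ≤ y := by
        rw [hx, hy]
        exact Real.log_le_log (by linarith) (by exact_mod_cast h)
      rw [min_eq_left h, min_eq_left h', hx]
    · have h' : y ≤ x := by
        rw [hx, hy]
        exact Real.log_le_log (by linarith) (by exact_mod_cast h)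
      rw [min_eq_right h, min_eq_right h', hy]
  rw [hmin]
  obtain ⟨m, hm⟩ : ∃ m : ℝ, m = min x y := ⟨_, rfl⟩
  have hm2 : Real.log 2 ≤ m := by rw [hm]; exact le_min hx2 hy2
  have hm0 : 0 < m := by linarith
  rw [← hm]
  obtain ⟨n, hn⟩ : ∃ n : ℕ, n = ⌊2 * K / ε * m⌋₊ + 1 := ⟨_, rfl⟩
  have hngt : 2 * K / ε * m < n := by
    rw [hn]
    push_cast
    exact Nat.lt_floor_add_one _
  have hnle : (n : ℝ) ≤ (2 * K / ε + 1 / Real.log 2) * m := by
    have h1 : ((⌊2 * K / ε * m⌋₊ : ℕ) : ℝ) ≤ 2 * K / ε * m := Nat.floor_le (by positivity)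
    have h2 : 1 ≤ 1 / Real.log 2 * m := by
      rw [div_mul_eq_mul_div, one_mul, le_div_iff₀ hl2]
      linarith
    rw [hn]
    push_cast
    linarith
  have hn1 : 1 ≤ n := by omega
  by_contra hcon
  rw [not_le] at hcon
  have hSn : n ^ r < S.card := by
    have h1 : (n : ℝ) ^ r < S.card :=
      lt_of_le_of_lt (pow_le_pow_left₀ (Nat.cast_nonneg _) hnle r) hcon
    exact_mod_cast h1
  have hSpos : ∀ s ∈ S, 0 < s := by
    intro s hs
    obtain ⟨e, he⟩ := hS s hs
    rw [he]
    exact Finset.prod_pos fun i _ => zpow_pos (hg i) _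
  obtain ⟨q, hq, hqr, hsep⟩ := exists_separating r g hg
  obtain ⟨D, σ, hD, hσ⟩ := scale_pos S hSpos
  have hDQ : (D : ℚ) ≠ 0 := by exact_mod_cast hD.ne'
  have hσinj : Set.InjOn σ S := by
    intro s hs s' hs' h
    have h1 := (hσ s hs).2
    have h2 := (hσ s' hs').2
    rw [h, h2] at h1
    exact (mul_right_cancel₀ hDQ h1).symm
  obtain ⟨S', hS'⟩ : ∃ S' : Finset ℕ, S' = S.image σ := ⟨_, rfl⟩
  have hS'c : S'.card = S.card := by rw [hS', Finset.card_image_of_injOn hσinj]
  have hinj : ∀ s ∈ S', ∀ s' ∈ S', (∀ p ∈ q, padicValNat p s = padicValNat p s') → s = s' := by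
    intro s hs s' hs' h
    rw [hS', Finset.mem_image] at hs hs'
    obtain ⟨t, ht, rfl⟩ := hs
    obtain ⟨t', ht', rfl⟩ := hs'
    obtain ⟨e, he⟩ := hS t ht
    obtain ⟨e', he'⟩ := hS t' ht'
    have h1 : t = t' := by
      rw [he, he']
      refine hsep e e' fun p hp => ?_
      rw [← he, ← he']
      have := Fact.mk (hq p hp)
      have h2 : (padicValRat p ((σ t : ℕ) : ℚ)) = padicValRat p ((σ t' : ℕ) : ℚ) := by
        rw [padicValRat.of_nat, padicValRat.of_nat, h p hp]
      rw [(hσ t ht).2, (hσ t' ht').2, padicValRat.mul (hSpos t ht).ne' hDQ,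
        padicValRat.mul (hSpos t' ht').ne' hDQ] at h2
      linarith
    rw [h1]
  obtain ⟨p, hp, hnp⟩ := exists_many_values q r hqr S' hinj n hn1 (by rw [hS'c]; exact hSn)
  obtain ⟨T, hTS, hTn, hTinj⟩ := exists_section S' (fun s => padicValNat p s) n hnp
  have hT0 : ∀ s ∈ T, s ≠ 0 := by
    intro s hs
    have h1 := hTS hs
    rw [hS', Finset.mem_image] at h1
    obtain ⟨t, ht, rfl⟩ := h1
    exact (hσ t ht).1
  obtain ⟨X', hX'⟩ : ∃ X' : Finset ℤ, X' = dl X D := ⟨_, rfl⟩
  have hX'c : X'.card = X.card := by rw [hX', card_dl X D hD.ne']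
  have hX'ne : X'.Nonempty := by rw [hX']; exact hX.image _
  have hkey := dil_core hK hN p (hq p hp) X' Y hX'ne hY T hT0 hTinj (ε / 2 * (x + y)) (by
    intro s hs
    have h1 := hTS hs
    rw [hS', Finset.mem_image] at h1
    obtain ⟨t, ht, rfl⟩ := h1
    have h2 : (Finset.image₂ (fun a b => a + b) X' (dl Y (σ t))).card ≤ (xs X Y t).card := by
      refine Finset.card_le_card_of_injOn (fun z : ℤ => (z : ℚ) / D) ?_ ?_
      · intro z hz
        obtain ⟨a, ha, b, hb, rfl⟩ := Finset.mem_image₂.1 (Finset.mem_coe.1 hz)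
        rw [hX'] at ha
        obtain ⟨u, hu, rfl⟩ := Finset.mem_image.1 ha
        obtain ⟨v, hv, rfl⟩ := Finset.mem_image.1 hb
        refine Finset.mem_coe.2 (Finset.mem_image₂.2 ⟨u, hu, v, hv, ?_⟩)
        push_cast
        rw [(hσ t ht).2]
        field_simp
      · intro z _ z' _ h
        have h' : (z : ℚ) / D = (z' : ℚ) / D := h
        have h1 : (z : ℚ) = z' := by
          field_simp at h'
          exact h'
        exact_mod_cast h1
    have h3 : (0 : ℝ) < (Finset.image₂ (fun a b => a + b) X' (dl Y (σ t))).card := by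
      exact_mod_cast Finset.card_pos.2 (hX'ne.image₂ (hY.image _))
    have h4 : ((Finset.image₂ (fun a b => a + b) X' (dl Y (σ t))).card : ℝ) <
        ((X.card : ℝ) * Y.card) ^ (1 - ε) :=
      lt_of_le_of_lt (by exact_mod_cast h2) (hbad t ht)
    have h5 := (Real.log_lt_log h3 h4).le
    rw [Real.log_rpow (by positivity), Real.log_mul (by linarith) (by linarith), ← hx, ← hy] at h5
    rw [hX'c, ← hx, ← hy]
    refine h5.trans (le_of_eq ?_)
    ring)
  rw [hTn, hX'c, ← hx, ← hy] at hkey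
  have h6 : x * y ≤ m * (x + y) := by
    rw [hm]
    rcases le_total x y with h | h
    · rw [min_eq_left h]
      nlinarith
    · rw [min_eq_right h]
      nlinarith
  have h7 : (n : ℝ) * (ε / 2) * (x + y) ≤ K * m * (x + y) := by
    calc (n : ℝ) * (ε / 2) * (x + y) = n * (ε / 2 * (x + y)) := by ring
      _ ≤ K * (x * y) := hkey
      _ ≤ K * (m * (x + y)) := mul_le_mul_of_nonneg_left h6 hK.le
      _ = _ := by ring
  have h8 : (n : ℝ) * (ε / 2) ≤ K * m := le_of_mul_le_mul_right h7 (by linarith)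
  have h9 : 2 * K / ε * m = K * m / (ε / 2) := by
    field_simp
  rw [h9, div_lt_iff₀ (by positivity)] at hngt
  linarith

end Pool.Agent.Helper15.GL
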