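import Pool.Agent.Helper15.GL.GrowR

set_option autoImplicit false

/-!
# Project GL (MP_120218), Final: the dichotomy
-/

namespace Pool.Agent.Helper15.GL

open Finset

/-- `AP` -/
def prd (A : Finset ℤ) (P : Finset ℚ) : Finset ℚ :=
  Finset.image₂ (fun (a : ℤ) (s : ℚ) => (a : ℚ) * s) A P

/-- signs -/
theorem rich_abs (A : Finset ℤ) (P : Finset ℚ) (z : ℚ) :
    (rich A P z).card ≤ (rich A (P.image (fun s => |s|)) z).card +
      (rich A (P.image (fun s => |s|)) (-z)).card := by
  classical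
  refine le_trans (Finset.card_le_card ?_) (Finset.card_union_le _ _)
  intro a ha
  obtain ⟨haA, s, hs, has⟩ := mem_rich.1 ha
  have hmem : |s| ∈ P.image (fun s => |s|) := Finset.mem_image_of_mem (fun s => |s|) hs
  rcases abs_choice s with h | h
  · refine Finset.mem_union_left _ (mem_rich.2 ⟨haA, |s|, hmem, ?_⟩)
    rw [h, has]
  · refine Finset.mem_union_right _ (mem_rich.2 ⟨haA, |s|, hmem, ?_⟩)
    rw [h, has]
    ring

/-- the dichotomy for groups of rank `r`, with signs -/
theorem dich_rank (η : ℝ) (hη : 0 < η) (hη1 : η ≤ 1) : ∃ C c N0 : ℝ, 0 < C ∧ 0 < c ∧ c ≤ 1 ∧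
    1 ≤ N0 ∧
    ∀ (A : Finset ℤ) (r : ℕ) (g : Fin r → ℚ) (P Z : Finset ℚ), N0 ≤ A.card → 1 ≤ r →
      (∀ i, g i ≠ 0) → (∀ s ∈ P, ∃ e : Fin r → ℤ, s = ∏ i, g i ^ e i) →
      (P.card : ℝ) ≤ (A.card : ℝ) ^ c →
      (∀ z ∈ Z, (C * Real.log A.card) ^ r < (rich A P z).card) →
      Grows η A ∨ (Z.card : ℝ) ≤ (A.card : ℝ) ^ (1 - c) := by
  classical
  obtain ⟨C2, c, N2, hC2, hc, hc1, hN2, h2⟩ := grow_rank η hη hη1
  refine ⟨2 * C2, c / 2, N2 + 1 + Real.exp (2 * Real.log 2 / c), by positivity,
    by positivity, by linarith, ?_, ?_⟩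
  · have := Real.exp_pos (2 * Real.log 2 / c)
    linarith
  intro A r g P Z hAN hr hg hP hPc hrich
  by_cases hG : Grows η A
  · exact Or.inl hG
  right
  by_contra hmany
  rw [not_le] at hmany
  have hexp := Real.exp_pos (2 * Real.log 2 / c)
  have hA1 : (1 : ℝ) ≤ A.card := by linarith
  have hA0 : (0 : ℝ) < A.card := by linarith
  have ha : 0 ≤ Real.log A.card := Real.log_nonneg hA1
  have hlogA : 2 * Real.log 2 / c ≤ Real.log A.card := by
    rw [Real.le_log_iff_exp_le hA0]
    linarith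
  have hlogA2 : Real.log 2 ≤ c / 2 * Real.log A.card := by
    rw [div_le_iff₀ hc] at hlogA
    linarith
  have hpow : 2 * (A.card : ℝ) ^ (1 - c) ≤ (A.card : ℝ) ^ (1 - c / 2) := by
    have h3 : (2 : ℝ) ≤ (A.card : ℝ) ^ (c / 2) := by
      rw [← Real.log_le_log_iff (by norm_num) (Real.rpow_pos_of_pos hA0 _), Real.log_rpow hA0]
      exact hlogA2
    have h4 : (A.card : ℝ) ^ (1 - c / 2) = (A.card : ℝ) ^ (c / 2) * (A.card : ℝ) ^ (1 - c) := by
      rw [← Real.rpow_add hA0]
      congr 1
      ring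
    rw [h4]
    exact mul_le_mul_of_nonneg_right h3 (Real.rpow_nonneg hA0.le _)
  obtain ⟨Q, hQ⟩ : ∃ Q : Finset ℚ, Q = P.image (fun s => |s|) := ⟨_, rfl⟩
  have hQP : ∀ s ∈ Q, ∃ e : Fin r → ℤ, s = ∏ i, |g i| ^ e i := by
    intro s hs
    rw [hQ, Finset.mem_image] at hs
    obtain ⟨t, ht, rfl⟩ := hs
    obtain ⟨e, he⟩ := hP t ht
    refine ⟨e, ?_⟩
    rw [he, Finset.abs_prod]
    exact Finset.prod_congr rfl fun i _ => abs_zpow _ _
  have hgpos : ∀ i, 0 < |g i| := fun i => abs_pos.2 (hg i)
  have hQc : (Q.card : ℝ) ≤ P.card := by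
    rw [hQ]
    exact_mod_cast Finset.card_image_le
  obtain ⟨T, hT⟩ : ∃ T : ℝ, T = (C2 * Real.log A.card) ^ r := ⟨_, rfl⟩
  have hT0 : 0 ≤ T := by rw [hT]; positivity
  have hTT : 2 * T ≤ (2 * C2 * Real.log A.card) ^ r := by
    have h4 : (2 : ℝ) ≤ 2 ^ r := by
      calc (2 : ℝ) = 2 ^ 1 := by norm_num
        _ ≤ 2 ^ r := pow_le_pow_right₀ (by norm_num) hr
    calc 2 * T ≤ 2 ^ r * T := mul_le_mul_of_nonneg_right h4 hT0
      _ = (2 * C2 * Real.log A.card) ^ r := by
        rw [hT, ← mul_pow]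
        ring
  obtain ⟨ζ, hζ⟩ : ∃ ζ : ℚ → ℚ, ζ = fun z => if T < ((rich A Q z).card : ℝ) then z else -z :=
    ⟨_, rfl⟩
  have hζrich : ∀ z ∈ Z, T < ((rich A Q (ζ z)).card : ℝ) := by
    intro z hz
    rw [hζ]
    by_cases h : T < ((rich A Q z).card : ℝ)
    · simp only [if_pos h]
      exact h
    · simp only [if_neg h]
      have h3 := hrich z hz
      have h4 : ((rich A P z).card : ℝ) ≤ (rich A Q z).card + (rich A Q (-z)).card := by
        rw [hQ]
        exact_mod_cast rich_abs A P z
      linarith [not_lt.1 h]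
  obtain ⟨Z', hZ'⟩ : ∃ Z' : Finset ℚ, Z' = Z.image ζ := ⟨_, rfl⟩
  have hZc : (Z.card : ℝ) ≤ 2 * Z'.card := by
    have h3 : Z.card ≤ 2 * Z'.card := by
      rw [hZ']
      refine Finset.card_le_mul_card_image Z 2 fun t _ => ?_
      have hsub : Z.filter (fun z => ζ z = t) ⊆ {t, -t} := by
        intro z hz
        have h4 := (Finset.mem_filter.1 hz).2
        rw [Finset.mem_insert, Finset.mem_singleton]
        rw [hζ] at h4
        by_cases h : T < ((rich A Q z).card : ℝ)
        · simp only [if_pos h] at h4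
          exact Or.inl h4
        · simp only [if_neg h] at h4
          right
          rw [← h4, neg_neg]
      exact (Finset.card_le_card hsub).trans Finset.card_le_two
    exact_mod_cast h3
  have hPc' : (Q.card : ℝ) ≤ (A.card : ℝ) ^ c :=
    (hQc.trans hPc).trans (Real.rpow_le_rpow_of_exponent_le hA1 (by linarith))
  refine hG (h2 A r (fun i => |g i|) Q Z' (by linarith) hr hgpos hQP hPc' (by linarith) ?_)
  intro z hz
  rw [hZ', Finset.mem_image] at hz
  obtain ⟨w, hw, rfl⟩ := hz
  rw [← hT]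
  exact hζrich w hw

/-- counting pairs -/
theorem count_pairs (A A1 : Finset ℤ) (hA1 : A1 ⊆ A) (h0 : (0 : ℤ) ∉ A1) (P Q : Finset ℚ)
    (hQ : Q = P.image (fun s => s⁻¹)) (hP0 : ∀ s ∈ P, s ≠ 0) :
    A1.card * P.card ≤ ∑ z ∈ prd A P, (rich A1 Q z).card := by
  classical
  rw [← Finset.card_product]
  have hmaps : ∀ x ∈ A1 ×ˢ P, (x.1 : ℚ) * x.2 ∈ prd A P := by
    rintro ⟨a, s⟩ hx
    rw [Finset.mem_product] at hx
    exact Finset.mem_image₂_of_mem (hA1 hx.1) hx.2
  rw [Finset.card_eq_sum_card_fiberwise hmaps]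
  refine Finset.sum_le_sum fun z _ => ?_
  refine Finset.card_le_card_of_injOn (fun x => x.1) ?_ ?_
  · rintro ⟨a, s⟩ hx
    have hx' := Finset.mem_filter.1 (Finset.mem_coe.1 hx)
    have hx'' := Finset.mem_product.1 hx'.1
    have hs0 := hP0 s hx''.2
    refine Finset.mem_coe.2 (mem_rich.2 ⟨hx''.1, s⁻¹, ?_, ?_⟩)
    · rw [hQ]
      exact Finset.mem_image_of_mem _ hx''.2
    · have h1 : (a : ℚ) * s = z := hx'.2
      show (a : ℚ) = z * s⁻¹
      rw [← h1]
      field_simp
  · rintro ⟨a, s⟩ hx ⟨a', s'⟩ hx' haa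
    have hx1 := Finset.mem_filter.1 (Finset.mem_coe.1 hx)
    have hx1' := Finset.mem_filter.1 (Finset.mem_coe.1 hx')
    have haa' : a = a' := haa
    subst haa'
    have h3 : (a : ℚ) * s = (a : ℚ) * s' := hx1.2.trans hx1'.2.symm
    have ha0 : a ≠ 0 := fun h => h0 (h ▸ (Finset.mem_product.1 hx1.1).1)
    have h4 : (a : ℚ) ≠ 0 := by exact_mod_cast ha0
    rw [mul_left_cancel₀ h4 h3]

theorem rich_le (A : Finset ℤ) (P : Finset ℚ) (z : ℚ) : (rich A P z).card ≤ P.card := by
  classical
  calc (rich A P z).card = ((rich A P z).image (fun a : ℤ => (a : ℚ))).card := by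
        rw [Finset.card_image_of_injective _ Int.cast_injective]
    _ ≤ (P.image (fun s => z * s)).card := by
        refine Finset.card_le_card fun x hx => ?_
        obtain ⟨a, ha, rfl⟩ := Finset.mem_image.1 hx
        obtain ⟨_, s, hs, has⟩ := mem_rich.1 ha
        exact Finset.mem_image.2 ⟨s, hs, has.symm⟩
    _ ≤ P.card := Finset.card_image_le

/-- the elements of `A` which leave `A` when multiplied by `g` -/
def leav (A : Finset ℤ) (g : ℚ) : Finset ℤ := A.filter (fun a : ℤ => ∀ b ∈ A, (b : ℚ) ≠ g * a)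

theorem prd_pow (A : Finset ℤ) (g : ℚ) (L : ℕ) :
    (prd A ((Finset.range (L + 1)).image (fun i : ℕ => g ^ i))).card ≤
      A.card + L * (leav A g).card := by
  classical
  induction L with
  | zero =>
    unfold prd
    refine (Finset.card_image₂_le _ _ _).trans ?_
    simp
  | succ L ih =>
    have hsub : prd A ((Finset.range (L + 1 + 1)).image (fun i : ℕ => g ^ i)) ⊆
        prd A ((Finset.range (L + 1)).image (fun i : ℕ => g ^ i)) ∪
          (leav A g).image (fun a : ℤ => (a : ℚ) * g ^ (L + 1)) := by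
      intro z hz
      unfold prd at hz
      obtain ⟨a, ha, t, ht, rfl⟩ := Finset.mem_image₂.1 hz
      obtain ⟨i, hi, rfl⟩ := Finset.mem_image.1 ht
      rw [Finset.mem_range] at hi
      rcases Nat.lt_or_ge i (L + 1) with h | h
      · refine Finset.mem_union_left _ (Finset.mem_image₂_of_mem ha ?_)
        exact Finset.mem_image_of_mem _ (Finset.mem_range.2 h)
      · have hiL : i = L + 1 := by omega
        subst hiL
        by_cases hl : a ∈ leav A g
        · exact Finset.mem_union_right _ (Finset.mem_image.2 ⟨a, hl, rfl⟩)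
        · unfold leav at hl
          rw [Finset.mem_filter, not_and] at hl
          have h1 := hl ha
          push Not at h1
          obtain ⟨b, hb, hbg⟩ := h1
          refine Finset.mem_union_left _ ?_
          have h2 : (a : ℚ) * g ^ (L + 1) = (b : ℚ) * g ^ L := by
            rw [hbg, pow_succ]
            ring
          show (a : ℚ) * g ^ (L + 1) ∈ _
          rw [h2]
          refine Finset.mem_image₂_of_mem hb ?_
          exact Finset.mem_image_of_mem _ (Finset.mem_range.2 (Nat.lt_succ_self L))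
    calc (prd A ((Finset.range (L + 1 + 1)).image (fun i : ℕ => g ^ i))).card ≤
          (prd A ((Finset.range (L + 1)).image (fun i : ℕ => g ^ i))).card +
          ((leav A g).image (fun a : ℤ => (a : ℚ) * g ^ (L + 1))).card :=
            (Finset.card_le_card hsub).trans (Finset.card_union_le _ _)
      _ ≤ (A.card + L * (leav A g).card) + (leav A g).card :=
            Nat.add_le_add ih Finset.card_image_le
      _ = A.card + (L + 1) * (leav A g).card := by ring

/-- the elements of `A` in long cosets of `⟨g⟩` -/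
noncomputable def long (A : Finset ℤ) (g : ℚ) (T : ℝ) : Finset ℤ := by
  classical exact A.filter (fun a => T < ((co A g a).card : ℝ))

theorem mem_long {A : Finset ℤ} {g : ℚ} {T : ℝ} {a : ℤ} :
    a ∈ long A g T ↔ a ∈ A ∧ T < ((co A g a).card : ℝ) := by
  classical
  unfold long
  exact Finset.mem_filter

/-- few products with powers of `g` if most elements of `A` are in short cosets -/
theorem prd_coset (A : Finset ℤ) (g : ℚ) (hg : g ≠ 0) (P : Finset ℚ)
    (hP : ∀ s ∈ P, ∃ e : ℤ, s = g ^ e) (T : ℝ) (hT : 0 ≤ T) :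
    (A.card : ℝ) * P.card ≤ ((long A g T).card + 1) * P.card + T * (prd A P).card := by
  classical
  obtain ⟨A1, hA1⟩ : ∃ A1 : Finset ℤ, A1 = (A \ long A g T).erase 0 := ⟨_, rfl⟩
  have hsub : A1 ⊆ A := by
    rw [hA1]
    exact (Finset.erase_subset _ _).trans Finset.sdiff_subset
  have hP0 : ∀ s ∈ P, s ≠ 0 := by
    intro s hs
    obtain ⟨e, he⟩ := hP s hs
    rw [he]
    exact zpow_ne_zero _ hg
  have hcount := count_pairs A A1 hsub (by rw [hA1]; exact Finset.notMem_erase _ _) P _ rfl hP0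
  have hcard : A.card ≤ A1.card + (long A g T).card + 1 := by
    have h1 := Finset.pred_card_le_card_erase (s := A \ long A g T) (a := (0 : ℤ))
    have h2 := Finset.card_le_card_sdiff_add_card (s := A) (t := long A g T)
    rw [← hA1] at h1
    omega
  have hterm : ∀ z ∈ prd A P, ((rich A1 (P.image (fun s => s⁻¹)) z).card : ℝ) ≤ T := by
    intro z _
    rcases (rich A1 (P.image (fun s => s⁻¹)) z).eq_empty_or_nonempty with h0 | ⟨a0, ha0⟩
    · rw [h0, Finset.card_empty, Nat.cast_zero]
      exact hT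
    · obtain ⟨ha0A, t0, ht0, haz0⟩ := mem_rich.1 ha0
      rw [hA1, Finset.mem_erase, Finset.mem_sdiff] at ha0A
      have hshort : ((co A g a0).card : ℝ) ≤ T := by
        by_contra hcon
        exact ha0A.2.2 (mem_long.2 ⟨ha0A.2.1, not_le.1 hcon⟩)
      refine le_trans ?_ hshort
      have hle : (rich A1 (P.image (fun s => s⁻¹)) z).card ≤ (co A g a0).card := by
        refine Finset.card_le_card fun b hb => ?_
        obtain ⟨hbA, t, ht, hbz⟩ := mem_rich.1 hb
        obtain ⟨s0, hs0, rfl⟩ := Finset.mem_image.1 ht0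
        obtain ⟨s, hs, rfl⟩ := Finset.mem_image.1 ht
        obtain ⟨e0, he0⟩ := hP s0 hs0
        obtain ⟨e, he⟩ := hP s hs
        refine mem_co.2 ⟨hsub hbA, e0 - e, ?_⟩
        rw [hbz, haz0, he0, he, zpow_sub₀ hg]
        have h1 : g ^ e0 ≠ 0 := zpow_ne_zero _ hg
        have h2 : g ^ e ≠ 0 := zpow_ne_zero _ hg
        field_simp
      exact_mod_cast hle
  have h3 : ((A1.card * P.card : ℕ) : ℝ) ≤ T * (prd A P).card := by
    calc ((A1.card * P.card : ℕ) : ℝ) ≤
          ((∑ z ∈ prd A P, (rich A1 (P.image (fun s => s⁻¹)) z).card : ℕ) : ℝ) := by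
            exact_mod_cast hcount
      _ = ∑ z ∈ prd A P, ((rich A1 (P.image (fun s => s⁻¹)) z).card : ℝ) := by push_cast; rfl
      _ ≤ ∑ z ∈ prd A P, T := Finset.sum_le_sum hterm
      _ = T * (prd A P).card := by rw [Finset.sum_const, nsmul_eq_mul, mul_comm]
  push_cast at h3
  have hcardR : (A.card : ℝ) ≤ A1.card + (long A g T).card + 1 := by exact_mod_cast hcard
  have hP00 : (0 : ℝ) ≤ P.card := Nat.cast_nonneg _
  nlinarith

/-- the same in rank `r` -/
theorem prd_rank (A : Finset ℤ) (P : Finset ℚ) (hP0 : ∀ s ∈ P, s ≠ 0) (T : ℝ) (hT : 0 ≤ T)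
    (w : ℝ) (hw : ∀ Z : Finset ℚ, (∀ z ∈ Z, T < ((rich A (P.image (fun s => s⁻¹)) z).card : ℝ)) →
      (Z.card : ℝ) ≤ w) :
    (A.card : ℝ) * P.card ≤ (w + 1) * P.card + T * (prd A P).card := by
  classical
  have hcount := count_pairs A (A.erase 0) (Finset.erase_subset _ _) (Finset.notMem_erase _ _)
    P _ rfl hP0
  obtain ⟨Z, hZ⟩ : ∃ Z : Finset ℚ, Z = (prd A P).filter
      (fun z => T < ((rich A (P.image (fun s => s⁻¹)) z).card : ℝ)) := ⟨_, rfl⟩
  have hZw : (Z.card : ℝ) ≤ w := hw Z fun z hz => by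
    rw [hZ, Finset.mem_filter] at hz
    exact hz.2
  have hle : ∀ z, ((rich (A.erase 0) (P.image (fun s => s⁻¹)) z).card : ℝ) ≤
      (rich A (P.image (fun s => s⁻¹)) z).card := by
    intro z
    have h1 : (rich (A.erase 0) (P.image (fun s => s⁻¹)) z).card ≤
        (rich A (P.image (fun s => s⁻¹)) z).card := by
      refine Finset.card_le_card fun a ha => ?_
      obtain ⟨haA, h⟩ := mem_rich.1 ha
      exact mem_rich.2 ⟨Finset.mem_of_mem_erase haA, h⟩
    exact_mod_cast h1
  have hPinv : ((P.image (fun s => s⁻¹)).card : ℝ) ≤ P.card := by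
    exact_mod_cast Finset.card_image_le
  have h3 : (((A.erase 0).card * P.card : ℕ) : ℝ) ≤ w * P.card + T * (prd A P).card := by
    have hP00 : (0 : ℝ) ≤ P.card := Nat.cast_nonneg _
    calc (((A.erase 0).card * P.card : ℕ) : ℝ) ≤
          ((∑ z ∈ prd A P, (rich (A.erase 0) (P.image (fun s => s⁻¹)) z).card : ℕ) : ℝ) := by
            exact_mod_cast hcount
      _ = ∑ z ∈ prd A P, ((rich (A.erase 0) (P.image (fun s => s⁻¹)) z).card : ℝ) := by
            push_cast; rfl
      _ ≤ ∑ z ∈ prd A P, ((if z ∈ Z then (P.card : ℝ) else 0) + T) := by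
            refine Finset.sum_le_sum fun z hz => ?_
            by_cases h : z ∈ Z
            · rw [if_pos h]
              have h4 : ((rich (A.erase 0) (P.image (fun s => s⁻¹)) z).card : ℝ) ≤
                  (P.image (fun s => s⁻¹)).card := by
                exact_mod_cast rich_le _ _ z
              linarith
            · rw [if_neg h, zero_add]
              refine (hle z).trans ?_
              by_contra hcon
              apply h
              rw [hZ, Finset.mem_filter]
              exact ⟨hz, not_le.1 hcon⟩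
      _ = Z.card * P.card + T * (prd A P).card := by
            rw [Finset.sum_add_distrib, Finset.sum_const, nsmul_eq_mul, ← Finset.sum_filter]
            have h5 : (prd A P).filter (fun z => z ∈ Z) = Z := by
              ext z
              rw [Finset.mem_filter]
              refine ⟨fun h => h.2, fun h => ⟨?_, h⟩⟩
              rw [hZ] at h
              exact (Finset.mem_filter.1 h).1
            rw [h5, Finset.sum_const, nsmul_eq_mul]
            ring
      _ ≤ w * P.card + T * (prd A P).card := by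
            have := mul_le_mul_of_nonneg_right hZw hP00
            linarith
  push_cast at h3
  have h4 := Finset.pred_card_le_card_erase (s := A) (a := (0 : ℤ))
  have h5 : A.card ≤ (A.erase 0).card + 1 := by omega
  have h6 : (A.card : ℝ) ≤ (A.erase 0).card + 1 := by exact_mod_cast h5
  have hP00 : (0 : ℝ) ≤ P.card := Nat.cast_nonneg _
  nlinarith

end Pool.Agent.Helper15.GL
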