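import Pool.Agent.Helper15.GL.Level

set_option autoImplicit false

/-!
# Project GL (MP_120218), Gibbs: the digit entropy is monotone in the set
-/

namespace Pool.Agent.Helper15.GL

open Finset

theorem ratio_sum_le (p t : ℕ) (V W : Finset ℤ) (z : ℤ) :
    ∑ z' ∈ cls p t V z, ((cls p (t + 1) W z').card : ℝ) / (cls p (t + 1) V z').card ≤
      (cls p t W z).card := by
  classical
  have h1 : ∀ z' ∈ cls p t V z, ((cls p (t + 1) W z').card : ℝ) / (cls p (t + 1) V z').card =
      ∑ u ∈ cls p t W z, if (p : ℤ) ^ (t + 1) ∣ u - z' then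
        1 / ((cls p (t + 1) V z').card : ℝ) else 0 := by
    intro z' hz'
    rw [← Finset.sum_filter, Finset.sum_const, nsmul_eq_mul, mul_one_div]
    congr 2
    congr 1
    ext u
    rw [mem_cls] at hz'
    rw [mem_cls, Finset.mem_filter, mem_cls]
    constructor
    · rintro ⟨hu, hd⟩
      refine ⟨⟨hu, ?_⟩, hd⟩
      have h2 := dvd_add ((pow_dvd_pow (p : ℤ) (Nat.le_succ t)).trans hd) hz'.2
      simpa using h2
    · rintro ⟨⟨hu, _⟩, hd⟩
      exact ⟨hu, hd⟩
  rw [Finset.sum_congr rfl h1, Finset.sum_comm]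
  have h2 : ∀ u ∈ cls p t W z, ∑ z' ∈ cls p t V z, (if (p : ℤ) ^ (t + 1) ∣ u - z' then
        1 / ((cls p (t + 1) V z').card : ℝ) else 0) ≤ 1 := by
    intro u _
    rw [← Finset.sum_filter]
    have h3 : ∀ z' ∈ (cls p t V z).filter (fun z' => (p : ℤ) ^ (t + 1) ∣ u - z'),
        1 / ((cls p (t + 1) V z').card : ℝ) = 1 / ((cls p (t + 1) V u).card : ℝ) := by
      intro z' hz'
      rw [Finset.mem_filter] at hz'
      rw [cls_eq hz'.2]
    rw [Finset.sum_congr rfl h3, Finset.sum_const, nsmul_eq_mul, mul_one_div]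
    apply div_le_one_of_le₀ _ (Nat.cast_nonneg _)
    have h4 : (cls p t V z).filter (fun z' => (p : ℤ) ^ (t + 1) ∣ u - z') ⊆
        cls p (t + 1) V u := by
      intro z' hz'
      rw [Finset.mem_filter, mem_cls] at hz'
      rw [mem_cls]
      exact ⟨hz'.1.1, (dvd_sub_comm).1 hz'.2⟩
    exact_mod_cast Finset.card_le_card h4
  refine (Finset.sum_le_sum h2).trans (le_of_eq ?_)
  rw [Finset.sum_const, nsmul_eq_mul, mul_one]

/-- [Gibbs] -/
theorem ell_mono (p t : ℕ) (V W : Finset ℤ) (hVW : V ⊆ W) :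
    ∑ z ∈ V, ell p t V z ≤ ∑ z ∈ V, ell p t W z := by
  classical
  have hpos : ∀ (i : ℕ) (U : Finset ℤ), V ⊆ U → ∀ z ∈ V, (0 : ℝ) < (cls p i U z).card :=
    fun i U hU z hz => by exact_mod_cast Finset.card_pos.2 (cls_nonempty (hU hz))
  have h1 : ∀ z ∈ V, ell p t V z - ell p t W z ≤
      ((cls p t V z).card / (cls p t W z).card : ℝ) *
        ((cls p (t + 1) W z).card / (cls p (t + 1) V z).card) - 1 := by
    intro z hz
    have a1 := hpos t V (Finset.Subset.refl _) z hz
    have a2 := hpos (t + 1) V (Finset.Subset.refl _) z hz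
    have a3 := hpos t W hVW z hz
    have a4 := hpos (t + 1) W hVW z hz
    have h2 := Real.log_le_sub_one_of_pos (show (0 : ℝ) <
      ((cls p t V z).card / (cls p t W z).card : ℝ) *
        ((cls p (t + 1) W z).card / (cls p (t + 1) V z).card) by positivity)
    rw [Real.log_mul (by positivity) (by positivity), Real.log_div a1.ne' a3.ne',
      Real.log_div a4.ne' a2.ne'] at h2
    unfold ell
    linarith
  have h2 := Finset.sum_le_sum h1
  rw [Finset.sum_sub_distrib, Finset.sum_sub_distrib] at h2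
  have h3 : ∑ z ∈ V, ((cls p t V z).card / (cls p t W z).card : ℝ) *
        ((cls p (t + 1) W z).card / (cls p (t + 1) V z).card) ≤ ∑ z ∈ V, (1 : ℝ) := by
    rw [← avg_cls p t V]
    refine Finset.sum_le_sum fun z hz => ?_
    have a1 := hpos t V (Finset.Subset.refl _) z hz
    have a3 := hpos t W hVW z hz
    have e : ∑ y ∈ cls p t V z, ((cls p t V y).card / (cls p t W y).card : ℝ) *
        ((cls p (t + 1) W y).card / (cls p (t + 1) V y).card) =
        ((cls p t V z).card / (cls p t W z).card : ℝ) *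
          ∑ y ∈ cls p t V z, ((cls p (t + 1) W y).card / (cls p (t + 1) V y).card : ℝ) := by
      rw [Finset.mul_sum]
      refine Finset.sum_congr rfl fun y hy => ?_
      rw [cls_eq (mem_cls.1 hy).2, cls_eq (mem_cls.1 hy).2]
    rw [e, div_le_one a1]
    have h4 := ratio_sum_le p t V W z
    calc ((cls p t V z).card / (cls p t W z).card : ℝ) *
          ∑ y ∈ cls p t V z, ((cls p (t + 1) W y).card / (cls p (t + 1) V y).card : ℝ)
        ≤ ((cls p t V z).card / (cls p t W z).card : ℝ) * (cls p t W z).card :=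
          mul_le_mul_of_nonneg_left h4 (by positivity)
      _ = (cls p t V z).card := div_mul_cancel₀ _ a3.ne'
  linarith

end Pool.Agent.Helper15.GL
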