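import Pool.Agent.Helper15.GL.Level

set_option autoImplicit false

/-!
# Project GL (MP_120218), Sum: `X + Y` is large if the digits of `X` and `Y` do not meet
-/

namespace Pool.Agent.Helper15.GL

open Finset

/-- the sumset of two classes -/
noncomputable def tau (p j : ℕ) (X Y : Finset ℤ) (x y : ℤ) : ℝ :=
  Real.log ((Finset.image₂ (fun a b => a + b) (cls p j X x) (cls p j Y y)).card)

theorem tau_nonneg (p j : ℕ) (X Y : Finset ℤ) (x y : ℤ) : 0 ≤ tau p j X Y x y :=
  Real.log_natCast_nonneg _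

theorem tau_step (p j : ℕ) (hp : 0 < p) [NeZero p] (X Y : Finset ℤ) (x y : ℤ) (hxX : x ∈ X)
    (hyY : y ∈ Y) :
    ent (conv (law (cls p j X x) (dig p j)) (law (cls p j Y y) (dig p j))) +
      (∑ y' ∈ cls p j Y y, (∑ x' ∈ cls p j X x, tau p (j + 1) X Y x' y') /
        (cls p j X x).card) / (cls p j Y y).card ≤ tau p j X Y x y := by
  classical
  obtain ⟨C, hC⟩ : ∃ C : Finset ℤ, C = cls p j X x := ⟨_, rfl⟩
  obtain ⟨D, hD⟩ : ∃ D : Finset ℤ, D = cls p j Y y := ⟨_, rfl⟩
  have hCne : C.Nonempty := by rw [hC]; exact cls_nonempty hxX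
  have hDne : D.Nonempty := by rw [hD]; exact cls_nonempty hyY
  have hCc : (0 : ℝ) < C.card := by exact_mod_cast Finset.card_pos.2 hCne
  have hDc : (0 : ℝ) < D.card := by exact_mod_cast Finset.card_pos.2 hDne
  obtain ⟨P, hP⟩ : ∃ P : ℤ, P = (p : ℤ) ^ j := ⟨_, rfl⟩
  have hP0 : P ≠ 0 := by rw [hP]; positivity
  have hmod : ∀ {a b : ℤ}, P ∣ a - b → a % P = b % P := fun h =>
    Int.emod_eq_emod_iff_emod_sub_eq_zero.2 (Int.emod_eq_zero_of_dvd h)
  have hsp := split_step C D hCne hDne (dig p j) (dig p j)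
    (fun z => dig p j z - (((x % P + y % P) / P : ℤ) : ZMod p)) (by
      intro a ha b hb
      rw [hC, mem_cls, ← hP] at ha
      rw [hD, mem_cls, ← hP] at hb
      have ha' := hmod ha.2
      have hb' := hmod hb.2
      have h1 : (a + b) / P = a / P + b / P + (x % P + y % P) / P := by
        have e1 := Int.mul_ediv_add_emod a P
        have e2 := Int.mul_ediv_add_emod b P
        have e3 : a + b = (x % P + y % P) + P * (a / P + b / P) := by
          rw [← ha', ← hb', mul_add]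
          linarith
        rw [e3, Int.add_mul_ediv_left _ _ hP0, add_comm]
      unfold dig
      rw [← hP, h1]
      push_cast
      ring)
  have hsum : ∑ a ∈ C, ∑ b ∈ D, Real.log ((Finset.image₂ (fun u v => u + v)
        (C.filter (fun z => dig p j z = dig p j a))
        (D.filter (fun z => dig p j z = dig p j b))).card) =
      ∑ a ∈ C, ∑ b ∈ D, tau p (j + 1) X Y a b := by
    refine Finset.sum_congr rfl fun a ha => Finset.sum_congr rfl fun b hb => ?_
    rw [hC] at ha
    rw [hD] at hb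
    rw [hC, hD, filter_dig p j hp X x a ha, filter_dig p j hp Y y b hb]
    rfl
  rw [hsum] at hsp
  rw [← hC, ← hD]
  have hτ : tau p j X Y x y = Real.log ((Finset.image₂ (fun a b => a + b) C D).card) := by
    unfold tau
    rw [hC, hD]
  rw [hτ]
  have e : (∑ y' ∈ D, (∑ x' ∈ C, tau p (j + 1) X Y x' y') / C.card) / D.card =
      (∑ a ∈ C, ∑ b ∈ D, tau p (j + 1) X Y a b) / (C.card * D.card) := by
    rw [← Finset.sum_div, div_div, Finset.sum_comm]
  rw [e]
  have h2 : ent (conv (law C (dig p j)) (law D (dig p j))) =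
      ((C.card : ℝ) * D.card * ent (conv (law C (dig p j)) (law D (dig p j)))) /
        (C.card * D.card) := by
    field_simp
  rw [h2, ← add_div, div_le_iff₀ (mul_pos hCc hDc)]
  linarith

/-- one level -/
theorem level_step {η K : ℝ} (hN : NodeE η K) (p j : ℕ) (hp : 0 < p) [NeZero p]
    (X Y : Finset ℤ) :
    (1 - η) * (Y.card * Fj p j X + X.card * Fj p j Y) - K * (Fj p j X * Fj p j Y) +
      ∑ x ∈ X, ∑ y ∈ Y, tau p (j + 1) X Y x y ≤ ∑ x ∈ X, ∑ y ∈ Y, tau p j X Y x y := by
  have h1 : ∀ x ∈ X, ∀ y ∈ Y, ((1 - η) * (hx p j X x + hx p j Y y) -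
      K * (hx p j X x * hx p j Y y)) +
      (∑ y' ∈ cls p j Y y, (∑ x' ∈ cls p j X x, tau p (j + 1) X Y x' y') /
        (cls p j X x).card) / (cls p j Y y).card ≤ tau p j X Y x y := by
    intro x hxX y hyY
    have h2 := tau_step p j hp X Y x y hxX hyY
    have h3 := hN (ZMod p) (law (cls p j X x) (dig p j)) (law (cls p j Y y) (dig p j))
      (law_nonneg _ _) (law_nonneg _ _) (sum_law _ (cls_nonempty hxX) _)
      (sum_law _ (cls_nonempty hyY) _)
    have h4 : hx p j X x = ent (law (cls p j X x) (dig p j)) := rfl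
    have h5 : hx p j Y y = ent (law (cls p j Y y) (dig p j)) := rfl
    rw [← h4, ← h5] at h3
    have h6 : (1 - η) * (hx p j X x + hx p j Y y) - K * (hx p j X x * hx p j Y y) =
      (hx p j X x + hx p j Y y) - (η * (hx p j X x + hx p j Y y) +
        K * (hx p j X x * hx p j Y y)) := by ring
    rw [h6]
    linarith
  have h2 : ∑ x ∈ X, ∑ y ∈ Y, (((1 - η) * (hx p j X x + hx p j Y y) -
      K * (hx p j X x * hx p j Y y)) +
      (∑ y' ∈ cls p j Y y, (∑ x' ∈ cls p j X x, tau p (j + 1) X Y x' y') /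
        (cls p j X x).card) / (cls p j Y y).card) ≤ ∑ x ∈ X, ∑ y ∈ Y, tau p j X Y x y :=
    Finset.sum_le_sum fun x hxX => Finset.sum_le_sum fun y hyY => h1 x hxX y hyY
  have h3 : ∑ x ∈ X, ∑ y ∈ Y, (((1 - η) * (hx p j X x + hx p j Y y) -
      K * (hx p j X x * hx p j Y y)) +
      (∑ y' ∈ cls p j Y y, (∑ x' ∈ cls p j X x, tau p (j + 1) X Y x' y') /
        (cls p j X x).card) / (cls p j Y y).card) =
      ∑ x ∈ X, ∑ y ∈ Y, ((1 - η) * (hx p j X x + hx p j Y y) -
        K * (hx p j X x * hx p j Y y)) +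
      ∑ x ∈ X, ∑ y ∈ Y, (∑ y' ∈ cls p j Y y, (∑ x' ∈ cls p j X x, tau p (j + 1) X Y x' y') /
        (cls p j X x).card) / (cls p j Y y).card := by
    rw [← Finset.sum_add_distrib]
    refine Finset.sum_congr rfl fun x _ => ?_
    rw [Finset.sum_add_distrib]
  have h4 : ∑ x ∈ X, ∑ y ∈ Y, (∑ y' ∈ cls p j Y y,
      (∑ x' ∈ cls p j X x, tau p (j + 1) X Y x' y') / (cls p j X x).card) /
        (cls p j Y y).card = ∑ x ∈ X, ∑ y ∈ Y, tau p (j + 1) X Y x y := by
    have e1 : ∀ x ∈ X, ∑ y ∈ Y, (∑ y' ∈ cls p j Y y,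
        (∑ x' ∈ cls p j X x, tau p (j + 1) X Y x' y') / (cls p j X x).card) /
          (cls p j Y y).card =
        (∑ x' ∈ cls p j X x, ∑ y ∈ Y, tau p (j + 1) X Y x' y) / (cls p j X x).card := by
      intro x _
      rw [avg_cls p j Y (fun y' => (∑ x' ∈ cls p j X x, tau p (j + 1) X Y x' y') /
        (cls p j X x).card), ← Finset.sum_div, Finset.sum_comm]
    rw [Finset.sum_congr rfl e1, avg_cls p j X (fun x' => ∑ y ∈ Y, tau p (j + 1) X Y x' y)]
  have h5 : ∑ x ∈ X, ∑ y ∈ Y, ((1 - η) * (hx p j X x + hx p j Y y) -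
        K * (hx p j X x * hx p j Y y)) =
      (1 - η) * (Y.card * Fj p j X + X.card * Fj p j Y) - K * (Fj p j X * Fj p j Y) := by
    have e1 : ∀ x ∈ X, ∑ y ∈ Y, ((1 - η) * (hx p j X x + hx p j Y y) -
        K * (hx p j X x * hx p j Y y)) =
        (1 - η) * (Y.card * hx p j X x + Fj p j Y) - K * (hx p j X x * Fj p j Y) := by
      intro x _
      rw [Finset.sum_sub_distrib, ← Finset.mul_sum, ← Finset.mul_sum, Finset.sum_add_distrib,
        ← Finset.mul_sum, sum_hx, Finset.sum_const, nsmul_eq_mul]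
    rw [Finset.sum_congr rfl e1, Finset.sum_sub_distrib, ← Finset.mul_sum, ← Finset.mul_sum,
      Finset.sum_add_distrib, ← Finset.mul_sum, ← Finset.sum_mul, sum_hx, Finset.sum_const,
      nsmul_eq_mul]
  rw [h3, h4, h5] at h2
  exact h2

/-- **The digits inequality.** -/
theorem sum_ge {η K : ℝ} (hN : NodeE η K) (p : ℕ) (hp : 2 ≤ p) (X Y : Finset ℤ)
    (hX : X.Nonempty) (hY : Y.Nonempty) :
    ∃ J : ℕ, (1 - η) * (Real.log X.card + Real.log Y.card) -
      K * (∑ j ∈ Finset.range J, Fj p j X * Fj p j Y) / (X.card * Y.card) ≤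
      Real.log ((Finset.image₂ (fun a b => a + b) X Y).card) := by
  have : NeZero p := ⟨by omega⟩
  have hXc : (0 : ℝ) < X.card := by exact_mod_cast Finset.card_pos.2 hX
  have hYc : (0 : ℝ) < Y.card := by exact_mod_cast Finset.card_pos.2 hY
  obtain ⟨J1, hJ1⟩ := exists_singleton p hp X
  obtain ⟨J2, hJ2⟩ := exists_singleton p hp Y
  obtain ⟨J, hJ⟩ : ∃ J : ℕ, J = max J1 J2 := ⟨_, rfl⟩
  refine ⟨J, ?_⟩
  have hind : ∀ i : ℕ, (1 - η) * (Y.card * ∑ j ∈ Finset.range i, Fj p j X +
      X.card * ∑ j ∈ Finset.range i, Fj p j Y) -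
      K * (∑ j ∈ Finset.range i, Fj p j X * Fj p j Y) +
      ∑ x ∈ X, ∑ y ∈ Y, tau p i X Y x y ≤ ∑ x ∈ X, ∑ y ∈ Y, tau p 0 X Y x y := by
    intro i
    induction i with
    | zero => simp
    | succ i ih =>
      rw [Finset.sum_range_succ, Finset.sum_range_succ, Finset.sum_range_succ]
      have h := level_step hN p i (by omega) X Y
      have e : (1 - η) * (Y.card * (∑ j ∈ Finset.range i, Fj p j X + Fj p i X) +
          X.card * (∑ j ∈ Finset.range i, Fj p j Y + Fj p i Y)) -
          K * (∑ j ∈ Finset.range i, Fj p j X * Fj p j Y + Fj p i X * Fj p i Y) =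
          ((1 - η) * (Y.card * ∑ j ∈ Finset.range i, Fj p j X +
            X.card * ∑ j ∈ Finset.range i, Fj p j Y) -
            K * (∑ j ∈ Finset.range i, Fj p j X * Fj p j Y)) +
          ((1 - η) * (Y.card * Fj p i X + X.card * Fj p i Y) - K * (Fj p i X * Fj p i Y)) := by
        ring
      rw [e]
      linarith
  have h0 : ∑ x ∈ X, ∑ y ∈ Y, tau p 0 X Y x y =
      X.card * Y.card * Real.log ((Finset.image₂ (fun a b => a + b) X Y).card) := by
    have e : ∀ x ∈ X, ∀ y ∈ Y, tau p 0 X Y x y =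
        Real.log ((Finset.image₂ (fun a b => a + b) X Y).card) := by
      intro x _ y _
      unfold tau
      rw [cls_zero, cls_zero]
    rw [Finset.sum_congr rfl fun x hx' => Finset.sum_congr rfl fun y hy' => e x hx' y hy']
    simp only [Finset.sum_const, nsmul_eq_mul]
    ring
  have hsumX : ∑ j ∈ Finset.range J, Fj p j X = X.card * Real.log X.card := by
    unfold Fj
    rw [Finset.sum_comm]
    have e : ∀ x ∈ X, ∑ j ∈ Finset.range J, ell p j X x = Real.log X.card := by
      intro x hx'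
      rw [sum_ell, hJ1 J (by rw [hJ]; exact le_max_left _ _) x hx', Finset.card_singleton]
      simp
    rw [Finset.sum_congr rfl e, Finset.sum_const, nsmul_eq_mul]
  have hsumY : ∑ j ∈ Finset.range J, Fj p j Y = Y.card * Real.log Y.card := by
    unfold Fj
    rw [Finset.sum_comm]
    have e : ∀ x ∈ Y, ∑ j ∈ Finset.range J, ell p j Y x = Real.log Y.card := by
      intro x hx'
      rw [sum_ell, hJ2 J (by rw [hJ]; exact le_max_right _ _) x hx', Finset.card_singleton]
      simp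
    rw [Finset.sum_congr rfl e, Finset.sum_const, nsmul_eq_mul]
  have h1 := hind J
  rw [h0, hsumX, hsumY] at h1
  have h2 : 0 ≤ ∑ x ∈ X, ∑ y ∈ Y, tau p J X Y x y :=
    Finset.sum_nonneg fun x _ => Finset.sum_nonneg fun y _ => tau_nonneg _ _ _ _ _ _
  have h3 : (1 - η) * (Y.card * (X.card * Real.log X.card) +
      X.card * (Y.card * Real.log Y.card)) =
      X.card * Y.card * ((1 - η) * (Real.log X.card + Real.log Y.card)) := by ring
  rw [h3] at h1
  have hXY : (0 : ℝ) < X.card * Y.card := mul_pos hXc hYc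
  refine le_of_mul_le_mul_left ?_ hXY
  rw [mul_sub, mul_div_cancel₀ _ hXY.ne']
  linarith

end Pool.Agent.Helper15.GL
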