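import Pool.Agent.Helper15.GL.LineG
import Pool.Agent.Helper15.GL.Sum

set_option autoImplicit false

/-!
# Project GL (MP_120218), Grow: sets which expand every other set, iteration, the rank one case
-/

namespace Pool.Agent.Helper15.GL

open Finset

/-- `A` expands every other set almost maximally -/
def Grows (η : ℝ) (A : Finset ℤ) : Prop :=
  ∀ X : Finset ℤ, X.Nonempty →
    (1 - η) * (Real.log X.card + Real.log A.card) ≤
      Real.log ((Finset.image₂ (fun a b => a + b) X A).card)

/-- `X + kA` -/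
def sk (k : ℕ) (X A : Finset ℤ) : Finset ℤ :=
  (X ×ˢ Fintype.piFinset (fun _ : Fin k => A)).image
    (fun f : ℤ × (Fin k → ℤ) => f.1 + ∑ i, f.2 i)

theorem sk_succ (k : ℕ) (X A : Finset ℤ) :
    Finset.image₂ (fun a b => a + b) (sk k X A) A ⊆ sk (k + 1) X A := by
  intro w hw
  rw [Finset.mem_image₂] at hw
  obtain ⟨z, hz, a, ha, rfl⟩ := hw
  unfold sk at hz
  rw [Finset.mem_image] at hz
  obtain ⟨⟨x, f⟩, hf, rfl⟩ := hz
  rw [Finset.mem_product, Fintype.mem_piFinset] at hf
  unfold sk
  rw [Finset.mem_image]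
  refine ⟨(x, Fin.snoc (α := fun _ => ℤ) f a), ?_, ?_⟩
  · rw [Finset.mem_product, Fintype.mem_piFinset]
    refine ⟨hf.1, ?_⟩
    intro i
    refine Fin.lastCases ?_ (fun i => ?_) i
    · simp only [Fin.snoc_last]
      exact ha
    · simp only [Fin.snoc_castSucc]
      exact hf.2 i
  · simp only [Fin.sum_univ_castSucc, Fin.snoc_castSucc, Fin.snoc_last]
    ring

theorem le_sk (k : ℕ) (X A : Finset ℤ) (hA : A.Nonempty) : X.card ≤ (sk k X A).card := by
  obtain ⟨a, ha⟩ := hA
  unfold sk
  refine Finset.card_le_card_of_injOn (fun x => x + ∑ _i : Fin k, a) ?_ ?_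
  · intro x hx
    refine Finset.mem_coe.2 (Finset.mem_image.2 ⟨(x, fun _ => a), ?_, rfl⟩)
    rw [Finset.mem_product, Fintype.mem_piFinset]
    exact ⟨Finset.mem_coe.1 hx, fun _ => ha⟩
  · intro x _ y _ h
    exact add_right_cancel h

theorem sk_iter (η : ℝ) (hη : 0 ≤ η) (hη1 : η ≤ 1) (A X : Finset ℤ) (hA : A.Nonempty)
    (hX : X.Nonempty) (hG : Grows η A) (k : ℕ) :
    (1 - k * η) * (Real.log X.card + k * Real.log A.card) ≤ Real.log (sk k X A).card := by
  have hA1 : (1 : ℝ) ≤ A.card := by exact_mod_cast hA.card_pos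
  have hX1 : (1 : ℝ) ≤ X.card := by exact_mod_cast hX.card_pos
  have ha : 0 ≤ Real.log A.card := Real.log_nonneg hA1
  have hx : 0 ≤ Real.log X.card := Real.log_nonneg hX1
  induction k with
  | zero =>
    have h1 : (X.card : ℝ) ≤ (sk 0 X A).card := by exact_mod_cast le_sk 0 X A hA
    have h2 := Real.log_le_log (by linarith) h1
    simpa using h2
  | succ k ih =>
    have h1 : (X.card : ℝ) ≤ (sk k X A).card := by exact_mod_cast le_sk k X A hA
    have hne : (sk k X A).Nonempty := by
      rw [← Finset.card_pos]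
      have : (0 : ℝ) < (sk k X A).card := by linarith
      exact_mod_cast this
    have h2 := hG (sk k X A) hne
    have h3 : ((Finset.image₂ (fun a b => a + b) (sk k X A) A).card : ℝ) ≤
        (sk (k + 1) X A).card := by
      exact_mod_cast Finset.card_le_card (sk_succ k X A)
    have h4 : (0 : ℝ) < (Finset.image₂ (fun a b => a + b) (sk k X A) A).card := by
      exact_mod_cast Finset.card_pos.2 (hne.image₂ hA)
    have h5 := Real.log_le_log h4 h3
    refine le_trans ?_ (h2.trans h5)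
    push_cast
    have hk : (0 : ℝ) ≤ k := Nat.cast_nonneg k
    have h6 : (1 - η) * ((1 - k * η) * (Real.log X.card + k * Real.log A.card)) ≤
        (1 - η) * Real.log (sk k X A).card := mul_le_mul_of_nonneg_left ih (by linarith)
    have h7 : 0 ≤ Real.log X.card + k * Real.log A.card := by positivity
    have h8 : (1 - (k + 1) * η) * (Real.log X.card + k * Real.log A.card) ≤
        (1 - η) * (1 - k * η) * (Real.log X.card + k * Real.log A.card) := by
      refine mul_le_mul_of_nonneg_right ?_ h7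
      nlinarith [mul_nonneg hk (mul_nonneg hη hη)]
    have h9 : (1 - (k + 1) * η) * Real.log A.card ≤ (1 - η) * Real.log A.card := by
      refine mul_le_mul_of_nonneg_right ?_ ha
      nlinarith [mul_nonneg hk hη]
    nlinarith

/-- a set which expands has large iterated sumsets -/
theorem sk_large (k : ℕ) (ε b : ℝ) (hε : 0 < ε) : ∃ η : ℝ, 0 < η ∧ η ≤ 1 ∧
    ∀ A X : Finset ℤ, A.Nonempty → X.Nonempty → (X.card : ℝ) ≤ (A.card : ℝ) ^ b →
      Grows η A → (X.card : ℝ) * (A.card : ℝ) ^ ((k : ℝ) - ε) ≤ (sk k X A).card := by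
  have hk : (0 : ℝ) ≤ k := Nat.cast_nonneg k
  have hb0 : 0 ≤ |b| := abs_nonneg b
  have hden : (0 : ℝ) < k * (k + |b|) + ε + 1 := by positivity
  refine ⟨ε / (k * (k + |b|) + ε + 1), by positivity, ?_, ?_⟩
  · rw [div_le_one hden]
    nlinarith [mul_nonneg hk (add_nonneg hk hb0)]
  · intro A X hA hX hXb hG
    have hA1 : (1 : ℝ) ≤ A.card := by exact_mod_cast hA.card_pos
    have hX1 : (1 : ℝ) ≤ X.card := by exact_mod_cast hX.card_pos
    have ha : 0 ≤ Real.log A.card := Real.log_nonneg hA1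
    have hx : 0 ≤ Real.log X.card := Real.log_nonneg hX1
    obtain ⟨η, hη⟩ : ∃ η : ℝ, η = ε / (k * (k + |b|) + ε + 1) := ⟨_, rfl⟩
    rw [← hη] at hG
    have hη0 : 0 ≤ η := by rw [hη]; positivity
    have hη1 : η ≤ 1 := by
      rw [hη, div_le_one hden]
      nlinarith [mul_nonneg hk (add_nonneg hk hb0)]
    have h1 := sk_iter η hη0 hη1 A X hA hX hG k
    have h2 : Real.log X.card ≤ |b| * Real.log A.card := by
      have h3 := Real.log_le_log (by linarith) hXb
      rw [Real.log_rpow (by linarith)] at h3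
      exact h3.trans (mul_le_mul_of_nonneg_right (le_abs_self b) ha)
    have h3 : η * (k * (k + |b|)) ≤ ε := by
      rw [hη, div_mul_eq_mul_div, div_le_iff₀ hden]
      nlinarith [mul_nonneg hk (add_nonneg hk hb0)]
    have h4 : k * η * (Real.log X.card + k * Real.log A.card) ≤ ε * Real.log A.card := by
      have h5 : Real.log X.card + k * Real.log A.card ≤ (k + |b|) * Real.log A.card := by
        nlinarith
      calc k * η * (Real.log X.card + k * Real.log A.card) ≤
            k * η * ((k + |b|) * Real.log A.card) :=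
              mul_le_mul_of_nonneg_left h5 (by positivity)
        _ = (η * (k * (k + |b|))) * Real.log A.card := by ring
        _ ≤ ε * Real.log A.card := mul_le_mul_of_nonneg_right h3 ha
    have h5 : Real.log X.card + ((k : ℝ) - ε) * Real.log A.card ≤ Real.log (sk k X A).card := by
      nlinarith
    have h6 : (0 : ℝ) < (sk k X A).card := by
      have : (X.card : ℝ) ≤ (sk k X A).card := by exact_mod_cast le_sk k X A hA
      linarith
    have h7 : (0 : ℝ) < X.card * (A.card : ℝ) ^ ((k : ℝ) - ε) :=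
      mul_pos (by linarith) (Real.rpow_pos_of_pos (by linarith) _)
    rw [← Real.log_le_log_iff h7 h6, Real.log_mul (by linarith)
      (Real.rpow_pos_of_pos (by linarith) _).ne', Real.log_rpow (by linarith)]
    exact h5

/-- final step, common to both cases -/
theorem grows_final (η0 x a L : ℝ) (hη0 : 0 ≤ η0) (hx : 0 ≤ x) (ha : 0 ≤ a) (b : ℝ)
    (hη1 : η0 ≤ 1) (hb : (1 - η0) * a ≤ b) (hL : (1 - η0) * (x + b) - η0 * x ≤ L) :
    (1 - 4 * η0) * (x + a) ≤ L := by
  have h1 : (1 - η0) * ((1 - η0) * a) ≤ (1 - η0) * b :=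
    mul_le_mul_of_nonneg_left hb (by linarith)
  nlinarith [mul_nonneg hη0 hx, mul_nonneg hη0 ha, mul_nonneg (mul_nonneg hη0 hη0) ha]

/-- **The rank one case.** -/
theorem grow_line (η : ℝ) (hη : 0 < η) (hη1 : η ≤ 1) : ∃ C c N0 : ℝ, 0 < C ∧ 0 < c ∧ c ≤ 1 ∧
    0 < N0 ∧
    ∀ (A : Finset ℤ) (g : ℚ) (Y0 : Finset ℤ), N0 ≤ A.card → g ≠ 0 → g ≠ 1 → g ≠ -1 →
      (∀ a ∈ Y0, a ∈ A ∧ C * Real.log A.card < (co A g a).card) →
      (A.card : ℝ) ^ (1 - c) < Y0.card → Grows η A := by
  classical
  obtain ⟨η0, hη0⟩ : ∃ η0 : ℝ, η0 = η / 4 := ⟨_, rfl⟩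
  have hη0p : 0 < η0 := by rw [hη0]; positivity
  have hη01 : η0 ≤ 1 / 4 := by rw [hη0]; linarith
  obtain ⟨K, hK, hN⟩ := node_exists η0 hη0p
  obtain ⟨K1, hK1⟩ : ∃ K1 : ℝ, K1 = 3 * K / η0 := ⟨_, rfl⟩
  have hK1p : 0 < K1 := by rw [hK1]; positivity
  have hl4 : 0 < Real.log 4 := Real.log_pos (by norm_num)
  refine ⟨K1 + 2, η0 / 2, Real.exp (1 + 2 * Real.log 4 / η0), by positivity, by positivity,
    by linarith, Real.exp_pos _, ?_⟩
  intro A g Y0 hAN hg hg1 hg2 hY0 hmany
  have hA0 : (0 : ℝ) < A.card := lt_of_lt_of_le (Real.exp_pos _) hAN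
  have hlogA : 1 + 2 * Real.log 4 / η0 ≤ Real.log A.card := by
    rw [Real.le_log_iff_exp_le hA0]
    exact hAN
  have hq : 0 ≤ 2 * Real.log 4 / η0 := by positivity
  have hlogA1 : 1 ≤ Real.log A.card := by linarith
  have hlogA2 : 2 * Real.log 4 ≤ η0 * Real.log A.card := by
    have h1 : 2 * Real.log 4 / η0 ≤ Real.log A.card := by linarith
    rw [div_le_iff₀ hη0p] at h1
    linarith
  obtain ⟨a, ha⟩ : ∃ a : ℝ, a = Real.log A.card := ⟨_, rfl⟩
  rw [← ha] at hY0 hlogA1 hlogA2
  obtain ⟨A', hA'⟩ : ∃ A' : Finset ℤ, A' = A.erase 0 := ⟨_, rfl⟩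
  have hA'A : A' ⊆ A := by rw [hA']; exact Finset.erase_subset _ _
  have hA'0 : (0 : ℤ) ∉ A' := by rw [hA']; exact Finset.notMem_erase _ _
  have hpow2 : (2 : ℝ) ≤ (A.card : ℝ) ^ (1 - η0 / 2) := by
    have hl2 : Real.log 2 ≤ 1 / 2 * a := by
      have h1 : Real.log 4 = 2 * Real.log 2 := by
        rw [show (4 : ℝ) = 2 ^ 2 by norm_num, Real.log_pow]
        norm_num
      have hl2p : 0 < Real.log 2 := Real.log_pos (by norm_num)
      nlinarith
    rw [← Real.log_le_log_iff (by norm_num) (Real.rpow_pos_of_pos hA0 _), Real.log_rpow hA0, ← ha]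
    nlinarith
  obtain ⟨n, hn⟩ : ∃ n : ℕ, n = ⌈K1 * a⌉₊ + 1 := ⟨_, rfl⟩
  have hnK : K1 * a ≤ n := by
    rw [hn]
    push_cast
    have := Nat.le_ceil (K1 * a)
    linarith
  have hnle : (n : ℝ) ≤ (K1 + 2) * a := by
    rw [hn]
    push_cast
    have := (Nat.ceil_lt_add_one (a := K1 * a) (by positivity)).le
    nlinarith
  have hn0 : (0 : ℝ) < n := by
    have : 0 < K1 * a := by positivity
    linarith
  obtain ⟨Y, hYd⟩ : ∃ Y : Finset ℤ, Y = A'.filter (fun y => n < (co A' g y).card) := ⟨_, rfl⟩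
  have hYm : ∀ y, y ∈ Y ↔ y ∈ A' ∧ n < (co A' g y).card := by
    intro y
    rw [hYd]
    exact Finset.mem_filter
  have hYA : Y ⊆ A' := fun y hy => ((hYm y).1 hy).1
  have hsub : Y0.erase 0 ⊆ Y := by
    intro y hy
    rw [Finset.mem_erase] at hy
    have h1 := hY0 y hy.2
    rw [hYm]
    refine ⟨by rw [hA', Finset.mem_erase]; exact ⟨hy.1, h1.1⟩, ?_⟩
    have h2 : (n : ℝ) < (co A g y).card := lt_of_le_of_lt hnle h1.2
    have h3 : co A g y ⊆ co A' g y := by
      intro b hb
      obtain ⟨hbA, e, he⟩ := mem_co.1 hb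
      refine mem_co.2 ⟨?_, e, he⟩
      rw [hA', Finset.mem_erase]
      refine ⟨?_, hbA⟩
      rintro rfl
      have h4 : (y : ℚ) ≠ 0 := by exact_mod_cast hy.1
      exact mul_ne_zero h4 (zpow_ne_zero e hg) (by rw [← he]; norm_num)
    have h5 : n < (co A g y).card := by exact_mod_cast h2
    exact h5.trans_le (Finset.card_le_card h3)
  obtain ⟨p, hp, hF⟩ := coset_lines A' hA'0 g hg hg1 hg2 n Y hYm
  have hYbig : (A.card : ℝ) ^ (1 - η0 / 2) ≤ 4 * Y.card := by
    have h1 := Finset.pred_card_le_card_erase (s := Y0) (a := (0 : ℤ))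
    have h2 := Finset.card_le_card hsub
    have h3 : Y0.card ≤ Y.card + 1 := by omega
    have h4 : (Y0.card : ℝ) ≤ Y.card + 1 := by exact_mod_cast h3
    linarith
  have hApow : 0 < (A.card : ℝ) ^ (1 - η0 / 2) := Real.rpow_pos_of_pos hA0 _
  have hYp : (0 : ℝ) < Y.card := by linarith
  have hYne : Y.Nonempty := by
    rw [← Finset.card_pos]
    exact_mod_cast hYp
  have hYle : (Y.card : ℝ) ≤ A.card := by exact_mod_cast Finset.card_le_card (hYA.trans hA'A)
  have hlogY : Real.log Y.card ≤ a := by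
    rw [ha]
    exact Real.log_le_log hYp hYle
  have hF' : ∀ j, n * Fj p j Y ≤ Y.card * (3 * a) := by
    intro j
    refine (hF j).trans (mul_le_mul_of_nonneg_left ?_ hYp.le)
    linarith
  intro X hX
  rw [← ha]
  have hX1 : (1 : ℝ) ≤ X.card := by exact_mod_cast hX.card_pos
  have hx : 0 ≤ Real.log X.card := Real.log_nonneg hX1
  obtain ⟨J, hJ⟩ := sum_ge hN p hp X Y hX hYne
  have hcost : K * (∑ j ∈ Finset.range J, Fj p j X * Fj p j Y) / (X.card * Y.card) ≤
      η0 * Real.log X.card := by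
    rw [div_le_iff₀ (by positivity)]
    have h1 : n * (∑ j ∈ Finset.range J, Fj p j X * Fj p j Y) ≤
        Y.card * (3 * a) * (X.card * Real.log X.card) := by
      calc n * (∑ j ∈ Finset.range J, Fj p j X * Fj p j Y) =
            ∑ j ∈ Finset.range J, Fj p j X * (n * Fj p j Y) := by
              rw [Finset.mul_sum]
              exact Finset.sum_congr rfl fun j _ => by ring
        _ ≤ ∑ j ∈ Finset.range J, Fj p j X * (Y.card * (3 * a)) :=
            Finset.sum_le_sum fun j _ => mul_le_mul_of_nonneg_left (hF' j) (Fj_nonneg p j X)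
        _ = Y.card * (3 * a) * ∑ j ∈ Finset.range J, Fj p j X := by
              rw [← Finset.sum_mul]
              ring
        _ ≤ Y.card * (3 * a) * (X.card * Real.log X.card) :=
              mul_le_mul_of_nonneg_left (sum_Fj_le p J X) (by positivity)
    have h2 : n * (K * (∑ j ∈ Finset.range J, Fj p j X * Fj p j Y)) ≤
        n * (η0 * Real.log X.card * (X.card * Y.card)) := by
      calc n * (K * (∑ j ∈ Finset.range J, Fj p j X * Fj p j Y)) =
            K * (n * (∑ j ∈ Finset.range J, Fj p j X * Fj p j Y)) := by ring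
        _ ≤ K * (Y.card * (3 * a) * (X.card * Real.log X.card)) :=
              mul_le_mul_of_nonneg_left h1 hK.le
        _ = (η0 * (K1 * a)) * (Y.card * (X.card * Real.log X.card)) := by
              rw [hK1]
              field_simp
        _ ≤ (η0 * n) * (Y.card * (X.card * Real.log X.card)) := by
              refine mul_le_mul_of_nonneg_right ?_ (by positivity)
              exact mul_le_mul_of_nonneg_left hnK hη0p.le
        _ = _ := by ring
    exact le_of_mul_le_mul_left h2 hn0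
  have hsub2 : Finset.image₂ (fun a b => a + b) X Y ⊆ Finset.image₂ (fun a b => a + b) X A :=
    Finset.image₂_subset_left (hYA.trans hA'A)
  have hpos : (0 : ℝ) < (Finset.image₂ (fun a b => a + b) X Y).card := by
    exact_mod_cast Finset.card_pos.2 (hX.image₂ hYne)
  have hmono : Real.log (Finset.image₂ (fun a b => a + b) X Y).card ≤
      Real.log (Finset.image₂ (fun a b => a + b) X A).card :=
    Real.log_le_log hpos (by exact_mod_cast Finset.card_le_card hsub2)
  have ha' : (1 - η0) * a ≤ Real.log Y.card := by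
    have h1 := Real.log_le_log hApow hYbig
    rw [Real.log_mul (by norm_num) hYp.ne', Real.log_rpow hA0, ← ha] at h1
    nlinarith
  have h4 : η = 4 * η0 := by rw [hη0]; ring
  rw [h4]
  refine grows_final η0 _ _ _ hη0p.le hx (by linarith) _ (by linarith) ha' ?_
  linarith

end Pool.Agent.Helper15.GL
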