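import Pool.Agent.Helper15.GL.Gibbs

set_option autoImplicit false

/-!
# Project GL (MP_120218), Rank: many multiplicative translates, one prime, one good translate
-/

namespace Pool.Agent.Helper15.GL

open Finset

/-- a big set of integers takes many valuations at one of the separating primes -/
theorem exists_many_values (q : Finset ℕ) (r : ℕ) (hqr : q.card ≤ r) (S : Finset ℕ)
    (hinj : ∀ s ∈ S, ∀ s' ∈ S, (∀ p ∈ q, padicValNat p s = padicValNat p s') → s = s')
    (n : ℕ) (hn : 1 ≤ n) (hS : n ^ r < S.card) :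
    ∃ p ∈ q, n ≤ (S.image (fun s => padicValNat p s)).card := by
  classical
  by_contra hcon
  push Not at hcon
  have h1 : S.card ≤ (Fintype.piFinset (fun p : q => S.image (fun s => padicValNat p s))).card := by
    refine Finset.card_le_card_of_injOn (fun s => fun p : q => padicValNat p s) ?_ ?_
    · intro s hs
      refine Finset.mem_coe.2 (Fintype.mem_piFinset.2 fun p => ?_)
      exact Finset.mem_image_of_mem _ (Finset.mem_coe.1 hs)
    · intro s hs s' hs' h
      refine hinj s (Finset.mem_coe.1 hs) s' (Finset.mem_coe.1 hs') fun p hp => ?_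
      exact congrFun h ⟨p, hp⟩
  rw [Fintype.card_piFinset] at h1
  have h2 : ∏ p : q, (S.image (fun s => padicValNat p s)).card ≤ ∏ _p : q, n :=
    Finset.prod_le_prod' fun p _ => (hcon p p.2).le
  rw [Finset.prod_const, Finset.card_univ, Fintype.card_coe] at h2
  have h3 : n ^ q.card ≤ n ^ r := Nat.pow_le_pow_right hn hqr
  omega

/-- sections: `n` elements with distinct values -/
theorem exists_section (S : Finset ℕ) (v : ℕ → ℕ) (n : ℕ) (h : n ≤ (S.image v).card) :
    ∃ T : Finset ℕ, T ⊆ S ∧ T.card = n ∧ Set.InjOn v T := by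
  classical
  obtain ⟨U, hU, hUn⟩ := Finset.exists_subset_card_eq h
  have hsurj : Set.SurjOn v (S : Set ℕ) (U : Set ℕ) := by
    intro u hu
    obtain ⟨s, hs, hsu⟩ := Finset.mem_image.1 (hU (Finset.mem_coe.1 hu))
    exact ⟨s, Finset.mem_coe.2 hs, hsu⟩
  obtain ⟨T, hTS, hT, hTU⟩ := Finset.exists_subset_injOn_image_eq_of_surjOn (S : Set ℕ) U hsurj
  refine ⟨T, fun t ht => Finset.mem_coe.1 (hTS (Finset.mem_coe.2 ht)), ?_, hT⟩
  rw [← hUn, ← hTU, Finset.card_image_of_injOn hT]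

theorem rank_core (q : Finset ℕ) (hq : ∀ p ∈ q, p.Prime) (r : ℕ) (hqr : q.card ≤ r)
    (A : Finset ℤ) (P : Finset ℕ) (hP : ∀ s ∈ P, s ≠ 0)
    (hinj : ∀ s ∈ P, ∀ s' ∈ P, (∀ p ∈ q, padicValNat p s = padicValNat p s') → s = s')
    (n : ℕ) (hn : 1 ≤ n) (Z : Finset ℤ) (hZne : Z.Nonempty)
    (hrich : ∀ z ∈ Z, n ^ r < (P.filter (fun s : ℕ => ∃ a ∈ A, a * (s : ℤ) = z)).card) :
    ∃ (p M : ℕ) (B : ℕ → Finset ℤ), 2 ≤ p ∧ (∀ s ∈ P, B s ⊆ A) ∧
      ∑ s ∈ P, (B s).card = n * M ∧ Z.card ≤ r * M ∧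
      n ^ r ≤ P.card ∧ M ≤ A.card * P.card ∧
      ∀ j, ∑ s ∈ P, Fj p j (B s) ≤ M * Real.log M := by
  classical
  obtain ⟨S, hS⟩ : ∃ S : ℤ → Finset ℕ,
      S = fun z => P.filter (fun s : ℕ => ∃ a ∈ A, a * (s : ℤ) = z) := ⟨_, rfl⟩
  have memS : ∀ z s, s ∈ S z ↔ s ∈ P ∧ ∃ a ∈ A, a * (s : ℤ) = z := by
    intro z s
    rw [hS]
    exact Finset.mem_filter
  have hSP : ∀ z, S z ⊆ P := fun z s hs => ((memS z s).1 hs).1
  have hrichS : ∀ z ∈ Z, n ^ r < (S z).card := by
    intro z hz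
    rw [hS]
    exact hrich z hz
  obtain ⟨Zp, hZp⟩ : ∃ Zp : ℕ → Finset ℤ, Zp = fun p => Z.filter
      (fun z => n ≤ ((S z).image (fun s => padicValNat p s)).card) := ⟨_, rfl⟩
  have hex : ∀ z ∈ Z, ∃ p ∈ q, z ∈ Zp p := by
    intro z hz
    obtain ⟨p, hp, hnp⟩ := exists_many_values q r hqr (S z)
      (fun s hs s' hs' h => hinj s (hSP z hs) s' (hSP z hs') h) n hn (hrichS z hz)
    refine ⟨p, hp, ?_⟩
    rw [hZp]
    exact Finset.mem_filter.2 ⟨hz, hnp⟩
  have hsum : Z.card ≤ ∑ p ∈ q, (Zp p).card := by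
    calc Z.card ≤ (q.biUnion Zp).card := by
          refine Finset.card_le_card fun z hz => ?_
          obtain ⟨p, hp, hzp⟩ := hex z hz
          exact Finset.mem_biUnion.2 ⟨p, hp, hzp⟩
      _ ≤ ∑ p ∈ q, (Zp p).card := Finset.card_biUnion_le
  obtain ⟨p, hp, hpM⟩ : ∃ p ∈ q, Z.card ≤ r * (Zp p).card := by
    obtain ⟨z0, hz0⟩ := hZne
    obtain ⟨p0, hp0, _⟩ := hex z0 hz0
    by_contra hcon
    push Not at hcon
    have h1 : ∑ p ∈ q, r * (Zp p).card < ∑ _p ∈ q, Z.card :=
      Finset.sum_lt_sum_of_nonempty ⟨p0, hp0⟩ fun p hp => hcon p hp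
    rw [Finset.sum_const, smul_eq_mul, ← Finset.mul_sum] at h1
    have h2 : q.card * Z.card ≤ r * ∑ p ∈ q, (Zp p).card := Nat.mul_le_mul hqr hsum
    omega
  obtain ⟨Z', hZ'⟩ : ∃ Z' : Finset ℤ, Z' = Zp p := ⟨_, rfl⟩
  rw [← hZ'] at hpM
  have hpp := hq p hp
  have := Fact.mk hpp
  -- the sections
  have hsec : ∀ z : ℤ, ∃ T : Finset ℕ, z ∈ Z' → (T ⊆ S z ∧ T.card = n ∧
      Set.InjOn (fun s => padicValNat p s) T) := by
    intro z
    by_cases hz : z ∈ Z'
    · have hz' := hz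
      rw [hZ', hZp, Finset.mem_filter] at hz'
      obtain ⟨T, hT⟩ := exists_section (S z) (fun s => padicValNat p s) n hz'.2
      exact ⟨T, fun _ => hT⟩
    · exact ⟨∅, fun h => absurd h hz⟩
  choose T hT using hsec
  obtain ⟨B, hB⟩ : ∃ B : ℕ → Finset ℤ, B = fun (s : ℕ) =>
      A.filter (fun a => a * (s : ℤ) ∈ Z' ∧ s ∈ T (a * (s : ℤ))) := ⟨_, rfl⟩
  have memB : ∀ s a, a ∈ B s ↔ a ∈ A ∧ a * (s : ℤ) ∈ Z' ∧ s ∈ T (a * (s : ℤ)) := by
    intro s a
    rw [hB]
    exact Finset.mem_filter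
  obtain ⟨Y, hY⟩ : ∃ Y : ℕ → Finset ℤ, Y = fun (s : ℕ) => Z'.filter (fun z => s ∈ T z) :=
    ⟨_, rfl⟩
  have memY : ∀ s z, z ∈ Y s ↔ z ∈ Z' ∧ s ∈ T z := by
    intro s z
    rw [hY]
    exact Finset.mem_filter
  have hYB : ∀ s ∈ P, (B s).image (fun a => a * (s : ℤ)) = Y s := by
    intro s _
    ext z
    rw [Finset.mem_image, memY]
    constructor
    · rintro ⟨a, ha, rfl⟩
      exact ((memB s a).1 ha).2
    · rintro ⟨hz, hs⟩
      obtain ⟨a, ha, haz⟩ := ((memS z s).1 ((hT z hz).1 hs)).2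
      subst haz
      exact ⟨a, (memB s a).2 ⟨ha, hz, hs⟩, rfl⟩
  have hinjs : ∀ s ∈ P, Set.InjOn (fun a : ℤ => a * (s : ℤ)) (B s) := by
    intro s hs a _ a' _ h
    have h4 : (s : ℤ) ≠ 0 := by exact_mod_cast hP s hs
    exact mul_right_cancel₀ h4 h
  have hcardB : ∀ s ∈ P, (B s).card = (Y s).card := by
    intro s hs
    rw [← hYB s hs, Finset.card_image_of_injOn (hinjs s hs)]
  have hnP : n ^ r ≤ P.card := by
    obtain ⟨z, hz⟩ := hZne
    exact (hrichS z hz).le.trans (Finset.card_le_card (hSP z))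
  refine ⟨p, Z'.card, B, hpp.two_le, ?_, ?_, hpM, hnP, ?_, ?_⟩
  · intro s _ a ha
    exact ((memB s a).1 ha).1
  · rw [Finset.sum_congr rfl hcardB]
    have h1 : ∑ s ∈ P, (Y s).card = ∑ z ∈ Z', (T z).card := by
      have h2 : ∀ s ∈ P, (Y s).card = ∑ z ∈ Z', if s ∈ T z then 1 else 0 := by
        intro s _
        rw [hY]
        exact Finset.card_filter _ _
      have h3 : ∀ z ∈ Z', (T z).card = ∑ s ∈ P, if s ∈ T z then 1 else 0 := by
        intro z hz
        have h4 : P.filter (fun s => s ∈ T z) = T z := by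
          ext s
          rw [Finset.mem_filter]
          exact ⟨fun h => h.2, fun h => ⟨hSP z ((hT z hz).1 h), h⟩⟩
        rw [← Finset.card_filter, h4]
      rw [Finset.sum_congr rfl h2, Finset.sum_congr rfl h3, Finset.sum_comm]
    rw [h1]
    have h5 : ∀ z ∈ Z', (T z).card = n := fun z hz => (hT z hz).2.1
    rw [Finset.sum_congr rfl h5, Finset.sum_const, smul_eq_mul, mul_comm]
  · have h1 : Z' ⊆ Finset.image₂ (fun (a : ℤ) (s : ℕ) => a * (s : ℤ)) A P := by
      intro z hz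
      rw [hZ', hZp, Finset.mem_filter] at hz
      obtain ⟨s, hs⟩ := Finset.card_pos.1 (lt_of_le_of_lt (Nat.zero_le _) (hrichS z hz.1))
      obtain ⟨hsP, a, ha, haz⟩ := (memS z s).1 hs
      exact Finset.mem_image₂.2 ⟨a, ha, s, hsP, haz⟩
    exact (Finset.card_le_card h1).trans (Finset.card_image₂_le _ _ _)
  · intro j
    -- digit classes of `B s` and of `Y s`
    have hcl : ∀ s ∈ P, ∀ a ∈ B s, ∀ i : ℕ, (cls p i (B s) a).card =
        (cls p (i + padicValNat p s) (Y s) (a * (s : ℤ))).card := by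
      intro s hs a _ i
      rw [← hYB s hs]
      have h1 : cls p (i + padicValNat p s) ((B s).image (fun a => a * (s : ℤ))) (a * (s : ℤ)) =
          (cls p i (B s) a).image (fun a => a * (s : ℤ)) := by
        have hdiv : ∀ c : ℤ, (p : ℤ) ^ (i + padicValNat p s) ∣ c * (s : ℤ) ↔ (p : ℤ) ^ i ∣ c := by
          intro c
          have h4 : (s : ℤ) ≠ 0 := by exact_mod_cast hP s hs
          rcases eq_or_ne c 0 with rfl | hc
          · simp
          · rw [padicValInt_dvd_iff, padicValInt_dvd_iff, padicValInt.mul hc h4,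
              padicValInt.of_nat]
            simp only [mul_eq_zero, hc, h4, or_self, false_or]
            omega
        ext z
        rw [mem_cls, Finset.mem_image, Finset.mem_image]
        constructor
        · rintro ⟨⟨c, hc, rfl⟩, hd⟩
          refine ⟨c, ?_, rfl⟩
          rw [mem_cls]
          refine ⟨hc, (hdiv (c - a)).1 ?_⟩
          rw [sub_mul]
          exact hd
        · rintro ⟨c, hc, rfl⟩
          rw [mem_cls] at hc
          refine ⟨⟨c, hc.1, rfl⟩, ?_⟩
          have := (hdiv (c - a)).2 hc.2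
          rwa [sub_mul] at this
      rw [h1, Finset.card_image_of_injOn]
      intro c hc c' hc' h
      exact hinjs s hs (Finset.mem_coe.2 (mem_cls.1 (Finset.mem_coe.1 hc)).1)
        (Finset.mem_coe.2 (mem_cls.1 (Finset.mem_coe.1 hc')).1) h
    have hF : ∀ s ∈ P, Fj p j (B s) ≤ ∑ z ∈ Y s, ell p (j + padicValNat p s) Z' z := by
      intro s hs
      have h1 : Fj p j (B s) = ∑ z ∈ Y s, ell p (j + padicValNat p s) (Y s) z := by
        rw [← hYB s hs, Finset.sum_image (hinjs s hs), hYB s hs]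
        unfold Fj
        refine Finset.sum_congr rfl fun a ha => ?_
        unfold ell
        rw [hcl s hs a ha j, hcl s hs a ha (j + 1)]
        have h2 : j + 1 + padicValNat p s = j + padicValNat p s + 1 := by ring
        rw [h2]
      rw [h1]
      exact ell_mono p _ (Y s) Z' (fun z hz => ((memY s z).1 hz).1)
    refine (Finset.sum_le_sum hF).trans ?_
    have h1 : ∑ s ∈ P, ∑ z ∈ Y s, ell p (j + padicValNat p s) Z' z =
        ∑ z ∈ Z', ∑ s ∈ T z, ell p (j + padicValNat p s) Z' z := by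
      have h2 : ∀ s ∈ P, ∑ z ∈ Y s, ell p (j + padicValNat p s) Z' z =
          ∑ z ∈ Z', if s ∈ T z then ell p (j + padicValNat p s) Z' z else 0 := by
        intro s _
        rw [hY, Finset.sum_filter]
      have h3 : ∀ z ∈ Z', ∑ s ∈ T z, ell p (j + padicValNat p s) Z' z =
          ∑ s ∈ P, if s ∈ T z then ell p (j + padicValNat p s) Z' z else 0 := by
        intro z hz
        have h4 : P.filter (fun s => s ∈ T z) = T z := by
          ext s
          rw [Finset.mem_filter]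
          exact ⟨fun h => h.2, fun h => ⟨hSP z ((hT z hz).1 h), h⟩⟩
        rw [← Finset.sum_filter, h4]
      rw [Finset.sum_congr rfl h2, Finset.sum_congr rfl h3, Finset.sum_comm]
    rw [h1]
    have h5 : ∀ z ∈ Z', ∑ s ∈ T z, ell p (j + padicValNat p s) Z' z ≤ Real.log Z'.card := by
      intro z hz
      have h6 : ∑ s ∈ T z, ell p (j + padicValNat p s) Z' z =
          ∑ t ∈ (T z).image (fun s => j + padicValNat p s), ell p t Z' z := by
        rw [Finset.sum_image]
        intro s hs s' hs' h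
        refine (hT z hz).2.2 hs hs' ?_
        have h' : j + padicValNat p s = j + padicValNat p s' := h
        show padicValNat p s = padicValNat p s'
        omega
      rw [h6]
      exact sum_ell_le p Z' z hz _
    refine (Finset.sum_le_sum h5).trans (le_of_eq ?_)
    rw [Finset.sum_const, nsmul_eq_mul]

end Pool.Agent.Helper15.GL
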