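import Mathlib

set_option autoImplicit false

/-!
# Project GL (MP_120218), Sep: `r` primes separate a group of positive rationals of rank `r`
-/

namespace Pool.Agent.Helper15.GL

open Finset

theorem eq_one_of_val (x : ℚ) (hx : 0 < x) (h : ∀ p : ℕ, p.Prime → padicValRat p x = 0) :
    x = 1 := by
  have hnum : 0 < x.num := Rat.num_pos.2 hx
  have hval : ∀ p : ℕ, p.Prime → padicValInt p x.num = padicValNat p x.den := by
    intro p hp
    have := h p hp
    rw [padicValRat_def] at this
    omega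
  have hn1 : x.num.natAbs = 1 := by
    by_contra hne
    obtain ⟨p, hp, hpd⟩ := Nat.exists_prime_and_dvd hne
    have := Fact.mk hp
    have h1 : 1 ≤ padicValNat p x.num.natAbs :=
      one_le_padicValNat_of_dvd (by omega) hpd
    have h2 : padicValNat p x.num.natAbs = padicValNat p x.den := hval p hp
    rw [h2] at h1
    exact Nat.not_coprime_of_dvd_of_dvd hp.one_lt hpd (dvd_of_one_le_padicValNat h1) x.reduced
  have hd1 : x.den = 1 := by
    by_contra hne
    obtain ⟨p, hp, hpd⟩ := Nat.exists_prime_and_dvd hne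
    have := Fact.mk hp
    have h1 : 1 ≤ padicValNat p x.den := one_le_padicValNat_of_dvd x.den_ne_zero hpd
    have h2 : padicValNat p x.num.natAbs = padicValNat p x.den := hval p hp
    rw [← h2, hn1, padicValNat_one_right] at h1
    omega
  have h3 : x.num = 1 := by omega
  rw [← Rat.num_div_den x, h3, hd1]
  norm_num

theorem val_prod {r : ℕ} (p : ℕ) (hp : p.Prime) (g : Fin r → ℚ) (hg : ∀ i, 0 < g i)
    (e : Fin r → ℤ) :
    padicValRat p (∏ i, g i ^ e i) = ∑ i, e i * padicValRat p (g i) := by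
  have := Fact.mk hp
  have key : ∀ s : Finset (Fin r), padicValRat p (∏ i ∈ s, g i ^ e i) =
      ∑ i ∈ s, e i * padicValRat p (g i) := by
    classical
    intro s
    induction s using Finset.induction_on with
    | empty => simp
    | insert a s ha ih =>
      rw [Finset.prod_insert ha, Finset.sum_insert ha, padicValRat.mul, ih, padicValRat.zpow]
      · exact zpow_ne_zero _ (hg a).ne'
      · exact Finset.prod_ne_zero_iff.2 fun i _ => zpow_ne_zero _ (hg i).ne'
  exact key Finset.univ

theorem exists_separating (r : ℕ) (g : Fin r → ℚ) (hg : ∀ i, 0 < g i) :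
    ∃ q : Finset ℕ, (∀ p ∈ q, p.Prime) ∧ q.card ≤ r ∧ ∀ e e' : Fin r → ℤ,
      (∀ p ∈ q, padicValRat p (∏ i, g i ^ e i) = padicValRat p (∏ i, g i ^ e' i)) →
      ∏ i, g i ^ e i = ∏ i, g i ^ e' i := by
  classical
  obtain ⟨v, hv⟩ : ∃ v : Nat.Primes → (Fin r → ℚ),
      v = fun (p : Nat.Primes) i => ((padicValRat (p : ℕ) (g i) : ℤ) : ℚ) := ⟨_, rfl⟩
  obtain ⟨κ, a, ha, hspan, hli⟩ := exists_linearIndependent' ℚ v
  have : Finite κ := hli.finite_of_isNoetherian
  have := Fintype.ofFinite κ
  refine ⟨Finset.univ.image (fun k : κ => ((a k : Nat.Primes) : ℕ)), ?_, ?_, ?_⟩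
  · intro p hp
    obtain ⟨k, _, rfl⟩ := Finset.mem_image.1 hp
    exact (a k).2
  · refine Finset.card_image_le.trans ?_
    rw [Finset.card_univ]
    have := hli.fintype_card_le_finrank
    rwa [Module.finrank_fin_fun] at this
  · intro e e' hee
    obtain ⟨φ, hφ⟩ : ∃ φ : (Fin r → ℚ) →ₗ[ℚ] ℚ, ∀ x, φ x = ∑ i, ((e i - e' i : ℤ) : ℚ) * x i :=
      ⟨∑ i, ((e i - e' i : ℤ) : ℚ) • LinearMap.proj i, fun x => by simp⟩
    have hφv : ∀ p : Nat.Primes, φ (v p) =
        (((∑ i, e i * padicValRat (p : ℕ) (g i)) - ∑ i, e' i * padicValRat (p : ℕ) (g i) : ℤ) :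
          ℚ) := by
      intro p
      rw [hφ, hv]
      push_cast
      rw [← Finset.sum_sub_distrib]
      exact Finset.sum_congr rfl fun i _ => by ring
    have h0 : ∀ k : κ, φ (v (a k)) = 0 := by
      intro k
      have h1 := hee ((a k : Nat.Primes) : ℕ) (Finset.mem_image_of_mem _ (Finset.mem_univ k))
      rw [val_prod _ (a k).2 g hg, val_prod _ (a k).2 g hg] at h1
      rw [hφv, h1, sub_self, Int.cast_zero]
    have hker : Submodule.span ℚ (Set.range v) ≤ LinearMap.ker φ := by
      rw [← hspan, Submodule.span_le]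
      rintro x ⟨k, rfl⟩
      exact h0 k
    have hall : ∀ p : Nat.Primes, φ (v p) = 0 := fun p =>
      hker (Submodule.subset_span ⟨p, rfl⟩)
    have hpos : ∀ d : Fin r → ℤ, 0 < ∏ i, g i ^ d i := fun d =>
      Finset.prod_pos fun i _ => zpow_pos (hg i) _
    have h2 : (∏ i, g i ^ e i) / ∏ i, g i ^ e' i = 1 := by
      refine eq_one_of_val _ (div_pos (hpos e) (hpos e')) fun p hp => ?_
      have := Fact.mk hp
      rw [padicValRat.div (hpos e).ne' (hpos e').ne', val_prod p hp g hg, val_prod p hp g hg]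
      have h3 := hall ⟨p, hp⟩
      rw [hφv] at h3
      exact_mod_cast h3
    exact (div_eq_one_iff_eq (hpos e').ne').1 h2

end Pool.Agent.Helper15.GL
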