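import Pool.Agent.Helper15.GL.Grow
import Pool.Agent.Helper15.GL.Rank
import Pool.Agent.Helper15.GL.Sep

set_option autoImplicit false

/-!
# Project GL (MP_120218), GrowR: the case of a multiplicative group of rank `r`
-/

namespace Pool.Agent.Helper15.GL

open Finset

/-- the choice of a good translate -/
theorem choose_good {P : Finset ℕ} (w cost : ℕ → ℝ) (n M R : ℝ)
    (hn : 0 < n) (hM : 0 < M) (hP : P.Nonempty) (hwt : ∑ s ∈ P, w s = n * M)
    (hcost0 : ∀ s ∈ P, 0 ≤ cost s) (hcost : ∑ s ∈ P, cost s ≤ M * R) :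
    ∃ s ∈ P, n * M ≤ 2 * P.card * w s ∧ n * cost s ≤ 2 * R * w s := by
  classical
  have hPc : (0 : ℝ) < P.card := by exact_mod_cast hP.card_pos
  by_contra hcon
  push Not at hcon
  obtain ⟨G, hG⟩ : ∃ G : Finset ℕ, G = P.filter (fun s => n * M ≤ 2 * P.card * w s) := ⟨_, rfl⟩
  have hbad : ∑ s ∈ P.filter (fun s => ¬ n * M ≤ 2 * P.card * w s), w s ≤ n * M / 2 := by
    calc ∑ s ∈ P.filter (fun s => ¬ n * M ≤ 2 * P.card * w s), w s ≤
        ∑ s ∈ P.filter (fun s => ¬ n * M ≤ 2 * P.card * w s), n * M / (2 * P.card) := by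
          refine Finset.sum_le_sum fun s hs => ?_
          have h1 := not_le.1 (Finset.mem_filter.1 hs).2
          rw [le_div_iff₀ (by positivity)]
          linarith
      _ = (P.filter (fun s => ¬ n * M ≤ 2 * P.card * w s)).card * (n * M / (2 * P.card)) := by
          rw [Finset.sum_const, nsmul_eq_mul]
      _ ≤ P.card * (n * M / (2 * P.card)) := by
          refine mul_le_mul_of_nonneg_right ?_ (by positivity)
          exact_mod_cast Finset.card_filter_le _ _
      _ = n * M / 2 := by field_simp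
  have hgood : n * M / 2 ≤ ∑ s ∈ G, w s := by
    have h1 := Finset.sum_filter_add_sum_filter_not P (fun s => n * M ≤ 2 * P.card * w s) w
    rw [hwt, ← hG] at h1
    linarith
  have hGne : G.Nonempty := by
    rw [Finset.nonempty_iff_ne_empty]
    intro h0
    rw [h0, Finset.sum_empty] at hgood
    have : 0 < n * M := by positivity
    linarith
  have h1 : ∑ s ∈ G, 2 * R * w s < ∑ s ∈ G, n * cost s := by
    refine Finset.sum_lt_sum_of_nonempty hGne fun s hs => ?_
    rw [hG, Finset.mem_filter] at hs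
    exact hcon s hs.1 hs.2
  have h2 : ∑ s ∈ G, n * cost s ≤ n * (M * R) := by
    rw [← Finset.mul_sum]
    refine mul_le_mul_of_nonneg_left ?_ hn.le
    refine le_trans ?_ hcost
    refine Finset.sum_le_sum_of_subset_of_nonneg (by rw [hG]; exact Finset.filter_subset _ _)
      fun s hs _ => hcost0 s hs
  have hR : 0 ≤ R := by
    have h3 : 0 ≤ M * R := (Finset.sum_nonneg hcost0).trans hcost
    by_contra hneg
    have := mul_neg_of_pos_of_neg hM (not_le.1 hneg)
    linarith
  have h3 : 2 * R * (n * M / 2) ≤ ∑ s ∈ G, 2 * R * w s := by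
    rw [← Finset.mul_sum]
    exact mul_le_mul_of_nonneg_left hgood (by positivity)
  nlinarith

/-- one step for all `X` -/
theorem rank_step {η K : ℝ} (hK : 0 < K) (hN : NodeE η K) (q : Finset ℕ)
    (hq : ∀ p ∈ q, p.Prime) (r : ℕ) (hqr : q.card ≤ r)
    (A : Finset ℤ) (hA : A.Nonempty) (P : Finset ℕ) (hPne : P.Nonempty) (hP : ∀ s ∈ P, s ≠ 0)
    (hinj : ∀ s ∈ P, ∀ s' ∈ P, (∀ p ∈ q, padicValNat p s = padicValNat p s') → s = s')
    (n : ℕ) (hn : 1 ≤ n) (Z : Finset ℤ) (hZne : Z.Nonempty)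
    (hrich : ∀ z ∈ Z, n ^ r < (P.filter (fun s : ℕ => ∃ a ∈ A, a * (s : ℤ) = z)).card)
    (X : Finset ℤ) (hX : X.Nonempty) :
    ∃ B : Finset ℤ, B ⊆ A ∧ B.Nonempty ∧ n ^ r ≤ P.card ∧
      (n * Z.card : ℝ) ≤ 2 * r * (P.card * B.card) ∧
      (1 - η) * (Real.log X.card + Real.log B.card) -
        2 * K * (Real.log A.card + Real.log P.card) * Real.log X.card / n ≤
      Real.log ((Finset.image₂ (fun a b => a + b) X B).card) := by
  classical
  obtain ⟨p, M, B, hp, hBA, hBs, hAM, hnP, hMle, hF⟩ :=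
    rank_core q hq r hqr A P hP hinj n hn Z hZne hrich
  have hAc : (1 : ℝ) ≤ A.card := by exact_mod_cast hA.card_pos
  have hX1 : (1 : ℝ) ≤ X.card := by exact_mod_cast hX.card_pos
  have hPc : (1 : ℝ) ≤ P.card := by exact_mod_cast hPne.card_pos
  have hx : 0 ≤ Real.log X.card := Real.log_nonneg hX1
  have hM0 : 0 < M := by
    rcases Nat.eq_zero_or_pos M with h | h
    · rw [h, mul_zero] at hAM
      have := hZne.card_pos
      omega
    · exact h
  have hn0 : (0 : ℝ) < n := by exact_mod_cast hn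
  have hMR : (0 : ℝ) < M := by exact_mod_cast hM0
  -- a common number of digits
  have hJ : ∀ s : ℕ, ∃ J : ℕ, (B s).Nonempty →
      (1 - η) * (Real.log X.card + Real.log (B s).card) -
      K * (∑ j ∈ Finset.range J, Fj p j X * Fj p j (B s)) / (X.card * (B s).card) ≤
      Real.log ((Finset.image₂ (fun a b => a + b) X (B s)).card) := by
    intro s
    by_cases h : (B s).Nonempty
    · obtain ⟨J, hJ⟩ := sum_ge hN p hp X (B s) hX h
      exact ⟨J, fun _ => hJ⟩
    · exact ⟨0, fun h' => absurd h' h⟩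
  choose J hJ using hJ
  obtain ⟨J1, hJ1⟩ : ∃ J1 : ℕ, J1 = P.sup J := ⟨_, rfl⟩
  obtain ⟨cost, hcost⟩ : ∃ cost : ℕ → ℝ, cost = fun s =>
      ∑ j ∈ Finset.range J1, Fj p j X * Fj p j (B s) := ⟨_, rfl⟩
  have hlogM : Real.log M ≤ Real.log A.card + Real.log P.card := by
    rw [← Real.log_mul (by linarith) (by linarith)]
    exact Real.log_le_log hMR (by exact_mod_cast hMle)
  have hlogM0 : 0 ≤ Real.log M := Real.log_nonneg (by exact_mod_cast hM0)
  have hcs : ∑ s ∈ P, cost s ≤ M * (Real.log M * (X.card * Real.log X.card)) := by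
    rw [hcost, Finset.sum_comm]
    calc ∑ j ∈ Finset.range J1, ∑ s ∈ P, Fj p j X * Fj p j (B s) =
          ∑ j ∈ Finset.range J1, Fj p j X * ∑ s ∈ P, Fj p j (B s) :=
            Finset.sum_congr rfl fun j _ => by rw [Finset.mul_sum]
      _ ≤ ∑ j ∈ Finset.range J1, Fj p j X * (M * Real.log M) :=
            Finset.sum_le_sum fun j _ => mul_le_mul_of_nonneg_left (hF j) (Fj_nonneg p j X)
      _ = (∑ j ∈ Finset.range J1, Fj p j X) * (M * Real.log M) := by rw [Finset.sum_mul]
      _ ≤ (X.card * Real.log X.card) * (M * Real.log M) :=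
            mul_le_mul_of_nonneg_right (sum_Fj_le p J1 X) (by positivity)
      _ = _ := by ring
  have hc0 : ∀ s ∈ P, 0 ≤ cost s := by
    intro s _
    rw [hcost]
    exact Finset.sum_nonneg fun j _ => mul_nonneg (Fj_nonneg p j X) (Fj_nonneg p j (B s))
  obtain ⟨s, hs, hs1, hs2⟩ := choose_good (fun s => ((B s).card : ℝ)) cost n M (Real.log M * (X.card * Real.log X.card)) hn0 hMR hPne
    (by exact_mod_cast hBs) hc0 hcs
  have hs1' : (n : ℝ) * M ≤ 2 * P.card * (B s).card := hs1
  have hs2' : (n : ℝ) * cost s ≤ 2 * (Real.log M * (X.card * Real.log X.card)) *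
    (B s).card := hs2
  have hBpos : (0 : ℝ) < (B s).card := by
    by_contra hneg
    have h0 : ((B s).card : ℝ) = 0 := le_antisymm (not_lt.1 hneg) (Nat.cast_nonneg _)
    rw [h0, mul_zero] at hs1'
    have : (0 : ℝ) < n * M := by positivity
    linarith
  have hBne : (B s).Nonempty := by
    rw [← Finset.card_pos]
    exact_mod_cast hBpos
  refine ⟨B s, hBA s hs, hBne, hnP, ?_, ?_⟩
  · have h1 : (Z.card : ℝ) ≤ r * M := by exact_mod_cast hAM
    have hr0 : (0 : ℝ) ≤ r := Nat.cast_nonneg r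
    calc (n * Z.card : ℝ) ≤ n * (r * M) := mul_le_mul_of_nonneg_left h1 hn0.le
      _ = r * (n * M) := by ring
      _ ≤ r * (2 * P.card * (B s).card) := mul_le_mul_of_nonneg_left hs1' hr0
      _ = _ := by ring
  · have h1 := hJ s hBne
    have h2 : ∑ j ∈ Finset.range (J s), Fj p j X * Fj p j (B s) ≤ cost s := by
      rw [hcost]
      refine Finset.sum_le_sum_of_subset_of_nonneg ?_
        fun j _ _ => mul_nonneg (Fj_nonneg p j X) (Fj_nonneg p j (B s))
      intro j hj
      rw [Finset.mem_range] at hj ⊢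
      have : J s ≤ J1 := by rw [hJ1]; exact Finset.le_sup hs
      omega
    have h3 : K * (∑ j ∈ Finset.range (J s), Fj p j X * Fj p j (B s)) / (X.card * (B s).card) ≤
        2 * K * (Real.log A.card + Real.log P.card) * Real.log X.card / n := by
      rw [div_le_div_iff₀ (by positivity) hn0]
      calc K * (∑ j ∈ Finset.range (J s), Fj p j X * Fj p j (B s)) * n ≤ K * cost s * n := by
            refine mul_le_mul_of_nonneg_right ?_ hn0.le
            exact mul_le_mul_of_nonneg_left h2 hK.le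
        _ = K * (n * cost s) := by ring
        _ ≤ K * (2 * (Real.log M * (X.card * Real.log X.card)) * (B s).card) :=
            mul_le_mul_of_nonneg_left hs2' hK.le
        _ = (2 * K * (X.card * Real.log X.card * (B s).card)) * Real.log M := by ring
        _ ≤ (2 * K * (X.card * Real.log X.card * (B s).card)) *
            (Real.log A.card + Real.log P.card) :=
            mul_le_mul_of_nonneg_left hlogM (by positivity)
        _ = _ := by ring
    linarith

/-- scaling a set of positive rationals to positive integers -/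
theorem scale_pos (P : Finset ℚ) (hP : ∀ s ∈ P, 0 < s) :
    ∃ (D : ℕ) (σ : ℚ → ℕ), 0 < D ∧ ∀ s ∈ P, σ s ≠ 0 ∧ ((σ s : ℕ) : ℚ) = s * D := by
  classical
  obtain ⟨D, hD⟩ : ∃ D : ℕ, D = ∏ s ∈ P, s.den := ⟨_, rfl⟩
  have hD0 : 0 < D := by
    rw [hD]
    exact Finset.prod_pos fun s _ => s.den_pos
  refine ⟨D, fun s => (s * D).num.natAbs, hD0, fun s hs => ?_⟩
  have hpos : 0 < s * D := mul_pos (hP s hs) (by exact_mod_cast hD0)
  obtain ⟨m, hm⟩ : s.den ∣ D := by
    rw [hD]
    exact Finset.dvd_prod_of_mem _ hs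
  have hint : s * D = ((s.num * m : ℤ) : ℚ) := by
    rw [hm]
    push_cast
    rw [← mul_assoc, Rat.mul_den_eq_num]
  have hnum : (s * D).num = s.num * m := by rw [hint]; exact Rat.num_intCast _
  have hpos' : 0 < (s * D).num := Rat.num_pos.2 hpos
  obtain ⟨N, hN⟩ : ∃ N : ℕ, (s * D).num = N := ⟨(s * D).num.toNat, by omega⟩
  refine ⟨?_, ?_⟩
  · show (s * D).num.natAbs ≠ 0
    rw [hN, Int.natAbs_natCast]
    intro h
    rw [hN, h] at hpos'
    simp at hpos'
  · show (((s * D).num.natAbs : ℕ) : ℚ) = s * D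
    rw [hN, Int.natAbs_natCast]
    have h1 : ((s.num * m : ℤ) : ℚ) = ((N : ℤ) : ℚ) := by rw [← hnum, hN]
    rw [hint, h1]
    norm_cast

/-- the elements of `A` in `z P` -/
def rich (A : Finset ℤ) (P : Finset ℚ) (z : ℚ) : Finset ℤ :=
  A.filter (fun a : ℤ => ∃ s ∈ P, (a : ℚ) = z * s)

theorem mem_rich {A : Finset ℤ} {P : Finset ℚ} {z : ℚ} {a : ℤ} :
    a ∈ rich A P z ↔ a ∈ A ∧ ∃ s ∈ P, (a : ℚ) = z * s := Finset.mem_filter

/-- **The rank `r` case.** -/
theorem grow_rank (η : ℝ) (hη : 0 < η) (hη1 : η ≤ 1) : ∃ C c N0 : ℝ, 0 < C ∧ 0 < c ∧ c ≤ 1 ∧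
    0 < N0 ∧
    ∀ (A : Finset ℤ) (r : ℕ) (g : Fin r → ℚ) (P Z : Finset ℚ), N0 ≤ A.card → 1 ≤ r →
      (∀ i, 0 < g i) → (∀ s ∈ P, ∃ e : Fin r → ℤ, s = ∏ i, g i ^ e i) →
      (P.card : ℝ) ≤ (A.card : ℝ) ^ c → (A.card : ℝ) ^ (1 - c) < Z.card →
      (∀ z ∈ Z, (C * Real.log A.card) ^ r < (rich A P z).card) →
      Grows η A := by
  classical
  obtain ⟨η0, hη0⟩ : ∃ η0 : ℝ, η0 = η / 4 := ⟨_, rfl⟩
  have hη0p : 0 < η0 := by rw [hη0]; positivity
  have hη01 : η0 ≤ 1 / 4 := by rw [hη0]; linarith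
  obtain ⟨K, hK, hN⟩ := node_exists η0 hη0p
  obtain ⟨K1, hK1⟩ : ∃ K1 : ℝ, K1 = 4 * K / η0 := ⟨_, rfl⟩
  have hK1p : 0 < K1 := by rw [hK1]; positivity
  have hl2 : 0 < Real.log 2 := Real.log_pos (by norm_num)
  refine ⟨K1 + 3, η0 / 8, Real.exp (1 + 2 * Real.log 2 / η0), by positivity, by positivity,
    by linarith, Real.exp_pos _, ?_⟩
  intro A r g P Z hAN hr hg hP hPc hmany hrich
  have hA0 : (0 : ℝ) < A.card := lt_of_lt_of_le (Real.exp_pos _) hAN
  have hlogA : 1 + 2 * Real.log 2 / η0 ≤ Real.log A.card := by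
    rw [Real.le_log_iff_exp_le hA0]
    exact hAN
  have hq8 : 0 ≤ 2 * Real.log 2 / η0 := by positivity
  have hlogA1 : 1 ≤ Real.log A.card := by linarith
  have hlogA2 : 2 * Real.log 2 ≤ η0 * Real.log A.card := by
    have h1 : 2 * Real.log 2 / η0 ≤ Real.log A.card := by linarith
    rw [div_le_iff₀ hη0p] at h1
    linarith
  obtain ⟨a, ha⟩ : ∃ a : ℝ, a = Real.log A.card := ⟨_, rfl⟩
  rw [← ha] at hrich hlogA1 hlogA2
  have hA1R : (1 : ℝ) ≤ A.card := by
    have := Real.add_one_le_exp (1 + 2 * Real.log 2 / η0)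
    linarith
  have hZp : (0 : ℝ) < Z.card := lt_of_le_of_lt (Real.rpow_nonneg hA0.le _) hmany
  have hZne : Z.Nonempty := by
    rw [← Finset.card_pos]
    exact_mod_cast hZp
  have hT1 : (1 : ℝ) ≤ ((K1 + 3) * a) ^ r := one_le_pow₀ (by nlinarith)
  have hPpos : ∀ s ∈ P, 0 < s := by
    intro s hs
    obtain ⟨e, he⟩ := hP s hs
    rw [he]
    exact Finset.prod_pos fun i _ => zpow_pos (hg i) _
  have hZ0 : ∀ z ∈ Z, z ≠ 0 := by
    rintro z hz rfl
    have h1 := hrich 0 hz
    have h2 : (rich A P 0).card ≤ 1 := by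
      rw [Finset.card_le_one]
      intro x hx y hy
      obtain ⟨_, s, _, hs⟩ := mem_rich.1 hx
      obtain ⟨_, t, _, ht⟩ := mem_rich.1 hy
      rw [zero_mul] at hs ht
      have h3 : (x : ℚ) = y := by rw [hs, ht]
      exact_mod_cast h3
    have h3 : ((rich A P 0).card : ℝ) ≤ 1 := by exact_mod_cast h2
    linarith
  -- non-emptiness
  have hPne : P.Nonempty := by
    obtain ⟨z, hz⟩ := hZne
    have h1 := hrich z hz
    have h2 : (0 : ℝ) < (rich A P z).card := by linarith
    have h3 : 0 < (rich A P z).card := by exact_mod_cast h2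
    obtain ⟨x, hx⟩ := Finset.card_pos.1 h3
    obtain ⟨_, s, hs, _⟩ := mem_rich.1 hx
    exact ⟨s, hs⟩
  have hAne : A.Nonempty := by
    rw [← Finset.card_pos]
    exact_mod_cast hA0
  have hPp : (1 : ℝ) ≤ P.card := by exact_mod_cast hPne.card_pos
  -- separating primes and scaling
  obtain ⟨q, hq, hqr, hsep⟩ := exists_separating r g hg
  obtain ⟨Q, hQd⟩ : ∃ Q : Finset ℚ, Q = P.image (fun s => s⁻¹) := ⟨_, rfl⟩
  have hQ : ∀ t ∈ Q, ∃ e : Fin r → ℤ, t = ∏ i, g i ^ e i := by
    intro t ht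
    rw [hQd, Finset.mem_image] at ht
    obtain ⟨s, hs, rfl⟩ := ht
    obtain ⟨e, he⟩ := hP s hs
    refine ⟨fun i => -e i, ?_⟩
    rw [he, ← Finset.prod_inv_distrib]
    exact Finset.prod_congr rfl fun i _ => by rw [zpow_neg]
  have hQpos : ∀ t ∈ Q, 0 < t := by
    intro t ht
    rw [hQd, Finset.mem_image] at ht
    obtain ⟨s, hs, rfl⟩ := ht
    exact inv_pos.2 (hPpos s hs)
  have hQc : Q.card ≤ P.card := by
    rw [hQd]
    exact Finset.card_image_le
  obtain ⟨D, σ, hD, hσ⟩ := scale_pos Q hQpos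
  have hDQ : (D : ℚ) ≠ 0 := by exact_mod_cast hD.ne'
  have hσinj : Set.InjOn σ Q := by
    intro s hs s' hs' h
    have h1 := (hσ s hs).2
    have h2 := (hσ s' hs').2
    rw [h, h2] at h1
    exact (mul_right_cancel₀ hDQ h1).symm
  obtain ⟨P', hP'⟩ : ∃ P' : Finset ℕ, P' = Q.image σ := ⟨_, rfl⟩
  have hP'c : P'.card ≤ P.card := by
    rw [hP']
    exact Finset.card_image_le.trans hQc
  have hQne : Q.Nonempty := by rw [hQd]; exact hPne.image _
  have hP'ne : P'.Nonempty := by rw [hP']; exact hQne.image σ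
  have hP'0 : ∀ s ∈ P', s ≠ 0 := by
    intro s hs
    rw [hP', Finset.mem_image] at hs
    obtain ⟨t, ht, rfl⟩ := hs
    exact (hσ t ht).1
  have hinj : ∀ s ∈ P', ∀ s' ∈ P', (∀ p ∈ q, padicValNat p s = padicValNat p s') → s = s' := by
    intro s hs s' hs' h
    rw [hP', Finset.mem_image] at hs hs'
    obtain ⟨t, ht, rfl⟩ := hs
    obtain ⟨t', ht', rfl⟩ := hs'
    obtain ⟨e, he⟩ := hQ t ht
    obtain ⟨e', he'⟩ := hQ t' ht'
    have h1 : t = t' := by
      rw [he, he']
      refine hsep e e' fun p hp => ?_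
      rw [← he, ← he']
      have := Fact.mk (hq p hp)
      have h2 : (padicValRat p ((σ t : ℕ) : ℚ)) = padicValRat p ((σ t' : ℕ) : ℚ) := by
        rw [padicValRat.of_nat, padicValRat.of_nat, h p hp]
      rw [(hσ t ht).2, (hσ t' ht').2, padicValRat.mul (hQpos t ht).ne' hDQ,
        padicValRat.mul (hQpos t' ht').ne' hDQ] at h2
      linarith
    rw [h1]
  obtain ⟨n, hn⟩ : ∃ n : ℕ, n = ⌈K1 * a⌉₊ + 2 := ⟨_, rfl⟩
  have hn2 : 2 ≤ n := by omega
  have hnK : K1 * a ≤ n := by
    rw [hn]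
    push_cast
    have := Nat.le_ceil (K1 * a)
    linarith
  have hnle : (n : ℝ) ≤ (K1 + 3) * a := by
    rw [hn]
    push_cast
    have := (Nat.ceil_lt_add_one (a := K1 * a) (by positivity)).le
    nlinarith
  have hn0 : (0 : ℝ) < n := by
    have : (2 : ℝ) ≤ n := by exact_mod_cast hn2
    linarith
  -- the integers `z D`
  have hZint : ∀ z ∈ Z, ((z * D).num : ℚ) = z * D := by
    intro z hz
    have h1 := hrich z hz
    have h2 : (0 : ℝ) < (rich A P z).card := by linarith
    have h3 : 0 < (rich A P z).card := by exact_mod_cast h2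
    obtain ⟨x, hx⟩ := Finset.card_pos.1 h3
    obtain ⟨_, s, hs, hxs⟩ := mem_rich.1 hx
    have hs0 := (hPpos s hs).ne'
    have hsQ : s⁻¹ ∈ Q := by rw [hQd]; exact Finset.mem_image_of_mem _ hs
    have h4 : z * D = ((x * ((σ s⁻¹ : ℕ) : ℤ) : ℤ) : ℚ) := by
      push_cast
      rw [(hσ _ hsQ).2, hxs]
      field_simp
    rw [h4]
    exact_mod_cast congrArg (fun m : ℤ => (m : ℚ)) (Rat.num_intCast _)
  obtain ⟨Z', hZ'⟩ : ∃ Z' : Finset ℤ, Z' = Z.image (fun z : ℚ => (z * (D : ℚ)).num) := ⟨_, rfl⟩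
  have hZ'c : Z'.card = Z.card := by
    rw [hZ', Finset.card_image_of_injOn]
    intro z hz w hw h
    have h1 := hZint z (Finset.mem_coe.1 hz)
    have h2 := hZint w (Finset.mem_coe.1 hw)
    have h' : (z * D).num = (w * D).num := h
    rw [h', h2] at h1
    exact (mul_right_cancel₀ hDQ h1).symm
  have hZ'ne : Z'.Nonempty := by rw [hZ']; exact hZne.image _
  have hrich' : ∀ z' ∈ Z', n ^ r <
      (P'.filter (fun s : ℕ => ∃ x ∈ A, x * (s : ℤ) = z')).card := by
    intro z' hz'
    rw [hZ', Finset.mem_image] at hz'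
    obtain ⟨z, hz, rfl⟩ := hz'
    have h1 : (n : ℝ) ^ r < (rich A P z).card :=
      lt_of_le_of_lt (pow_le_pow_left₀ hn0.le hnle r) (hrich z hz)
    have h2 : n ^ r < (rich A P z).card := by exact_mod_cast h1
    refine h2.trans_le ?_
    have hz0 := hZ0 z hz
    refine Finset.card_le_card_of_injOn (fun x : ℤ => σ (z / x)) ?_ ?_
    · intro x hx
      obtain ⟨hxA, s, hs, hxs⟩ := mem_rich.1 (Finset.mem_coe.1 hx)
      have hs0 := (hPpos s hs).ne'
      have hsQ : s⁻¹ ∈ Q := by rw [hQd]; exact Finset.mem_image_of_mem _ hs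
      have h3 : z / x = s⁻¹ := by
        rw [hxs]
        field_simp
      refine Finset.mem_coe.2 (Finset.mem_filter.2 ⟨?_, x, hxA, ?_⟩)
      · show σ (z / x) ∈ P'
        rw [h3, hP']
        exact Finset.mem_image_of_mem σ hsQ
      · have h4 : ((x * ((σ (z / x) : ℕ) : ℤ) : ℤ) : ℚ) = (((z * D).num : ℤ) : ℚ) := by
          rw [hZint z hz, h3]
          push_cast
          rw [(hσ _ hsQ).2, hxs]
          field_simp
        exact_mod_cast h4
    · intro x hx y hy h
      obtain ⟨_, s, hs, hxs⟩ := mem_rich.1 (Finset.mem_coe.1 hx)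
      obtain ⟨_, t, ht, hyt⟩ := mem_rich.1 (Finset.mem_coe.1 hy)
      have hs0 := (hPpos s hs).ne'
      have ht0 := (hPpos t ht).ne'
      have h3 : z / x = s⁻¹ := by
        rw [hxs]
        field_simp
      have h4 : z / y = t⁻¹ := by
        rw [hyt]
        field_simp
      have h5 : σ (z / x) = σ (z / y) := h
      rw [h3, h4] at h5
      have h6 : s⁻¹ = t⁻¹ := by
        refine hσinj ?_ ?_ h5
        · rw [hQd]; exact Finset.mem_coe.2 (Finset.mem_image_of_mem _ hs)
        · rw [hQd]; exact Finset.mem_coe.2 (Finset.mem_image_of_mem _ ht)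
      have h7 : s = t := inv_injective h6
      have h8 : (x : ℚ) = y := by rw [hxs, hyt, h7]
      exact_mod_cast h8
  have hlogP : Real.log P.card ≤ η0 / 8 * a := by
    have h1 := Real.log_le_log (by linarith) hPc
    rw [Real.log_rpow hA0, ← ha] at h1
    exact h1
  have hlogP0 : 0 ≤ Real.log P.card := Real.log_nonneg hPp
  have hP'p : (0 : ℝ) < P'.card := by exact_mod_cast hP'ne.card_pos
  have hP'R : (P'.card : ℝ) ≤ P.card := by exact_mod_cast hP'c
  intro X hX
  rw [← ha]
  have hX1 : (1 : ℝ) ≤ X.card := by exact_mod_cast hX.card_pos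
  have hx : 0 ≤ Real.log X.card := Real.log_nonneg hX1
  obtain ⟨B, hBA, hBne, hnP, hBc, hB⟩ := rank_step hK hN q hq r hqr A hAne P' hP'ne hP'0 hinj n
    (by omega) Z' hZ'ne hrich' X hX
  have hBp : (0 : ℝ) < B.card := by exact_mod_cast hBne.card_pos
  have hrP : r ≤ P.card := by
    have h1 : 2 ^ r ≤ n ^ r := Nat.pow_le_pow_left hn2 r
    have h2 : r < 2 ^ r := Nat.lt_two_pow_self
    omega
  have hcost : 2 * K * (Real.log A.card + Real.log P'.card) * Real.log X.card / n ≤
      η0 * Real.log X.card := by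
    rw [div_le_iff₀ hn0]
    have h0 : Real.log P'.card ≤ Real.log P.card := Real.log_le_log hP'p hP'R
    have h1 : 2 * K * (Real.log A.card + Real.log P'.card) ≤ η0 * n := by
      calc 2 * K * (Real.log A.card + Real.log P'.card) ≤ 2 * K * (2 * a) := by
            refine mul_le_mul_of_nonneg_left ?_ (by positivity)
            rw [← ha]
            nlinarith
        _ = η0 * (K1 * a) := by
            rw [hK1]
            field_simp
            ring
        _ ≤ η0 * n := mul_le_mul_of_nonneg_left hnK hη0p.le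
    calc 2 * K * (Real.log A.card + Real.log P'.card) * Real.log X.card ≤
          (η0 * n) * Real.log X.card := mul_le_mul_of_nonneg_right h1 hx
      _ = _ := by ring
  have hlogB : (1 - η0) * a ≤ Real.log B.card := by
    have h1 : (A.card : ℝ) ^ (1 - η0 / 8) ≤ 2 * (P.card * P.card * B.card) := by
      have hr' : (r : ℝ) ≤ P.card := by exact_mod_cast hrP
      have hr0 : (0 : ℝ) ≤ r := Nat.cast_nonneg r
      have hn1 : (1 : ℝ) ≤ n := by
        have : (2 : ℝ) ≤ n := by exact_mod_cast hn2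
        linarith
      calc (A.card : ℝ) ^ (1 - η0 / 8) ≤ Z.card := hmany.le
        _ = Z'.card := by rw [hZ'c]
        _ ≤ n * Z'.card := by
            have : (0 : ℝ) ≤ Z'.card := Nat.cast_nonneg _
            nlinarith
        _ ≤ 2 * r * (P'.card * B.card) := hBc
        _ ≤ 2 * P.card * (P.card * B.card) :=
            mul_le_mul (by linarith) (mul_le_mul_of_nonneg_right hP'R hBp.le) (by positivity)
              (by positivity)
        _ = _ := by ring
    have h2 := Real.log_le_log (Real.rpow_pos_of_pos hA0 _) h1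
    rw [Real.log_mul (by norm_num) (by positivity), Real.log_mul (by positivity) hBp.ne',
      Real.log_mul (by linarith) (by linarith), Real.log_rpow hA0, ← ha] at h2
    nlinarith
  have hsub2 : Finset.image₂ (fun a b => a + b) X B ⊆ Finset.image₂ (fun a b => a + b) X A :=
    Finset.image₂_subset_left hBA
  have hpos : (0 : ℝ) < (Finset.image₂ (fun a b => a + b) X B).card := by
    exact_mod_cast Finset.card_pos.2 (hX.image₂ hBne)
  have hmono : Real.log (Finset.image₂ (fun a b => a + b) X B).card ≤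
      Real.log (Finset.image₂ (fun a b => a + b) X A).card :=
    Real.log_le_log hpos (by exact_mod_cast Finset.card_le_card hsub2)
  have h4 : η = 4 * η0 := by rw [hη0]; ring
  rw [h4]
  refine grows_final η0 _ _ _ hη0p.le hx (by linarith) _ (by linarith) hlogB ?_
  linarith

end Pool.Agent.Helper15.GL
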