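import Pool.Agent.Helper15.GL.Split

set_option autoImplicit false

/-!
# Project GL (MP_120218), Level: residue classes modulo powers of `p` and one level of digits
-/

namespace Pool.Agent.Helper15.GL

open Finset

/-- the elements of `X` which are congruent to `x` modulo `p ^ j` -/
def cls (p j : ℕ) (X : Finset ℤ) (x : ℤ) : Finset ℤ := X.filter (fun y => (p : ℤ) ^ j ∣ y - x)

/-- `log` of the size of the class of `x` modulo `p ^ j` minus the same modulo `p ^ (j + 1)` -/
noncomputable def ell (p j : ℕ) (X : Finset ℤ) (x : ℤ) : ℝ :=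
  Real.log (cls p j X x).card - Real.log (cls p (j + 1) X x).card

/-- `|X|` times the entropy of the `j`-th digit given the lower ones -/
noncomputable def Fj (p j : ℕ) (X : Finset ℤ) : ℝ := ∑ x ∈ X, ell p j X x

theorem mem_cls {p j : ℕ} {X : Finset ℤ} {x y : ℤ} :
    y ∈ cls p j X x ↔ y ∈ X ∧ (p : ℤ) ^ j ∣ y - x := Finset.mem_filter

theorem self_mem_cls {p j : ℕ} {X : Finset ℤ} {x : ℤ} (hx : x ∈ X) : x ∈ cls p j X x :=
  mem_cls.2 ⟨hx, by simp⟩

theorem cls_nonempty {p j : ℕ} {X : Finset ℤ} {x : ℤ} (hx : x ∈ X) : (cls p j X x).Nonempty :=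
  ⟨x, self_mem_cls hx⟩

theorem cls_zero (p : ℕ) (X : Finset ℤ) (x : ℤ) : cls p 0 X x = X := by
  unfold cls
  simp

theorem cls_succ_subset (p j : ℕ) (X : Finset ℤ) (x : ℤ) : cls p (j + 1) X x ⊆ cls p j X x := by
  intro y hy
  rw [mem_cls] at hy ⊢
  exact ⟨hy.1, (pow_dvd_pow _ (Nat.le_succ j)).trans hy.2⟩

theorem cls_anti (p : ℕ) {i j : ℕ} (h : i ≤ j) (X : Finset ℤ) (x : ℤ) :
    cls p j X x ⊆ cls p i X x := by
  intro y hy
  rw [mem_cls] at hy ⊢
  exact ⟨hy.1, (pow_dvd_pow _ h).trans hy.2⟩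

theorem cls_eq {p j : ℕ} {X : Finset ℤ} {x y : ℤ} (h : (p : ℤ) ^ j ∣ y - x) :
    cls p j X y = cls p j X x := by
  unfold cls
  refine Finset.filter_congr fun z _ => ?_
  constructor
  · intro hz
    have := dvd_add hz h
    simpa using this
  · intro hz
    have := dvd_sub hz h
    simpa using this

theorem ell_nonneg (p j : ℕ) (X : Finset ℤ) (x : ℤ) (hx : x ∈ X) : 0 ≤ ell p j X x := by
  unfold ell
  have h1 : (0 : ℝ) < (cls p (j + 1) X x).card := by
    exact_mod_cast Finset.card_pos.2 (cls_nonempty hx)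
  have h2 : ((cls p (j + 1) X x).card : ℝ) ≤ (cls p j X x).card := by
    exact_mod_cast Finset.card_le_card (cls_succ_subset p j X x)
  have := Real.log_le_log h1 h2
  linarith

theorem Fj_nonneg (p j : ℕ) (X : Finset ℤ) : 0 ≤ Fj p j X :=
  Finset.sum_nonneg fun x hx => ell_nonneg p j X x hx

theorem sum_ell (p J : ℕ) (X : Finset ℤ) (x : ℤ) :
    ∑ j ∈ Finset.range J, ell p j X x = Real.log X.card - Real.log (cls p J X x).card := by
  induction J with
  | zero => rw [Finset.sum_range_zero, cls_zero, sub_self]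
  | succ J ih =>
    rw [Finset.sum_range_succ, ih]
    unfold ell
    ring

theorem sum_Fj_le (p J : ℕ) (X : Finset ℤ) :
    ∑ j ∈ Finset.range J, Fj p j X ≤ X.card * Real.log X.card := by
  unfold Fj
  rw [Finset.sum_comm]
  have h : ∀ x ∈ X, ∑ j ∈ Finset.range J, ell p j X x ≤ Real.log X.card := by
    intro x _
    rw [sum_ell]
    have := Real.log_natCast_nonneg (cls p J X x).card
    linarith
  refine (Finset.sum_le_sum h).trans (le_of_eq ?_)
  rw [Finset.sum_const, nsmul_eq_mul]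

/-- any set of levels -/
theorem sum_ell_le (p : ℕ) (X : Finset ℤ) (x : ℤ) (hx : x ∈ X) (T : Finset ℕ) :
    ∑ j ∈ T, ell p j X x ≤ Real.log X.card := by
  have hsub : T ⊆ Finset.range (T.sup id + 1) := by
    intro t ht
    rw [Finset.mem_range]
    exact Nat.lt_succ_of_le (Finset.le_sup (f := id) ht)
  refine (Finset.sum_le_sum_of_subset_of_nonneg hsub
    (fun j _ _ => ell_nonneg p j X x hx)).trans ?_
  rw [sum_ell]
  have := Real.log_natCast_nonneg (cls p (T.sup id + 1) X x).card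
  linarith

/-- for large `j` the classes are singletons -/
theorem exists_singleton (p : ℕ) (hp : 2 ≤ p) (X : Finset ℤ) :
    ∃ J0 : ℕ, ∀ J, J0 ≤ J → ∀ x ∈ X, cls p J X x = {x} := by
  refine ⟨∑ x ∈ X, ∑ x' ∈ X, (x - x').natAbs, fun J hJ x hx => ?_⟩
  ext y
  rw [mem_cls, Finset.mem_singleton]
  constructor
  · rintro ⟨hy, he⟩
    have h1 : (y - x).natAbs ≤ J := by
      refine le_trans ?_ hJ
      calc (y - x).natAbs ≤ ∑ x' ∈ X, (y - x').natAbs :=
            Finset.single_le_sum (f := fun x' => (y - x').natAbs)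
              (fun _ _ => Nat.zero_le _) hx
        _ ≤ ∑ x ∈ X, ∑ x' ∈ X, (x - x').natAbs :=
            Finset.single_le_sum (f := fun x => ∑ x' ∈ X, (x - x').natAbs)
              (fun _ _ => Nat.zero_le _) hy
    have h2 : J < p ^ J := Nat.lt_pow_self (by omega)
    have h4 : |y - x| < (p : ℤ) ^ J := by
      rw [Int.abs_eq_natAbs]
      exact_mod_cast lt_of_le_of_lt h1 h2
    have h5 := Int.eq_zero_of_abs_lt_dvd he h4
    omega
  · rintro rfl
    exact ⟨hx, by simp⟩

/-- averaging over classes -/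
theorem avg_cls (p j : ℕ) (X : Finset ℤ) (ψ : ℤ → ℝ) :
    ∑ x ∈ X, (∑ y ∈ cls p j X x, ψ y) / (cls p j X x).card = ∑ x ∈ X, ψ x := by
  have h1 : ∀ x ∈ X, (∑ y ∈ cls p j X x, ψ y) / (cls p j X x).card =
      ∑ y ∈ X, if (p : ℤ) ^ j ∣ y - x then ψ y / (cls p j X y).card else 0 := by
    intro x _
    rw [Finset.sum_div, ← Finset.sum_filter]
    refine Finset.sum_congr rfl fun y hy => ?_
    rw [Finset.mem_filter] at hy
    rw [cls_eq hy.2]
  rw [Finset.sum_congr rfl h1, Finset.sum_comm]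
  refine Finset.sum_congr rfl fun y hy => ?_
  have h2 : ∑ x ∈ X, (if (p : ℤ) ^ j ∣ y - x then ψ y / (cls p j X y).card else 0) =
      ∑ x ∈ cls p j X y, ψ y / (cls p j X y).card := by
    rw [← Finset.sum_filter]
    unfold cls
    refine Finset.sum_congr (Finset.filter_congr fun x _ => ?_) fun _ _ => rfl
    rw [dvd_sub_comm]
  rw [h2, Finset.sum_const, nsmul_eq_mul]
  have h3 : ((cls p j X y).card : ℝ) ≠ 0 := by
    have := Finset.card_pos.2 (cls_nonempty (p := p) (j := j) hy)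
    positivity
  field_simp

/-- `j`-th digit -/
def dig (p j : ℕ) (x : ℤ) : ZMod p := ((x / (p : ℤ) ^ j : ℤ) : ZMod p)

theorem ediv_sub {P x y : ℤ} (h : P ∣ x - y) : x - y = P * (x / P - y / P) := by
  have h1 := Int.mul_ediv_add_emod x P
  have h2 := Int.mul_ediv_add_emod y P
  have h3 : x % P = y % P := Int.emod_eq_emod_iff_emod_sub_eq_zero.2
    (Int.emod_eq_zero_of_dvd h)
  rw [mul_sub]
  linarith

theorem dig_eq_iff {p j : ℕ} (hp : 0 < p) {x y : ℤ} (h : (p : ℤ) ^ j ∣ y - x) :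
    dig p j y = dig p j x ↔ (p : ℤ) ^ (j + 1) ∣ y - x := by
  have hP : (p : ℤ) ^ j ≠ 0 := by positivity
  unfold dig
  rw [ZMod.intCast_eq_intCast_iff_dvd_sub, dvd_sub_comm, ediv_sub h, pow_succ,
    mul_dvd_mul_iff_left hP]

theorem filter_dig (p j : ℕ) (hp : 0 < p) (X : Finset ℤ) (x x' : ℤ) (hx' : x' ∈ cls p j X x) :
    (cls p j X x).filter (fun z => dig p j z = dig p j x') = cls p (j + 1) X x' := by
  rw [mem_cls] at hx'
  ext z
  rw [Finset.mem_filter, mem_cls, mem_cls]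
  constructor
  · rintro ⟨⟨hz, h1⟩, h2⟩
    refine ⟨hz, ?_⟩
    have h3 : (p : ℤ) ^ j ∣ z - x' := by
      have := dvd_sub h1 hx'.2
      simpa using this
    exact (dig_eq_iff hp h3).1 h2
  · rintro ⟨hz, h1⟩
    have h3 : (p : ℤ) ^ j ∣ z - x' := (pow_dvd_pow _ (Nat.le_succ j)).trans h1
    refine ⟨⟨hz, ?_⟩, (dig_eq_iff hp h3).2 h1⟩
    have := dvd_add h3 hx'.2
    simpa using this

/-- the entropy of the `j`-th digit in the class of `x` -/
noncomputable def hx (p j : ℕ) [NeZero p] (X : Finset ℤ) (x : ℤ) : ℝ :=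
  ent (law (cls p j X x) (dig p j))

theorem hx_eq (p j : ℕ) [NeZero p] (X : Finset ℤ) (x : ℤ) (hx' : x ∈ X) :
    hx p j X x = (∑ y ∈ cls p j X x, ell p j X y) / (cls p j X x).card := by
  have hc : ((cls p j X x).card : ℝ) ≠ 0 := by
    have := Finset.card_pos.2 (cls_nonempty (p := p) (j := j) hx')
    positivity
  have h := ent_law (cls p j X x) (cls_nonempty hx') (dig p j)
  rw [eq_div_iff hc, mul_comm]
  unfold hx
  rw [h]
  refine Finset.sum_congr rfl fun y hy => ?_
  rw [filter_dig p j (Nat.pos_of_ne_zero (NeZero.ne p)) X x y hy]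
  unfold ell
  rw [cls_eq (mem_cls.1 hy).2]

theorem sum_hx (p j : ℕ) [NeZero p] (X : Finset ℤ) : ∑ x ∈ X, hx p j X x = Fj p j X := by
  rw [Finset.sum_congr rfl fun x hx' => hx_eq p j X x hx', avg_cls]
  rfl

theorem hx_nonneg (p j : ℕ) [NeZero p] (X : Finset ℤ) (x : ℤ) (hx' : x ∈ X) : 0 ≤ hx p j X x :=
  ent_nonneg _ (law_nonneg _ _) (sum_law _ (cls_nonempty hx') _)

end Pool.Agent.Helper15.GL
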