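import Pool.Agent.Helper15.GL.Lines

set_option autoImplicit false

/-!
# Project GL (MP_120218), LineG: a set which meets few cosets of a group of rank one
-/

namespace Pool.Agent.Helper15.GL

open Finset

/-- a rational number or its inverse is a power of a prime times a unit -/
theorem exists_form (g : ℚ) (hg : g ≠ 0) (h1 : g ≠ 1) (h2 : g ≠ -1) :
    ∃ (p n0 : ℕ) (α β : ℤ) (h : ℚ), p.Prime ∧ 1 ≤ n0 ∧ ¬ (p : ℤ) ∣ α ∧ ¬ (p : ℤ) ∣ β ∧
      h * β = (p : ℚ) ^ n0 * α ∧ (h = g ∨ h = g⁻¹) := by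
  have hnum : g.num ≠ 0 := Rat.num_ne_zero.2 hg
  have hgd : g * (g.den : ℚ) = g.num := Rat.mul_den_eq_num g
  by_cases ha1 : g.num.natAbs = 1
  · have hd1 : g.den ≠ 1 := by
      intro hd
      rw [hd, Nat.cast_one, mul_one] at hgd
      rcases Int.natAbs_eq g.num with h | h
      · rw [ha1] at h
        apply h1
        rw [hgd, h]
        norm_num
      · rw [ha1] at h
        apply h2
        rw [hgd, h]
        norm_num
    obtain ⟨p, hp, hpd⟩ := Nat.exists_prime_and_dvd hd1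
    obtain ⟨n0, d', hd', hn⟩ := Nat.exists_eq_pow_mul_and_not_dvd g.den_ne_zero p hp.ne_one
    have hpn : ¬ (p : ℤ) ∣ g.num := by
      intro h
      have h3 : p ∣ g.num.natAbs := Int.natCast_dvd.1 h
      rw [ha1] at h3
      exact hp.one_lt.ne' (Nat.dvd_one.1 h3)
    refine ⟨p, n0, d', g.num, g⁻¹, hp, ?_, ?_, hpn, ?_, Or.inr rfl⟩
    · by_contra hc
      have : n0 = 0 := by omega
      rw [this, pow_zero, one_mul] at hn
      rw [hn] at hpd
      exact hd' hpd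
    · intro h
      exact hd' (Int.natCast_dvd_natCast.1 h)
    · rw [← hgd, ← mul_assoc, inv_mul_cancel₀ hg, one_mul]
      have h4 : (g.den : ℚ) = (p : ℚ) ^ n0 * d' := by exact_mod_cast hn
      rw [h4]
      push_cast
      ring
  · obtain ⟨p, hp, hpd⟩ := Nat.exists_prime_and_dvd ha1
    have hna : g.num.natAbs ≠ 0 := Int.natAbs_ne_zero.2 hnum
    obtain ⟨n0, a', ha', hn⟩ := Nat.exists_eq_pow_mul_and_not_dvd hna p hp.ne_one
    have hsign : ∃ ε : ℤ, (ε = 1 ∨ ε = -1) ∧ g.num = ε * g.num.natAbs := by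
      rcases Int.natAbs_eq g.num with h | h
      · exact ⟨1, Or.inl rfl, by rw [one_mul]; exact h⟩
      · exact ⟨-1, Or.inr rfl, by rw [neg_one_mul]; exact h⟩
    obtain ⟨ε, hε, hgn⟩ := hsign
    refine ⟨p, n0, ε * a', g.den, g, hp, ?_, ?_, ?_, ?_, Or.inl rfl⟩
    · by_contra hc
      have : n0 = 0 := by omega
      rw [this, pow_zero, one_mul] at hn
      rw [hn] at hpd
      exact ha' hpd
    · intro h
      apply ha'
      rcases hε with h3 | h3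
      · rw [h3, one_mul] at h
        exact Int.natCast_dvd_natCast.1 h
      · rw [h3, neg_one_mul, dvd_neg] at h
        exact Int.natCast_dvd_natCast.1 h
    · intro h
      exact Nat.not_coprime_of_dvd_of_dvd hp.one_lt hpd (Int.natCast_dvd_natCast.1 h) g.reduced
    · have h5 : ((g.den : ℤ) : ℚ) = (g.den : ℚ) := by norm_cast
      rw [h5, hgd, hgn, hn]
      push_cast
      ring

/-- the exponent of the line through `y` -/
def lidx (p n0 : ℕ) (y : ℤ) : ℕ := padicValInt p y / n0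

/-- the base point of the line through `y` -/
def lom (p n0 : ℕ) (α β : ℤ) (I : ℕ) (y : ℤ) : ℤ :=
  y / (p : ℤ) ^ (n0 * lidx p n0 y) * β ^ lidx p n0 y * α ^ (I - lidx p n0 y)

theorem lidx_dvd {p n0 : ℕ} (hp : p.Prime) (y : ℤ) : (p : ℤ) ^ (n0 * lidx p n0 y) ∣ y := by
  have := Fact.mk hp
  rw [padicValInt_dvd_iff]
  exact Or.inr (Nat.mul_div_le _ _)

theorem val_eq_of {p : ℕ} (hp : p.Prime) {y y' : ℤ} (hy : y ≠ 0) (hy' : y' ≠ 0)
    (h : ∀ t : ℕ, (p : ℤ) ^ t ∣ y ↔ (p : ℤ) ^ t ∣ y') : padicValInt p y = padicValInt p y' := by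
  have := Fact.mk hp
  apply le_antisymm
  · have h1 := (h (padicValInt p y)).1 ((padicValInt_dvd_iff _ _).2 (Or.inr le_rfl))
    exact ((padicValInt_dvd_iff _ _).1 h1).resolve_left hy'
  · have h1 := (h (padicValInt p y')).2 ((padicValInt_dvd_iff _ _).2 (Or.inr le_rfl))
    exact ((padicValInt_dvd_iff _ _).1 h1).resolve_left hy

theorem coprime_pow_mul {p : ℕ} (hp : p.Prime) {c : ℤ} (hc : ¬ (p : ℤ) ∣ c) (t : ℕ) (z : ℤ) :
    (p : ℤ) ^ t ∣ z * c ↔ (p : ℤ) ^ t ∣ z := by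
  have hpc : IsCoprime (p : ℤ) c :=
    (Prime.coprime_iff_not_dvd (Nat.prime_iff_prime_int.1 hp)).2 hc
  exact ⟨fun h => (hpc.pow_left).dvd_of_dvd_mul_right h, fun h => h.mul_right c⟩

theorem lom_sub {p n0 : ℕ} (hp : p.Prime) {α β : ℤ} (hα : ¬ (p : ℤ) ∣ α) (hβ : ¬ (p : ℤ) ∣ β)
    (I : ℕ) (y y' : ℤ) (h : lidx p n0 y = lidx p n0 y') (t : ℕ) :
    (p : ℤ) ^ (n0 * lidx p n0 y + t) ∣ y - y' ↔
      (p : ℤ) ^ t ∣ lom p n0 α β I y - lom p n0 α β I y' := by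
  have hpZ : Prime (p : ℤ) := Nat.prime_iff_prime_int.1 hp
  obtain ⟨u, hu⟩ := lidx_dvd (n0 := n0) hp y
  obtain ⟨u', hu'⟩ := lidx_dvd (n0 := n0) hp y'
  have hp0 : (p : ℤ) ^ (n0 * lidx p n0 y) ≠ 0 := pow_ne_zero _ hpZ.ne_zero
  have e1 : y / (p : ℤ) ^ (n0 * lidx p n0 y) = u := Int.ediv_eq_of_eq_mul_right hp0 hu
  have e2 : y' / (p : ℤ) ^ (n0 * lidx p n0 y') = u' := by
    refine Int.ediv_eq_of_eq_mul_right ?_ hu'
    rw [← h]
    exact hp0
  have hc : ¬ (p : ℤ) ∣ β ^ lidx p n0 y * α ^ (I - lidx p n0 y) := by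
    intro hd
    rcases hpZ.dvd_or_dvd hd with hd | hd
    · exact hβ (hpZ.dvd_of_dvd_pow hd)
    · exact hα (hpZ.dvd_of_dvd_pow hd)
  have e3 : lom p n0 α β I y - lom p n0 α β I y' =
      (u - u') * (β ^ lidx p n0 y * α ^ (I - lidx p n0 y)) := by
    unfold lom
    rw [e1, e2, ← h]
    ring
  rw [e3, coprime_pow_mul hp hc]
  have e4 : y - y' = (p : ℤ) ^ (n0 * lidx p n0 y) * (u - u') := by
    rw [← h] at hu'
    conv_lhs => rw [hu, hu']
    ring
  rw [e4, pow_add]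
  exact mul_dvd_mul_iff_left hp0

/-- points of one line have the same base point -/
theorem lom_eq {p n0 : ℕ} (hp : p.Prime) (hn0 : 1 ≤ n0) {α β : ℤ} (hα : ¬ (p : ℤ) ∣ α)
    (hβ : ¬ (p : ℤ) ∣ β) (I : ℕ) (y y' : ℤ) (hy : y ≠ 0) (hy' : y' ≠ 0) (e : ℕ)
    (hI : lidx p n0 y ≤ I) (he : y * β ^ e = (p : ℤ) ^ (n0 * e) * α ^ e * y') :
    lom p n0 α β I y = lom p n0 α β I y' := by
  have := Fact.mk hp
  have hpZ : Prime (p : ℤ) := Nat.prime_iff_prime_int.1 hp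
  have hpow : ∀ (c : ℤ) (t : ℕ), ¬ (p : ℤ) ∣ c → ¬ (p : ℤ) ∣ c ^ t :=
    fun c t hc h => hc (hpZ.dvd_of_dvd_pow h)
  have hv : padicValInt p y = padicValInt p y' + n0 * e := by
    have key : ∀ t : ℕ, (p : ℤ) ^ t ∣ y ↔ (p : ℤ) ^ t ∣ (p : ℤ) ^ (n0 * e) * y' := by
      intro t
      rw [← coprime_pow_mul hp (hpow β e hβ) t y, he, mul_right_comm,
        coprime_pow_mul hp (hpow α e hα)]
    have h1 := val_eq_of hp hy (mul_ne_zero (pow_ne_zero _ hpZ.ne_zero) hy') key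
    rw [h1, padicValInt.mul (pow_ne_zero _ hpZ.ne_zero) hy']
    have h2 : padicValInt p ((p : ℤ) ^ (n0 * e)) = n0 * e := by
      have : padicValInt p ((p : ℤ) ^ (n0 * e)) = padicValNat p (p ^ (n0 * e)) := by
        unfold padicValInt
        rw [Int.natAbs_pow, Int.natAbs_natCast]
      rw [this, padicValNat.prime_pow]
    rw [h2, add_comm]
  have hidx : lidx p n0 y = lidx p n0 y' + e := by
    unfold lidx
    rw [hv, Nat.add_mul_div_left _ _ hn0]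
  obtain ⟨u, hu⟩ := lidx_dvd (n0 := n0) hp y
  obtain ⟨u', hu'⟩ := lidx_dvd (n0 := n0) hp y'
  have hp0 : ∀ t : ℕ, (p : ℤ) ^ t ≠ 0 := fun t => pow_ne_zero _ hpZ.ne_zero
  have e1 : y / (p : ℤ) ^ (n0 * lidx p n0 y) = u := Int.ediv_eq_of_eq_mul_right (hp0 _) hu
  have e2 : y' / (p : ℤ) ^ (n0 * lidx p n0 y') = u' := Int.ediv_eq_of_eq_mul_right (hp0 _) hu'
  have e3 : u * β ^ e = α ^ e * u' := by
    have h1 : (p : ℤ) ^ (n0 * lidx p n0 y) * (u * β ^ e) =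
        (p : ℤ) ^ (n0 * lidx p n0 y) * (α ^ e * u') := by
      have h2 : (p : ℤ) ^ (n0 * lidx p n0 y) = (p : ℤ) ^ (n0 * e) *
          (p : ℤ) ^ (n0 * lidx p n0 y') := by
        rw [← pow_add, hidx]
        congr 1
        ring
      calc (p : ℤ) ^ (n0 * lidx p n0 y) * (u * β ^ e) =
          ((p : ℤ) ^ (n0 * lidx p n0 y) * u) * β ^ e := by ring
        _ = y * β ^ e := by rw [← hu]
        _ = (p : ℤ) ^ (n0 * e) * α ^ e * y' := he
        _ = (p : ℤ) ^ (n0 * e) * α ^ e * ((p : ℤ) ^ (n0 * lidx p n0 y') * u') := by rw [← hu']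
        _ = (p : ℤ) ^ (n0 * lidx p n0 y) * (α ^ e * u') := by rw [h2]; ring
    exact mul_left_cancel₀ (hp0 _) h1
  unfold lom
  rw [e1, e2, hidx]
  have e5 : I - lidx p n0 y' = e + (I - (lidx p n0 y' + e)) := by omega
  rw [e5, pow_add, pow_add]
  calc u * (β ^ lidx p n0 y' * β ^ e) * α ^ (I - (lidx p n0 y' + e)) =
      (u * β ^ e) * β ^ lidx p n0 y' * α ^ (I - (lidx p n0 y' + e)) := by ring
    _ = (α ^ e * u') * β ^ lidx p n0 y' * α ^ (I - (lidx p n0 y' + e)) := by rw [e3]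
    _ = _ := by ring

/-- the elements of `A` in the coset `a ⟨g⟩` -/
noncomputable def co (A : Finset ℤ) (g : ℚ) (a : ℤ) : Finset ℤ := by
  classical exact A.filter (fun b => ∃ e : ℤ, (b : ℚ) = a * g ^ e)

theorem mem_co {A : Finset ℤ} {g : ℚ} {a b : ℤ} :
    b ∈ co A g a ↔ b ∈ A ∧ ∃ e : ℤ, (b : ℚ) = a * g ^ e := by
  classical
  unfold co
  exact Finset.mem_filter

/-- the part of `A` in long cosets has small digit entropies at a suitable prime -/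
theorem coset_lines (A : Finset ℤ) (hA0 : (0 : ℤ) ∉ A) (g : ℚ) (hg : g ≠ 0) (h1 : g ≠ 1)
    (h2 : g ≠ -1) (n : ℕ) (Y : Finset ℤ) (hY : ∀ a, a ∈ Y ↔ a ∈ A ∧ n < (co A g a).card) :
    ∃ p : ℕ, 2 ≤ p ∧ ∀ j, n * Fj p j Y ≤ Y.card * (1 + 2 * Real.log Y.card) := by
  classical
  obtain ⟨p, n0, α, β, h, hp, hn0, hα, hβ, hh, hhg⟩ := exists_form g hg h1 h2
  have hpZ : Prime (p : ℤ) := Nat.prime_iff_prime_int.1 hp
  have hh0 : h ≠ 0 := by
    rcases hhg with hhg | hhg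
    · rw [hhg]; exact hg
    · rw [hhg]; exact inv_ne_zero hg
  have hA : ∀ y ∈ A, y ≠ 0 := fun y hy h0 => hA0 (h0 ▸ hy)
  obtain ⟨I, hI⟩ : ∃ I : ℕ, I = A.sup (lidx p n0) := ⟨_, rfl⟩
  have hIle : ∀ y ∈ A, lidx p n0 y ≤ I := fun y hy => by rw [hI]; exact Finset.le_sup hy
  have hnat : ∀ y ∈ A, ∀ y' ∈ A, ∀ e : ℕ, (y : ℚ) = h ^ e * y' →
      lom p n0 α β I y = lom p n0 α β I y' := by
    intro y hy y' hy' e he
    refine lom_eq hp hn0 hα hβ I y y' (hA y hy) (hA y' hy') e (hIle y hy) ?_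
    have h2 : (y : ℚ) * (β : ℚ) ^ e = (p : ℚ) ^ (n0 * e) * (α : ℚ) ^ e * y' := by
      calc (y : ℚ) * (β : ℚ) ^ e = (h * β) ^ e * y' := by rw [he, mul_pow]; ring
        _ = (p : ℚ) ^ (n0 * e) * (α : ℚ) ^ e * y' := by rw [hh, mul_pow, pow_mul]
    exact_mod_cast h2
  have hcosh : ∀ y ∈ A, ∀ y' ∈ A, ∀ e : ℤ, (y : ℚ) = h ^ e * y' →
      lom p n0 α β I y = lom p n0 α β I y' := by
    intro y hy y' hy' e he
    obtain ⟨m, rfl | rfl⟩ := Int.eq_nat_or_neg e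
    · refine hnat y hy y' hy' m ?_
      rw [he, zpow_natCast]
    · refine (hnat y' hy' y hy m ?_).symm
      rw [he, zpow_neg, zpow_natCast, ← mul_assoc, mul_inv_cancel₀ (pow_ne_zero _ hh0), one_mul]
  have hcos : ∀ y ∈ A, ∀ y' ∈ A, ∀ e : ℤ, (y : ℚ) = y' * g ^ e →
      lom p n0 α β I y = lom p n0 α β I y' := by
    intro y hy y' hy' e he
    rcases hhg with hhg | hhg
    · refine hcosh y hy y' hy' e ?_
      rw [hhg, he]
      ring
    · refine hcosh y hy y' hy' (-e) ?_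
      rw [hhg, inv_zpow', neg_neg, he]
      ring
  obtain ⟨ω, hω⟩ : ∃ ω : ℤ → ℤ, ω = lom p n0 α β I := ⟨_, rfl⟩
  have hYA : Y ⊆ A := fun a ha => ((hY a).1 ha).1
  refine ⟨p, hp.two_le, fun j => ?_⟩
  have hlin := lines p hp.two_le Y n0 hn0 (lidx p n0) ω (fun y _ => lidx_dvd hp y)
    (fun y hy y' hy' ht => by
      unfold lidx
      rw [val_eq_of hp (hA y (hYA hy)) (hA y' (hYA hy')) ht])
    (fun y _ y' _ hid t => by
      rw [hω]
      exact lom_sub hp hα hβ I y y' hid t) j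
  have hcard : n * (Y.image ω).card ≤ Y.card := by
    rw [Finset.card_eq_sum_card_image ω Y, mul_comm, ← smul_eq_mul]
    refine Finset.card_nsmul_le_sum _ _ _ fun w hw => ?_
    obtain ⟨y, hy, hyw⟩ := Finset.mem_image.1 hw
    have hy' := (hY y).1 hy
    refine hy'.2.le.trans (Finset.card_le_card fun a ha => ?_)
    obtain ⟨haA, e, he⟩ := mem_co.1 ha
    rw [Finset.mem_filter]
    refine ⟨?_, ?_⟩
    · rw [hY]
      refine ⟨haA, hy'.2.trans_le (Finset.card_le_card fun b hb => ?_)⟩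
      obtain ⟨hbA, f, hf⟩ := mem_co.1 hb
      refine mem_co.2 ⟨hbA, f - e, ?_⟩
      rw [hf, he, zpow_sub₀ hg]
      have h3 : g ^ e ≠ 0 := zpow_ne_zero _ hg
      field_simp
    · rw [← hyw, hω]
      exact hcos a haA y hy'.1 e he
  have hcardR : (n : ℝ) * (Y.image ω).card ≤ Y.card := by exact_mod_cast hcard
  have hlog : 0 ≤ 1 + 2 * Real.log Y.card := by
    have := Real.log_natCast_nonneg Y.card
    linarith
  calc (n : ℝ) * Fj p j Y ≤ n * ((Y.image ω).card * (1 + 2 * Real.log Y.card)) :=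
        mul_le_mul_of_nonneg_left hlin (Nat.cast_nonneg n)
    _ = (n * (Y.image ω).card) * (1 + 2 * Real.log Y.card) := by ring
    _ ≤ Y.card * (1 + 2 * Real.log Y.card) := mul_le_mul_of_nonneg_right hcardR hlog

end Pool.Agent.Helper15.GL
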