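import Pool.Agent.Helper15.GL.Gibbs

set_option autoImplicit false

/-!
# Project GL (MP_120218), Lines: a set covered by few geometric lines has small digit entropies
-/

namespace Pool.Agent.Helper15.GL

open Finset

theorem dvd_of_sub {d a b : ℤ} (h : d ∣ a) : d ∣ b - a ↔ d ∣ b := by
  constructor
  · intro h1
    have := dvd_add h1 h
    rwa [sub_add_cancel] at this
  · intro h1
    exact dvd_sub h1 h

/-- `idx y` is the exponent and `ω y` (an integer) the base point of the line of `y`. -/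
theorem lines (p : ℕ) (hp : 2 ≤ p) (Y : Finset ℤ) (n0 : ℕ) (hn0 : 1 ≤ n0) (idx : ℤ → ℕ)
    (ω : ℤ → ℤ) (ha : ∀ y ∈ Y, (p : ℤ) ^ (n0 * idx y) ∣ y)
    (hb : ∀ y ∈ Y, ∀ y' ∈ Y, (∀ t : ℕ, (p : ℤ) ^ t ∣ y ↔ (p : ℤ) ^ t ∣ y') → idx y = idx y')
    (hc : ∀ y ∈ Y, ∀ y' ∈ Y, idx y = idx y' → ∀ t : ℕ,
      (p : ℤ) ^ (n0 * idx y + t) ∣ y - y' ↔ (p : ℤ) ^ t ∣ ω y - ω y') (j : ℕ) :
    Fj p j Y ≤ (Y.image ω).card * (1 + 2 * Real.log Y.card) := by
  classical
  -- injectivity
  have hinj : ∀ y ∈ Y, ∀ y' ∈ Y, idx y = idx y' → ω y = ω y' → y = y' := by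
    intro y hy y' hy' h1 h2
    by_contra hne
    have h3 : y - y' ≠ 0 := sub_ne_zero.2 hne
    have h4 := (hc y hy y' hy' h1 ((y - y').natAbs)).2 (by rw [h2, sub_self]; exact dvd_zero _)
    have h5 : (y - y').natAbs < p ^ (n0 * idx y + (y - y').natAbs) := by
      calc (y - y').natAbs < p ^ (y - y').natAbs := Nat.lt_pow_self (by omega)
        _ ≤ p ^ (n0 * idx y + (y - y').natAbs) := Nat.pow_le_pow_right (by omega) (by omega)
    have h6 : |y - y'| < (p : ℤ) ^ (n0 * idx y + (y - y').natAbs) := by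
      rw [Int.abs_eq_natAbs]
      exact_mod_cast h5
    exact h3 (Int.eq_zero_of_abs_lt_dvd h4 h6)
  obtain ⟨W, hW⟩ : ∃ W : Finset ℤ, W = Y.image ω := ⟨_, rfl⟩
  rw [← hW]
  have hWY : W.card ≤ Y.card := by rw [hW]; exact Finset.card_image_le
  rcases Y.eq_empty_or_nonempty with hY0 | hYne
  · rw [hY0]
    unfold Fj
    simp
  have hYc : (1 : ℝ) ≤ Y.card := by exact_mod_cast Finset.card_pos.2 hYne
  have hWne : W.Nonempty := by rw [hW]; exact hYne.image ω
  have hWc : (0 : ℝ) < W.card := by exact_mod_cast Finset.card_pos.2 hWne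
  have hlogY : 0 ≤ Real.log Y.card := Real.log_nonneg hYc
  have hlogW : Real.log W.card ≤ Real.log Y.card :=
    Real.log_le_log hWc (by exact_mod_cast hWY)
  obtain ⟨Z0, hZ0⟩ : ∃ Z : Finset ℤ, Z = Y.filter (fun y => (p : ℤ) ^ j ∣ y) := ⟨_, rfl⟩
  obtain ⟨Z1, hZ1⟩ : ∃ Z : Finset ℤ, Z = Y.filter (fun y => (p : ℤ) ^ (j + 1) ∣ y) := ⟨_, rfl⟩
  have hpp : (p : ℤ) ^ j ∣ (p : ℤ) ^ (j + 1) := pow_dvd_pow _ (Nat.le_succ j)
  have hZ10 : Z1 ⊆ Z0 := by
    intro y hy
    rw [hZ1, Finset.mem_filter] at hy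
    rw [hZ0, Finset.mem_filter]
    exact ⟨hy.1, hpp.trans hy.2⟩
  have hcls0 : ∀ y ∈ Z0, cls p j Y y = Z0 := by
    intro y hy
    rw [hZ0, Finset.mem_filter] at hy
    ext z
    rw [mem_cls, hZ0, Finset.mem_filter]
    exact and_congr_right fun _ => dvd_of_sub hy.2
  have hcls1 : ∀ y ∈ Z1, cls p (j + 1) Y y = Z1 := by
    intro y hy
    rw [hZ1, Finset.mem_filter] at hy
    ext z
    rw [mem_cls, hZ1, Finset.mem_filter]
    exact and_congr_right fun _ => dvd_of_sub hy.2
  -- elements of valuation `j`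
  have hEq : (Z0 \ Z1).card ≤ W.card := by
    rw [hW]
    refine Finset.card_le_card_of_injOn ω ?_ ?_
    · intro y hy
      have hy' := (Finset.mem_sdiff.1 (Finset.mem_coe.1 hy)).1
      rw [hZ0, Finset.mem_filter] at hy'
      exact Finset.mem_coe.2 (Finset.mem_image_of_mem ω hy'.1)
    · intro y hy y' hy' hω
      have h1 := Finset.mem_sdiff.1 (Finset.mem_coe.1 hy)
      have h2 := Finset.mem_sdiff.1 (Finset.mem_coe.1 hy')
      rw [hZ0, hZ1, Finset.mem_filter, Finset.mem_filter] at h1 h2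
      have h3 : ∀ t : ℕ, (p : ℤ) ^ t ∣ y ↔ (p : ℤ) ^ t ∣ y' := by
        intro t
        rcases le_or_gt t j with ht | ht
        · exact ⟨fun _ => (pow_dvd_pow _ ht).trans h2.1.2, fun _ =>
            (pow_dvd_pow _ ht).trans h1.1.2⟩
        · constructor
          · intro h
            exact absurd ⟨h1.1.1, (pow_dvd_pow _ ht).trans h⟩ h1.2
          · intro h
            exact absurd ⟨h2.1.1, (pow_dvd_pow _ ht).trans h⟩ h2.2
      exact hinj y h1.1.1 y' h2.1.1 (hb y h1.1.1 y' h2.1.1 h3) hω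
  have hEqR : ((Z0 \ Z1).card : ℝ) ≤ W.card := by exact_mod_cast hEq
  have hcardZ : ((Z0 \ Z1).card : ℝ) = Z0.card - Z1.card := by
    rw [Finset.card_sdiff_of_subset hZ10, Nat.cast_sub (Finset.card_le_card hZ10)]
  -- part 1
  have hP1 : ∑ y ∈ Z1, ell p j Y y ≤ W.card := by
    have h1 : ∀ y ∈ Z1, ell p j Y y = Real.log Z0.card - Real.log Z1.card := by
      intro y hy
      unfold ell
      rw [hcls0 y (hZ10 hy), hcls1 y hy]
    rw [Finset.sum_congr rfl h1, Finset.sum_const, nsmul_eq_mul]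
    rcases Z1.eq_empty_or_nonempty with h0 | h0
    · rw [h0]
      simp
    · have h2 : (0 : ℝ) < Z1.card := by exact_mod_cast Finset.card_pos.2 h0
      have h3 : (0 : ℝ) < Z0.card := by exact_mod_cast Finset.card_pos.2 (h0.mono hZ10)
      have h4 := Real.log_le_sub_one_of_pos (div_pos h3 h2)
      rw [Real.log_div h3.ne' h2.ne'] at h4
      have h5 := mul_le_mul_of_nonneg_left h4 h2.le
      have h6 : (Z1.card : ℝ) * (Z0.card / Z1.card - 1) = Z0.card - Z1.card := by
        field_simp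
      linarith
  -- part 2
  have hell : ∀ y ∈ Y, ell p j Y y ≤ Real.log Y.card := by
    intro y hy
    have h1 : ((cls p j Y y).card : ℝ) ≤ Y.card := by
      exact_mod_cast Finset.card_le_card (Finset.filter_subset _ _)
    have h2 : (0 : ℝ) < (cls p j Y y).card := by
      exact_mod_cast Finset.card_pos.2 (cls_nonempty hy)
    have h3 := Real.log_le_log h2 h1
    have h4 := Real.log_natCast_nonneg (cls p (j + 1) Y y).card
    unfold ell
    linarith
  have hP2 : ∑ y ∈ Z0 \ Z1, ell p j Y y ≤ W.card * Real.log Y.card := by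
    have h1 : ∑ y ∈ Z0 \ Z1, ell p j Y y ≤ ∑ y ∈ Z0 \ Z1, Real.log Y.card := by
      refine Finset.sum_le_sum fun y hy => hell y ?_
      have := (Finset.mem_sdiff.1 hy).1
      rw [hZ0, Finset.mem_filter] at this
      exact this.1
    rw [Finset.sum_const, nsmul_eq_mul] at h1
    exact h1.trans (mul_le_mul_of_nonneg_right hEqR hlogY)
  -- part 3
  obtain ⟨Y', hY'⟩ : ∃ Y' : Finset ℤ, Y' = Y.filter (fun y => ¬ (p : ℤ) ^ j ∣ y) := ⟨_, rfl⟩
  obtain ⟨V, hV⟩ : ∃ V : ℕ → Finset ℤ, V = fun i => (Y.filter (fun y => idx y = i)).image ω :=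
    ⟨_, rfl⟩
  have hVW : ∀ i, V i ⊆ W := by
    intro i
    rw [hV, hW]
    exact Finset.image_subset_image (Finset.filter_subset _ _)
  have hlt : ∀ y ∈ Y', n0 * idx y < j := by
    intro y hy
    rw [hY', Finset.mem_filter] at hy
    by_contra hge
    exact hy.2 ((pow_dvd_pow _ (not_lt.1 hge)).trans (ha y hy.1))
  -- classes of elements of `Y'`
  have hcl : ∀ y ∈ Y', ∀ i : ℕ, j ≤ i → (cls p i Y y).card =
      (cls p (i - n0 * idx y) (V (idx y)) (ω y)).card := by
    intro y hy i hi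
    have hlt' := hlt y hy
    have hyY : y ∈ Y ∧ ¬ (p : ℤ) ^ j ∣ y := by
      rw [hY', Finset.mem_filter] at hy
      exact hy
    have hei : n0 * idx y + (i - n0 * idx y) = i := by omega
    have hidx : ∀ z ∈ Y, (p : ℤ) ^ i ∣ z - y → idx y = idx z := by
      intro z hz hd
      refine hb y hyY.1 z hz fun t => ?_
      rcases le_or_gt t i with ht | ht
      · have h1 := (pow_dvd_pow (p : ℤ) ht).trans hd
        constructor
        · intro h
          have := dvd_add h1 h
          rwa [sub_add_cancel] at this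
        · intro h
          have := dvd_sub h h1
          rwa [sub_sub_cancel] at this
      · constructor
        · intro h
          exact absurd ((pow_dvd_pow _ (hi.trans ht.le)).trans h) hyY.2
        · intro h
          have h1 : (p : ℤ) ^ j ∣ z := (pow_dvd_pow _ (hi.trans ht.le)).trans h
          have h2 := dvd_sub h1 ((pow_dvd_pow _ hi).trans hd)
          rw [sub_sub_cancel] at h2
          exact absurd h2 hyY.2
    have himg : (cls p i Y y).image ω = cls p (i - n0 * idx y) (V (idx y)) (ω y) := by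
      ext w
      rw [Finset.mem_image, mem_cls]
      constructor
      · rintro ⟨z, hz, rfl⟩
        rw [mem_cls] at hz
        have h1 := hidx z hz.1 hz.2
        refine ⟨?_, ?_⟩
        · rw [hV]
          exact Finset.mem_image_of_mem ω (Finset.mem_filter.2 ⟨hz.1, h1.symm⟩)
        · have h2 := hc z hz.1 y hyY.1 h1.symm (i - n0 * idx y)
          rw [← h1, hei] at h2
          exact h2.1 hz.2
      · rintro ⟨hw, hd⟩
        rw [hV] at hw
        obtain ⟨z, hz, rfl⟩ := Finset.mem_image.1 hw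
        rw [Finset.mem_filter] at hz
        refine ⟨z, ?_, rfl⟩
        rw [mem_cls]
        refine ⟨hz.1, ?_⟩
        have h2 := hc z hz.1 y hyY.1 hz.2 (i - n0 * idx y)
        rw [hz.2, hei] at h2
        exact h2.2 hd
    rw [← himg, Finset.card_image_of_injOn]
    intro z hz z' hz' hω
    have h1 := mem_cls.1 (Finset.mem_coe.1 hz)
    have h2 := mem_cls.1 (Finset.mem_coe.1 hz')
    exact hinj z h1.1 z' h2.1 ((hidx z h1.1 h1.2).symm.trans (hidx z' h2.1 h2.2)) hω
  have hell' : ∀ y ∈ Y', ell p j Y y = ell p (j - n0 * idx y) (V (idx y)) (ω y) := by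
    intro y hy
    have h0 := hlt y hy
    have h1 := hcl y hy j le_rfl
    have h2 := hcl y hy (j + 1) (Nat.le_succ j)
    have h3 : j + 1 - n0 * idx y = j - n0 * idx y + 1 := by omega
    rw [h3] at h2
    unfold ell
    rw [h1, h2]
  have hP3 : ∑ y ∈ Y', ell p j Y y ≤ W.card * Real.log Y.card := by
    rw [Finset.sum_congr rfl hell']
    obtain ⟨T0, hT0⟩ : ∃ T : Finset ℕ, T = (Finset.range (j + 1)).filter (fun i => n0 * i < j) :=
      ⟨_, rfl⟩
    have hmaps : ∀ y ∈ Y', idx y ∈ T0 := by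
      intro y hy
      have h1 := hlt y hy
      rw [hT0, Finset.mem_filter, Finset.mem_range]
      refine ⟨?_, h1⟩
      have : 1 * idx y ≤ n0 * idx y := Nat.mul_le_mul_right _ hn0
      omega
    rw [← Finset.sum_fiberwise_of_maps_to hmaps]
    have hone : ∀ i ∈ T0, ∑ y ∈ Y' with idx y = i,
        ell p (j - n0 * idx y) (V (idx y)) (ω y) ≤ ∑ w ∈ W, ell p (j - n0 * i) W w := by
      intro i _
      have e1 : ∑ y ∈ Y' with idx y = i, ell p (j - n0 * idx y) (V (idx y)) (ω y) =
          ∑ y ∈ Y' with idx y = i, ell p (j - n0 * i) (V i) (ω y) := by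
        refine Finset.sum_congr rfl fun y hy => ?_
        rw [(Finset.mem_filter.1 hy).2]
      have hsubY : ∀ y ∈ Y'.filter (fun y => idx y = i), y ∈ Y ∧ idx y = i := by
        intro y hy
        rw [Finset.mem_filter, hY', Finset.mem_filter] at hy
        exact ⟨hy.1.1, hy.2⟩
      have e2 : ∑ y ∈ Y' with idx y = i, ell p (j - n0 * i) (V i) (ω y) =
          ∑ w ∈ (Y'.filter (fun y => idx y = i)).image ω, ell p (j - n0 * i) (V i) w := by
        rw [Finset.sum_image]
        intro y hy y' hy' hω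
        have h1 := hsubY y (Finset.mem_coe.1 hy)
        have h2 := hsubY y' (Finset.mem_coe.1 hy')
        exact hinj y h1.1 y' h2.1 (h1.2.trans h2.2.symm) hω
      have hsub : (Y'.filter (fun y => idx y = i)).image ω ⊆ V i := by
        rw [hV]
        refine Finset.image_subset_image fun y hy => ?_
        have h1 := hsubY y hy
        exact Finset.mem_filter.2 h1
      have e3 : ∑ w ∈ (Y'.filter (fun y => idx y = i)).image ω, ell p (j - n0 * i) (V i) w ≤
          ∑ w ∈ V i, ell p (j - n0 * i) (V i) w :=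
        Finset.sum_le_sum_of_subset_of_nonneg hsub fun w hw _ => ell_nonneg _ _ _ _ hw
      have e4 := ell_mono p (j - n0 * i) (V i) W (hVW i)
      have e5 : ∑ w ∈ V i, ell p (j - n0 * i) W w ≤ ∑ w ∈ W, ell p (j - n0 * i) W w :=
        Finset.sum_le_sum_of_subset_of_nonneg (hVW i) fun w hw _ => ell_nonneg _ _ _ _ hw
      rw [e1, e2]
      exact e3.trans (e4.trans e5)
    refine (Finset.sum_le_sum hone).trans ?_
    rw [Finset.sum_comm]
    have htwo : ∀ w ∈ W, ∑ i ∈ T0, ell p (j - n0 * i) W w ≤ Real.log Y.card := by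
      intro w hw
      have e1 : ∑ i ∈ T0, ell p (j - n0 * i) W w =
          ∑ t ∈ T0.image (fun i => j - n0 * i), ell p t W w := by
        rw [Finset.sum_image]
        intro i hi i' hi' h
        rw [hT0] at hi hi'
        have h1 := (Finset.mem_filter.1 (Finset.mem_coe.1 hi)).2
        have h2 := (Finset.mem_filter.1 (Finset.mem_coe.1 hi')).2
        have h3 : n0 * i = n0 * i' := by
          have h' : j - n0 * i = j - n0 * i' := h
          omega
        exact Nat.eq_of_mul_eq_mul_left (by omega) h3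
      rw [e1]
      exact (sum_ell_le p W w hw _).trans hlogW
    refine (Finset.sum_le_sum htwo).trans (le_of_eq ?_)
    rw [Finset.sum_const, nsmul_eq_mul]
  have hsplit : Fj p j Y = (∑ y ∈ Z1, ell p j Y y + ∑ y ∈ Z0 \ Z1, ell p j Y y) +
      ∑ y ∈ Y', ell p j Y y := by
    unfold Fj
    have e1 : ∑ y ∈ Z1, ell p j Y y + ∑ y ∈ Z0 \ Z1, ell p j Y y = ∑ y ∈ Z0, ell p j Y y := by
      rw [add_comm]
      exact Finset.sum_sdiff hZ10
    rw [e1, hZ0, hY']
    exact (Finset.sum_filter_add_sum_filter_not Y _ _).symm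
  rw [hsplit]
  linarith

end Pool.Agent.Helper15.GL
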