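import Pool.Agent.Helper15.GL.Final

set_option autoImplicit false

/-!
# Project GL (MP_120218), Main: part (1) of the theorem
-/

namespace Pool.Agent.Helper15.GL

open Finset

theorem zpow_one_cases (e : ℤ) : ((-1 : ℚ)) ^ e = 1 ∨ ((-1 : ℚ)) ^ e = -1 := by
  rcases Int.even_or_odd e with h | h
  · exact Or.inl (Even.neg_one_zpow h)
  · exact Or.inr (Odd.neg_one_zpow h)

/-- few products with powers of `1` or `-1` -/
theorem prd_unit (A : Finset ℤ) (g : ℚ) (hg : g = 1 ∨ g = -1) (P : Finset ℚ)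
    (hP : ∀ s ∈ P, ∃ e : ℤ, s = g ^ e) : A.card * P.card ≤ 2 * (prd A P).card := by
  classical
  have hmem : ∀ s ∈ P, s = 1 ∨ s = -1 := by
    intro s hs
    obtain ⟨e, he⟩ := hP s hs
    rcases hg with hg | hg
    · left
      rw [he, hg, one_zpow]
    · rw [he, hg]
      exact zpow_one_cases e
  have hP2 : P.card ≤ 2 := by
    have hsub : P ⊆ {1, -1} := by
      intro s hs
      rw [Finset.mem_insert, Finset.mem_singleton]
      exact hmem s hs
    exact (Finset.card_le_card hsub).trans Finset.card_le_two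
  rcases P.eq_empty_or_nonempty with h0 | ⟨s, hs⟩
  · rw [h0, Finset.card_empty, mul_zero]
    exact Nat.zero_le _
  · have hA : A.card ≤ (prd A P).card := by
      have hs0 : s ≠ 0 := by
        rcases hmem s hs with h | h
        · rw [h]; norm_num
        · rw [h]; norm_num
      refine Finset.card_le_card_of_injOn (fun a : ℤ => (a : ℚ) * s) ?_ ?_
      · intro a ha
        exact Finset.mem_coe.2 (Finset.mem_image₂_of_mem (Finset.mem_coe.1 ha) hs)
      · intro a _ a' _ h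
        have := mul_right_cancel₀ hs0 h
        exact_mod_cast this
    calc A.card * P.card ≤ (prd A P).card * 2 := Nat.mul_le_mul hA hP2
      _ = 2 * (prd A P).card := mul_comm _ _

theorem fin_bound (N w T D p q : ℝ) (hp : 0 ≤ p) (hw : w + 1 ≤ N / 2)
    (h : N * p ≤ (w + 1) * p + T * q) (hTD : 2 * T ≤ D) (hq : 0 ≤ q) : N * p ≤ D * q := by
  nlinarith

/-- **Theorem GL, part (1).** -/
theorem main (k : ℕ) (ε b : ℝ) (hε : 0 < ε) : ∃ C c : ℝ, 0 < C ∧ 0 < c ∧
    ∀ A X : Finset ℤ, A.Nonempty → X.Nonempty → (X.card : ℝ) ≤ (A.card : ℝ) ^ b →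
      c * X.card * (A.card : ℝ) ^ ((k : ℝ) - ε) ≤ (sk k X A).card ∨
      ((∀ g : ℚ, g ≠ 0 → g ≠ 1 → g ≠ -1 →
          (({a : ℤ | a ∈ A ∧ C * Real.log A.card <
            (({b : ℤ | b ∈ A ∧ ∃ e : ℤ, (b : ℚ) = a * g ^ e}.ncard : ℕ) : ℝ)}.ncard : ℕ) : ℝ) ≤
              (A.card : ℝ) ^ (1 - c)) ∧
       (∀ (r : ℕ) (g : Fin r → ℚ) (P : Finset ℚ), 1 ≤ r → (∀ i, g i ≠ 0) →
          (∀ s ∈ P, ∃ e : Fin r → ℤ, s = ∏ i, g i ^ e i) → (P.card : ℝ) ≤ (A.card : ℝ) ^ c →
          ∀ Z : Finset ℚ, (∀ z ∈ Z, (C * Real.log A.card) ^ r < (rich A P z).card) →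
            (Z.card : ℝ) ≤ (A.card : ℝ) ^ (1 - c)) ∧
       (∀ (r : ℕ) (g : Fin r → ℚ) (P : Finset ℚ), 1 ≤ r → (∀ i, g i ≠ 0) →
          (∀ s ∈ P, ∃ e : Fin r → ℤ, s = ∏ i, g i ^ e i) →
          (r = 1 ∨ (P.card : ℝ) ≤ (A.card : ℝ) ^ c) →
          (A.card : ℝ) * P.card ≤ (C * Real.log A.card) ^ r * (prd A P).card) ∧
       (∀ g : ℚ, g ≠ 0 → g ≠ 1 → g ≠ -1 →
          (A.card : ℝ) ≤ C * Real.log A.card * (leav A g).card)) := by
  classical
  obtain ⟨η, hη, hη1, hlarge⟩ := sk_large k ε b hε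
  obtain ⟨C1, c1, N1, hC1, hc1, hc11, hN1, hd1⟩ := grow_line η hη hη1
  obtain ⟨C2, c2, N2, hC2, hc2, hc21, hN2, hd2⟩ := dich_rank η hη hη1
  obtain ⟨c, hc⟩ : ∃ c : ℝ, c = min c1 c2 := ⟨_, rfl⟩
  have hc0 : 0 < c := by rw [hc]; exact lt_min hc1 hc2
  have hcc1 : c ≤ c1 := by rw [hc]; exact min_le_left _ _
  have hcc2 : c ≤ c2 := by rw [hc]; exact min_le_right _ _
  obtain ⟨N0, hN0d⟩ : ∃ N0 : ℝ, N0 = N1 + N2 + Real.exp 1 + Real.exp (3 * Real.log 2 / c) :=
    ⟨_, rfl⟩
  have hN0 : 1 ≤ N0 := by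
    rw [hN0d]
    have h1 := Real.exp_pos (3 * Real.log 2 / c)
    have h2 := Real.exp_pos 1
    linarith
  have hN0p : (0 : ℝ) < N0 ^ k := by positivity
  have hN0k : (1 : ℝ) ≤ N0 ^ k := one_le_pow₀ hN0
  obtain ⟨C, hCd⟩ : ∃ C : ℝ, C = 2 * (C1 + C2 + 1) := ⟨_, rfl⟩
  have hC : 0 < C := by rw [hCd]; positivity
  refine ⟨C, min c (1 / N0 ^ k), hC, lt_min hc0 (by positivity), ?_⟩
  intro A X hA hX hXb
  have hA1 : (1 : ℝ) ≤ A.card := by exact_mod_cast hA.card_pos
  have hA0 : (0 : ℝ) < A.card := by linarith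
  have hX1 : (1 : ℝ) ≤ X.card := by exact_mod_cast hX.card_pos
  have ha : 0 ≤ Real.log A.card := Real.log_nonneg hA1
  have hc' : min c (1 / N0 ^ k) ≤ 1 / N0 ^ k := min_le_right _ _
  have hc'' : min c (1 / N0 ^ k) ≤ c := min_le_left _ _
  obtain ⟨d, hdd⟩ : ∃ d : ℝ, d = min c (1 / N0 ^ k) := ⟨_, rfl⟩
  have hd0 : 0 < d := by rw [hdd]; exact lt_min hc0 (by positivity)
  rw [← hdd] at hc' hc'' ⊢
  by_cases hG : Grows η A
  · left
    have h1 := hlarge A X hA hX hXb hG
    have h2 : d ≤ 1 := hc'.trans (by rw [div_le_one hN0p]; exact hN0k)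
    have h3 : 0 ≤ (X.card : ℝ) * (A.card : ℝ) ^ ((k : ℝ) - ε) := by positivity
    calc d * X.card * (A.card : ℝ) ^ ((k : ℝ) - ε) =
          d * (X.card * (A.card : ℝ) ^ ((k : ℝ) - ε)) := by ring
      _ ≤ 1 * (X.card * (A.card : ℝ) ^ ((k : ℝ) - ε)) := mul_le_mul_of_nonneg_right h2 h3
      _ ≤ _ := by rw [one_mul]; exact h1
  by_cases hAN : N0 ≤ A.card
  · right
    have he1 := Real.exp_pos 1
    have he2 := Real.exp_pos (3 * Real.log 2 / c)
    have hAN1 : N1 ≤ A.card := by linarith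
    have hAN2 : N2 ≤ A.card := by linarith
    have hlog1 : 1 ≤ Real.log A.card := by
      rw [Real.le_log_iff_exp_le hA0]
      linarith
    have hlog3 : 3 * Real.log 2 ≤ c * Real.log A.card := by
      have h1 : 3 * Real.log 2 / c ≤ Real.log A.card := by
        rw [Real.le_log_iff_exp_le hA0]
        linarith
      rw [div_le_iff₀ hc0] at h1
      linarith
    have hlog2 : 0 < Real.log 2 := Real.log_pos (by norm_num)
    -- powers
    have hw : ∀ c' : ℝ, c ≤ c' → (A.card : ℝ) ^ (1 - c') + 1 ≤ A.card / 2 := by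
      intro c' hc'
      have h1 : (A.card : ℝ) ^ (1 - c') ≤ (A.card : ℝ) ^ (1 - c) :=
        Real.rpow_le_rpow_of_exponent_le hA1 (by linarith)
      have h2 : 8 * (A.card : ℝ) ^ (1 - c) ≤ A.card := by
        have h3 : (8 : ℝ) ≤ (A.card : ℝ) ^ c := by
          rw [← Real.log_le_log_iff (by norm_num) (Real.rpow_pos_of_pos hA0 _),
            Real.log_rpow hA0, show (8 : ℝ) = 2 ^ 3 by norm_num, Real.log_pow]
          push_cast
          linarith
        have h4 : (A.card : ℝ) = (A.card : ℝ) ^ c * (A.card : ℝ) ^ (1 - c) := by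
          rw [← Real.rpow_add hA0]
          have : c + (1 - c) = 1 := by ring
          rw [this, Real.rpow_one]
        calc 8 * (A.card : ℝ) ^ (1 - c) ≤ (A.card : ℝ) ^ c * (A.card : ℝ) ^ (1 - c) :=
              mul_le_mul_of_nonneg_right h3 (Real.rpow_nonneg hA0.le _)
          _ = A.card := h4.symm
      have h5 : (1 : ℝ) ≤ (A.card : ℝ) ^ (1 - c) := by
        refine Real.one_le_rpow hA1 ?_
        linarith
      linarith
    have hCle : ∀ C' : ℝ, 0 ≤ C' → C' ≤ C1 + C2 + 1 → ∀ r : ℕ, 1 ≤ r →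
        2 * (C' * Real.log A.card) ^ r ≤ (C * Real.log A.card) ^ r := by
      intro C' hC'0 hC' r hr
      have h4 : (2 : ℝ) ≤ 2 ^ r := by
        calc (2 : ℝ) = 2 ^ 1 := by norm_num
          _ ≤ 2 ^ r := pow_le_pow_right₀ (by norm_num) hr
      calc 2 * (C' * Real.log A.card) ^ r ≤ 2 ^ r * (C' * Real.log A.card) ^ r :=
            mul_le_mul_of_nonneg_right h4 (by positivity)
        _ = (2 * C' * Real.log A.card) ^ r := by
            rw [← mul_pow]
            ring
        _ ≤ (C * Real.log A.card) ^ r := by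
            refine pow_le_pow_left₀ (by positivity) ?_ r
            refine mul_le_mul_of_nonneg_right ?_ ha
            rw [hCd]
            linarith
    have hpd : (A.card : ℝ) ^ (1 - c) ≤ (A.card : ℝ) ^ (1 - d) :=
      Real.rpow_le_rpow_of_exponent_le hA1 (by linarith)
    -- long cosets
    have hlong : ∀ g : ℚ, g ≠ 0 → g ≠ 1 → g ≠ -1 →
        ((long A g (C1 * Real.log A.card)).card : ℝ) ≤ (A.card : ℝ) ^ (1 - c1) := by
      intro g hg0 hg1 hgm
      by_contra hcon
      exact hG (hd1 A g _ hAN1 hg0 hg1 hgm (fun a haY => mem_long.1 haY) (not_le.1 hcon))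
    have hfirst : ∀ g : ℚ, g ≠ 0 → g ≠ 1 → g ≠ -1 →
        (({a : ℤ | a ∈ A ∧ C * Real.log A.card <
          (({b : ℤ | b ∈ A ∧ ∃ e : ℤ, (b : ℚ) = a * g ^ e}.ncard : ℕ) : ℝ)}.ncard : ℕ) : ℝ) ≤
            (A.card : ℝ) ^ (1 - d) := by
      intro g hg0 hg1 hgm
      have hco : ∀ a : ℤ, {b : ℤ | b ∈ A ∧ ∃ e : ℤ, (b : ℚ) = a * g ^ e}.ncard =
          (co A g a).card := by
        intro a
        rw [← Set.ncard_coe_finset]
        congr 1
        ext b
        rw [Finset.mem_coe, mem_co]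
        exact Iff.rfl
      have h1 : {a : ℤ | a ∈ A ∧ C * Real.log A.card <
          (({b : ℤ | b ∈ A ∧ ∃ e : ℤ, (b : ℚ) = a * g ^ e}.ncard : ℕ) : ℝ)} ⊆
          (long A g (C1 * Real.log A.card) : Set ℤ) := by
        rintro a ⟨haA, hca⟩
        rw [hco a] at hca
        refine Finset.mem_coe.2 (mem_long.2 ⟨haA, lt_of_le_of_lt ?_ hca⟩)
        refine mul_le_mul_of_nonneg_right ?_ ha
        rw [hCd]
        linarith
      have h2 := Set.ncard_le_ncard h1 (Finset.finite_toSet _)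
      rw [Set.ncard_coe_finset] at h2
      have h3 : (({a : ℤ | a ∈ A ∧ C * Real.log A.card <
          (({b : ℤ | b ∈ A ∧ ∃ e : ℤ, (b : ℚ) = a * g ^ e}.ncard : ℕ) : ℝ)}.ncard : ℕ) : ℝ) ≤
          (long A g (C1 * Real.log A.card)).card := by exact_mod_cast h2
      refine h3.trans ((hlong g hg0 hg1 hgm).trans ?_)
      exact Real.rpow_le_rpow_of_exponent_le hA1 (by linarith)
    -- rank `r`
    have hsecond : ∀ (r : ℕ) (g : Fin r → ℚ) (P : Finset ℚ), 1 ≤ r → (∀ i, g i ≠ 0) →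
        (∀ s ∈ P, ∃ e : Fin r → ℤ, s = ∏ i, g i ^ e i) → (P.card : ℝ) ≤ (A.card : ℝ) ^ d →
        ∀ Z : Finset ℚ, (∀ z ∈ Z, (C2 * Real.log A.card) ^ r < (rich A P z).card) →
          (Z.card : ℝ) ≤ (A.card : ℝ) ^ (1 - c2) := by
      intro r g P hr hg hP hPc Z hZ
      refine (hd2 A r g P Z hAN2 hr hg hP ?_ hZ).resolve_left hG
      exact hPc.trans (Real.rpow_le_rpow_of_exponent_le hA1 (by linarith))
    have hthird : ∀ (r : ℕ) (g : Fin r → ℚ) (P : Finset ℚ), 1 ≤ r → (∀ i, g i ≠ 0) →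
        (∀ s ∈ P, ∃ e : Fin r → ℤ, s = ∏ i, g i ^ e i) →
        (r = 1 ∨ (P.card : ℝ) ≤ (A.card : ℝ) ^ d) →
        (A.card : ℝ) * P.card ≤ (C * Real.log A.card) ^ r * (prd A P).card := by
      intro r g P hr hg hP hrP
      have hP0 : ∀ s ∈ P, s ≠ 0 := by
        intro s hs
        obtain ⟨e, he⟩ := hP s hs
        rw [he]
        exact Finset.prod_ne_zero_iff.2 fun i _ => zpow_ne_zero _ (hg i)
      rcases hrP with hr1 | hPc
      · subst hr1
        have hP1 : ∀ s ∈ P, ∃ e : ℤ, s = g 0 ^ e := by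
          intro s hs
          obtain ⟨e, he⟩ := hP s hs
          refine ⟨e 0, ?_⟩
          rw [he, Fin.prod_univ_one]
        by_cases hg1 : g 0 = 1 ∨ g 0 = -1
        · have h1 : (A.card : ℝ) * P.card ≤ 2 * (prd A P).card := by
            exact_mod_cast prd_unit A (g 0) hg1 P hP1
          refine h1.trans (mul_le_mul_of_nonneg_right ?_ (Nat.cast_nonneg _))
          rw [pow_one, hCd]
          nlinarith
        · push Not at hg1
          have h1 := prd_coset A (g 0) (hg 0) P hP1 (C1 * Real.log A.card) (by positivity)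
          have h2 := hlong (g 0) (hg 0) hg1.1 hg1.2
          refine fin_bound (A.card : ℝ) ((A.card : ℝ) ^ (1 - c1)) (C1 * Real.log A.card) _ _ _
            (Nat.cast_nonneg _) (hw c1 hcc1) ?_ ?_ (Nat.cast_nonneg _)
          · refine h1.trans ?_
            have hP00 : (0 : ℝ) ≤ P.card := Nat.cast_nonneg _
            nlinarith
          · have := hCle C1 hC1.le (by linarith) 1 le_rfl
            rwa [pow_one] at this
      · have h1 := prd_rank A P hP0 ((C2 * Real.log A.card) ^ r) (by positivity)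
          ((A.card : ℝ) ^ (1 - c2)) (fun Z hZ => hsecond r g (P.image (fun s => s⁻¹)) hr hg ?_ ?_
            Z hZ)
        · exact fin_bound (A.card : ℝ) ((A.card : ℝ) ^ (1 - c2)) _ _ _ _
            (Nat.cast_nonneg _) (hw c2 hcc2) h1 (hCle C2 hC2.le (by linarith) r hr)
            (Nat.cast_nonneg _)
        · intro t ht
          obtain ⟨s, hs, rfl⟩ := Finset.mem_image.1 ht
          obtain ⟨e, he⟩ := hP s hs
          refine ⟨fun i => -e i, ?_⟩
          rw [he, ← Finset.prod_inv_distrib]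
          exact Finset.prod_congr rfl fun i _ => by rw [zpow_neg]
        · have h2 : ((P.image (fun s => s⁻¹)).card : ℝ) ≤ P.card := by
            exact_mod_cast Finset.card_image_le
          exact h2.trans hPc
    refine ⟨hfirst, fun r g P hr hg hP hPc Z hZ => ?_, hthird, fun g hg0 hg1 hgm => ?_⟩
    · refine (hsecond r g P hr hg hP hPc Z fun z hz => lt_of_le_of_lt ?_ (hZ z hz)).trans
        (Real.rpow_le_rpow_of_exponent_le hA1 (by linarith))
      refine pow_le_pow_left₀ (by positivity) ?_ r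
      refine mul_le_mul_of_nonneg_right ?_ ha
      rw [hCd]
      linarith
    by_contra hcon
    rw [not_le] at hcon
    obtain ⟨G, hGd⟩ : ∃ G : ℝ, G = ((leav A g).card : ℝ) := ⟨_, rfl⟩
    rw [← hGd] at hcon
    have hall : ∀ L : ℕ, (A.card : ℝ) * (L + 1) ≤ (C * Real.log A.card) * (A.card + L * G) := by
      intro L
      have h1 := hthird 1 (fun _ => g) ((Finset.range (L + 1)).image (fun i : ℕ => g ^ i)) le_rfl
        (fun _ => hg0) (by
          intro s hs
          obtain ⟨i, _, rfl⟩ := Finset.mem_image.1 hs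
          refine ⟨fun _ => (i : ℤ), ?_⟩
          rw [Fin.prod_univ_one, zpow_natCast]) (Or.inl rfl)
      have h2 : ((Finset.range (L + 1)).image (fun i : ℕ => g ^ i)).card = L + 1 := by
        rw [Finset.card_image_of_injective, Finset.card_range]
        intro i j hij
        have hij' : g ^ i = g ^ j := hij
        have h3 : |g| ^ i = |g| ^ j := by rw [← abs_pow, hij', abs_pow]
        refine pow_right_injective₀ (abs_pos.2 hg0) ?_ h3
        intro h4
        rcases abs_choice g with h5 | h5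
        · rw [h5] at h4; exact hg1 h4
        · rw [h5] at h4; exact hgm (by linarith)
      rw [h2, pow_one] at h1
      push_cast at h1
      refine h1.trans (mul_le_mul_of_nonneg_left ?_ (by positivity))
      rw [hGd]
      exact_mod_cast prd_pow A g L
    obtain ⟨L, hL⟩ := exists_nat_gt ((C * Real.log A.card) * A.card /
      (A.card - C * Real.log A.card * G))
    have hpos : 0 < A.card - C * Real.log A.card * G := by linarith
    rw [div_lt_iff₀ hpos] at hL
    have h3 := hall L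
    nlinarith
  · left
    rw [not_le] at hAN
    have h1 : (X.card : ℝ) ≤ (sk k X A).card := by exact_mod_cast le_sk k X A hA
    have h2 : (A.card : ℝ) ^ ((k : ℝ) - ε) ≤ N0 ^ k := by
      calc (A.card : ℝ) ^ ((k : ℝ) - ε) ≤ (A.card : ℝ) ^ (k : ℝ) :=
            Real.rpow_le_rpow_of_exponent_le hA1 (by linarith)
        _ = (A.card : ℝ) ^ k := Real.rpow_natCast _ _
        _ ≤ N0 ^ k := pow_le_pow_left₀ (by linarith) hAN.le k
    have h3 : d * (A.card : ℝ) ^ ((k : ℝ) - ε) ≤ 1 := by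
      calc d * (A.card : ℝ) ^ ((k : ℝ) - ε) ≤ (1 / N0 ^ k) * N0 ^ k :=
            mul_le_mul hc' h2 (by positivity) (by positivity)
        _ = 1 := by field_simp
    calc d * X.card * (A.card : ℝ) ^ ((k : ℝ) - ε) =
          X.card * (d * (A.card : ℝ) ^ ((k : ℝ) - ε)) := by ring
      _ ≤ X.card * 1 := mul_le_mul_of_nonneg_left h3 (by linarith)
      _ ≤ _ := by rw [mul_one]; exact h1

end Pool.Agent.Helper15.GL
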