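import Mathlib

set_option autoImplicit false

/-!
# Project GL (MP_120218), Node: entropy of a convolution

For every `η > 0` there is `K` such that for all finite commutative groups `G` and probability
weights `f, g` on `G` the entropy of `f * g` is at least
`(1 - η) (H(f) + H(g)) - K H(f) H(g)`.
-/

namespace Pool.Agent.Helper15.GL

open Finset

/-- entropy of a weight function on a finite type -/
noncomputable def ent {α : Type} [Fintype α] (f : α → ℝ) : ℝ := ∑ a, Real.negMulLog (f a)

variable {G : Type} [Fintype G] [AddCommGroup G]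

/-- convolution -/
noncomputable def conv (f g : G → ℝ) (z : G) : ℝ := ∑ a, f a * g (z - a)

theorem conv_nonneg (f g : G → ℝ) (hf : ∀ a, 0 ≤ f a) (hg : ∀ a, 0 ≤ g a) (z : G) :
    0 ≤ conv f g z := Finset.sum_nonneg fun a _ => mul_nonneg (hf a) (hg _)

theorem conv_comm (f g : G → ℝ) : conv f g = conv g f := by
  funext z
  unfold conv
  rw [← Equiv.sum_comp (Equiv.subLeft z)]
  refine Finset.sum_congr rfl fun a _ => ?_
  simp only [Equiv.subLeft_apply]
  rw [sub_sub_cancel, mul_comm]

theorem sum_conv_mul (f g : G → ℝ) (F : G → ℝ) :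
    ∑ z, conv f g z * F z = ∑ a, ∑ b, f a * g b * F (a + b) := by
  unfold conv
  calc ∑ z, (∑ a, f a * g (z - a)) * F z = ∑ z, ∑ a, f a * g (z - a) * F z := by
        refine Finset.sum_congr rfl fun z _ => ?_
        rw [Finset.sum_mul]
    _ = ∑ a, ∑ z, f a * g (z - a) * F z := Finset.sum_comm
    _ = ∑ a, ∑ b, f a * g b * F (a + b) := by
        refine Finset.sum_congr rfl fun a _ => ?_
        rw [← Equiv.sum_comp (Equiv.addLeft a)]
        refine Finset.sum_congr rfl fun b _ => ?_
        simp only [Equiv.coe_addLeft, add_sub_cancel_left]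

theorem sum_conv (f g : G → ℝ) : ∑ z, conv f g z = (∑ a, f a) * ∑ b, g b := by
  have h := sum_conv_mul f g (fun _ => 1)
  simp only [mul_one] at h
  rw [h, Finset.sum_mul_sum]

/-- A code `W` for the pair `(a, b)` given `a + b` bounds the loss of entropy. -/
theorem code_bound (f g : G → ℝ) (hf : ∀ a, 0 ≤ f a) (hg : ∀ a, 0 ≤ g a) (hf1 : ∑ a, f a = 1)
    (hg1 : ∑ a, g a = 1) (W : G → G → ℝ) (hW : ∀ a b, 0 < f a → 0 < g b → 0 < W a b)
    (hW0 : ∀ a b, 0 ≤ W a b) (hK : ∀ z, ∑ a, W a (z - a) ≤ 1) :
    ent f + ent g - ent (conv f g) ≤ ∑ a, ∑ b, f a * g b * (-Real.log (W a b)) := by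
  classical
  have h1 : ∀ a b, f a * g b * (Real.log (conv f g (a + b)) + Real.log (W a b) -
      Real.log (f a) - Real.log (g b)) ≤ conv f g (a + b) * W a b - f a * g b := by
    intro a b
    rcases eq_or_lt_of_le (hf a) with ha | ha
    · rw [← ha]
      simp only [zero_mul, sub_zero]
      exact mul_nonneg (conv_nonneg f g hf hg _) (hW0 a b)
    rcases eq_or_lt_of_le (hg b) with hb | hb
    · rw [← hb]
      simp only [zero_mul, mul_zero, sub_zero]
      exact mul_nonneg (conv_nonneg f g hf hg _) (hW0 a b)
    have hw := hW a b ha hb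
    have hq : 0 < conv f g (a + b) := by
      unfold conv
      refine lt_of_lt_of_le (mul_pos ha hb) ?_
      have := Finset.single_le_sum (f := fun c => f c * g (a + b - c))
        (fun c _ => mul_nonneg (hf c) (hg _)) (Finset.mem_univ a)
      simpa only [add_sub_cancel_left] using this
    have h2 : Real.log (conv f g (a + b)) + Real.log (W a b) - Real.log (f a) - Real.log (g b) =
        Real.log (conv f g (a + b) * W a b / (f a * g b)) := by
      rw [Real.log_div (by positivity) (by positivity), Real.log_mul hq.ne' hw.ne',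
        Real.log_mul ha.ne' hb.ne']
      ring
    rw [h2]
    have h3 := Real.log_le_sub_one_of_pos
      (show 0 < conv f g (a + b) * W a b / (f a * g b) by positivity)
    calc f a * g b * Real.log (conv f g (a + b) * W a b / (f a * g b))
        ≤ f a * g b * (conv f g (a + b) * W a b / (f a * g b) - 1) :=
          mul_le_mul_of_nonneg_left h3 (by positivity)
      _ = conv f g (a + b) * W a b - f a * g b := by
          field_simp
  have h2 : ∑ a, ∑ b, f a * g b * (Real.log (conv f g (a + b)) + Real.log (W a b) -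
      Real.log (f a) - Real.log (g b)) ≤ ∑ a, ∑ b, (conv f g (a + b) * W a b - f a * g b) :=
    Finset.sum_le_sum fun a _ => Finset.sum_le_sum fun b _ => h1 a b
  have h3 : ∑ a, ∑ b, (conv f g (a + b) * W a b - f a * g b) ≤ 0 := by
    have e1 : ∑ a, ∑ b, (conv f g (a + b) * W a b - f a * g b) =
        ∑ a, ∑ b, conv f g (a + b) * W a b - ∑ a, ∑ b, f a * g b := by
      rw [← Finset.sum_sub_distrib]
      refine Finset.sum_congr rfl fun a _ => ?_
      rw [Finset.sum_sub_distrib]
    have e2 : ∑ a, ∑ b, f a * g b = 1 := by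
      rw [← Finset.sum_mul_sum, hf1, hg1, one_mul]
    have e3 : ∑ a, ∑ b, conv f g (a + b) * W a b = ∑ z, conv f g z * ∑ a, W a (z - a) := by
      calc ∑ a, ∑ b, conv f g (a + b) * W a b = ∑ a, ∑ z, conv f g z * W a (z - a) := by
            refine Finset.sum_congr rfl fun a _ => ?_
            rw [← Equiv.sum_comp (Equiv.addLeft a) (fun z => conv f g z * W a (z - a))]
            refine Finset.sum_congr rfl fun b _ => ?_
            simp only [Equiv.coe_addLeft, add_sub_cancel_left]
        _ = ∑ z, ∑ a, conv f g z * W a (z - a) := Finset.sum_comm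
        _ = _ := by
            refine Finset.sum_congr rfl fun z _ => ?_
            rw [Finset.mul_sum]
    have e4 : ∑ z, conv f g z * ∑ a, W a (z - a) ≤ ∑ z, conv f g z :=
      Finset.sum_le_sum fun z _ => mul_le_of_le_one_right (conv_nonneg f g hf hg z) (hK z)
    rw [sum_conv, hf1, hg1, one_mul] at e4
    rw [e1, e2, e3]
    linarith
  have h4 : ∑ a, ∑ b, f a * g b * (Real.log (conv f g (a + b)) + Real.log (W a b) -
      Real.log (f a) - Real.log (g b)) = -ent (conv f g) -
        (∑ a, ∑ b, f a * g b * (-Real.log (W a b))) + ent f + ent g := by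
    have e1 : -ent (conv f g) = ∑ a, ∑ b, f a * g b * Real.log (conv f g (a + b)) := by
      rw [← sum_conv_mul f g (fun z => Real.log (conv f g z))]
      unfold ent Real.negMulLog
      rw [← Finset.sum_neg_distrib]
      refine Finset.sum_congr rfl fun z _ => ?_
      ring
    have e2 : ent f = ∑ a, ∑ b, f a * g b * (-Real.log (f a)) := by
      unfold ent Real.negMulLog
      refine Finset.sum_congr rfl fun a _ => ?_
      rw [← Finset.sum_mul, ← Finset.mul_sum, hg1]
      ring
    have e3 : ent g = ∑ a, ∑ b, f a * g b * (-Real.log (g b)) := by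
      unfold ent Real.negMulLog
      rw [Finset.sum_comm]
      refine Finset.sum_congr rfl fun b _ => ?_
      rw [← Finset.sum_mul, ← Finset.sum_mul, hf1]
      ring
    rw [e1, e2, e3, ← Finset.sum_sub_distrib, ← Finset.sum_add_distrib, ← Finset.sum_add_distrib]
    refine Finset.sum_congr rfl fun a _ => ?_
    rw [← Finset.sum_sub_distrib, ← Finset.sum_add_distrib, ← Finset.sum_add_distrib]
    refine Finset.sum_congr rfl fun b _ => ?_
    ring
  linarith

theorem ent_nonneg {α : Type} [Fintype α] (f : α → ℝ) (hf : ∀ a, 0 ≤ f a) (hf1 : ∑ a, f a = 1) :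
    0 ≤ ent f := by
  refine Finset.sum_nonneg fun a _ => Real.negMulLog_nonneg (hf a) ?_
  rw [← hf1]
  exact Finset.single_le_sum (f := f) (fun b _ => hf b) (Finset.mem_univ a)

/-- the loss of entropy is at most the entropy of one of the two laws -/
theorem loss_le (f g : G → ℝ) (hf : ∀ a, 0 ≤ f a) (hg : ∀ a, 0 ≤ g a) (hf1 : ∑ a, f a = 1)
    (hg1 : ∑ a, g a = 1) : ent f + ent g - ent (conv f g) ≤ ent g := by
  have h := code_bound f g hf hg hf1 hg1 (fun _ b => g b) (fun a b _ hb => hb) (fun _ b => hg b)
    (fun z => by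
      rw [← hg1, Equiv.sum_comp (Equiv.subLeft z) g |>.symm]
      exact le_of_eq rfl)
  refine h.trans (le_of_eq ?_)
  unfold ent Real.negMulLog
  rw [Finset.sum_comm]
  refine Finset.sum_congr rfl fun b _ => ?_
  rw [← Finset.sum_mul, ← Finset.sum_mul, hf1]
  ring

/-- a law with mode `a0` and `τ = 1 - f a0` -/
theorem mode_facts {α : Type} [Fintype α] [DecidableEq α] (f : α → ℝ) (hf : ∀ a, 0 ≤ f a)
    (hf1 : ∑ a, f a = 1) (a0 : α) (h0 : ∀ a, f a ≤ f a0) :
    0 < f a0 ∧ f a0 ≤ 1 ∧ (∀ a, a ≠ a0 → f a ≤ 1 - f a0) ∧ 1 - f a0 ≤ ent f ∧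
      (1 - f a0) * (-Real.log (1 - f a0)) ≤ ent f := by
  classical
  have hpos : 0 < f a0 := by
    by_contra hneg
    have h1 : ∀ a, f a = 0 := fun a => le_antisymm ((h0 a).trans (not_lt.1 hneg)) (hf a)
    rw [Finset.sum_eq_zero (fun a _ => h1 a)] at hf1
    exact zero_ne_one hf1
  have hle : f a0 ≤ 1 := by
    rw [← hf1]
    exact Finset.single_le_sum (f := f) (fun b _ => hf b) (Finset.mem_univ a0)
  have hsum : ∑ a ∈ univ.erase a0, f a = 1 - f a0 := by
    have := Finset.add_sum_erase univ f (Finset.mem_univ a0)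
    linarith
  have hother : ∀ a, a ≠ a0 → f a ≤ 1 - f a0 := by
    intro a ha
    rw [← hsum]
    exact Finset.single_le_sum (f := f) (fun b _ => hf b)
      (Finset.mem_erase.2 ⟨ha, Finset.mem_univ a⟩)
  refine ⟨hpos, hle, hother, ?_, ?_⟩
  · have h1 : -Real.log (f a0) ≤ ent f := by
      have e : -Real.log (f a0) = ∑ a, f a * (-Real.log (f a0)) := by
        rw [← Finset.sum_mul, hf1, one_mul]
      rw [e]
      unfold ent Real.negMulLog
      refine Finset.sum_le_sum fun a _ => ?_
      rcases eq_or_lt_of_le (hf a) with ha | ha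
      · rw [← ha]
        simp
      · have := Real.log_le_log ha (h0 a)
        nlinarith
    have h2 := Real.log_le_sub_one_of_pos hpos
    linarith
  · have e : (1 - f a0) * (-Real.log (1 - f a0)) =
        ∑ a ∈ univ.erase a0, f a * (-Real.log (1 - f a0)) := by
      rw [← Finset.sum_mul, hsum]
    rw [e]
    have h1 : ∑ a ∈ univ.erase a0, f a * (-Real.log (1 - f a0)) ≤
        ∑ a ∈ univ.erase a0, Real.negMulLog (f a) := by
      refine Finset.sum_le_sum fun a ha => ?_
      unfold Real.negMulLog
      rcases eq_or_lt_of_le (hf a) with h | h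
      · rw [← h]
        simp
      · have := Real.log_le_log h (hother a (Finset.ne_of_mem_erase ha))
        nlinarith
    refine h1.trans ?_
    unfold ent
    refine Finset.sum_le_sum_of_subset_of_nonneg (Finset.erase_subset _ _) fun a _ _ => ?_
    refine Real.negMulLog_nonneg (hf a) ((h0 a).trans hle)

/-- the main code -/
theorem loss_code [DecidableEq G] (f g : G → ℝ) (hf : ∀ a, 0 ≤ f a) (hg : ∀ a, 0 ≤ g a) (hf1 : ∑ a, f a = 1)
    (hg1 : ∑ a, g a = 1) (a0 b0 : G) (ha0 : ∀ a, f a ≤ f a0) (hb0 : ∀ b, g b ≤ g b0)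
    (ρ : ℝ) (hρ : 0 < ρ) (hρ2 : ρ ≤ 1 / 2) :
    ent f + ent g - ent (conv f g) ≤ 2 * ρ + ((1 - f a0) + (1 - g b0)) * Real.log 2 +
      (1 - g b0) * ent f + (1 - f a0) * (1 - g b0) * (-Real.log ρ) := by
  classical
  obtain ⟨hfa, hfa1, hfo, -, -⟩ := mode_facts f hf hf1 a0 ha0
  obtain ⟨hgb, hgb1, hgo, -, -⟩ := mode_facts g hg hg1 b0 hb0
  have hl2 : 0 < Real.log 2 := Real.log_pos (by norm_num)
  obtain ⟨κ, hκ⟩ : ∃ κ : G → ℝ, κ = fun z => if z = a0 + b0 then ρ else 1 / 2 := ⟨_, rfl⟩
  have hκ0 : ∀ z, 0 < κ z := by
    intro z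
    rw [hκ]
    simp only
    split_ifs
    · exact hρ
    · norm_num
  have hκ1 : ∀ z, κ z ≤ 1 / 2 := by
    intro z
    rw [hκ]
    simp only
    split_ifs
    · exact hρ2
    · exact le_rfl
  obtain ⟨W, hWd⟩ : ∃ W : G → G → ℝ,
    W = fun a b => if b = b0 then 1 - κ (a + b) else κ (a + b) * f a := ⟨_, rfl⟩
  have hcode := code_bound f g hf hg hf1 hg1 W (by
      intro a b ha _
      rw [hWd]
      simp only
      split_ifs
      · have := hκ1 (a + b)
        linarith
      · exact mul_pos (hκ0 _) ha) (by
      intro a b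
      rw [hWd]
      simp only
      split_ifs
      · have := hκ1 (a + b)
        linarith
      · exact mul_nonneg (hκ0 _).le (hf a)) (by
      intro z
      have h1 : ∀ a, W a (z - a) ≤ (if a = z - b0 then 1 - κ z else 0) + κ z * f a := by
        intro a
        rw [hWd]
        simp only [add_sub_cancel]
        by_cases h : z - a = b0
        · have h' : a = z - b0 := by rw [← h, sub_sub_cancel]
          rw [if_pos h, if_pos h']
          have := mul_nonneg (hκ0 z).le (hf a)
          linarith
        · have h' : a ≠ z - b0 := by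
            intro h2
            exact h (by rw [h2, sub_sub_cancel])
          rw [if_neg h, if_neg h', zero_add]
      refine (Finset.sum_le_sum fun a _ => h1 a).trans ?_
      rw [Finset.sum_add_distrib, ← Finset.mul_sum, hf1, Finset.sum_ite_eq' univ (z - b0)]
      simp)
  refine hcode.trans ?_
  -- termwise bound
  have hterm : ∀ a b, f a * g b * (-Real.log (W a b)) ≤
      (if b = b0 then g b0 * ((if a = a0 then f a0 * (2 * ρ) else f a * Real.log 2)) else
        g b * (Real.negMulLog (f a) + f a * Real.log 2 +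
          (if a = a0 + b0 - b then (1 - f a0) * (-Real.log ρ) else 0))) := by
    intro a b
    by_cases hb : b = b0
    · rw [if_pos hb, hb, hWd]
      simp only [if_true]
      by_cases ha : a = a0
      · rw [if_pos ha, ha, hκ]
        simp only [if_true]
        have h1 : -Real.log (1 - ρ) ≤ 2 * ρ := by
          have h2 := Real.one_sub_inv_le_log_of_pos (show (0 : ℝ) < 1 - ρ by linarith)
          have h3 : (1 - ρ)⁻¹ ≤ 1 + 2 * ρ := by
            rw [inv_le_comm₀ (by linarith) (by linarith), inv_eq_one_div, div_le_iff₀ (by linarith)]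
            nlinarith
          linarith
        have h2 := mul_le_mul_of_nonneg_left h1 (mul_nonneg hfa.le hgb.le)
        calc f a0 * g b0 * (-Real.log (1 - ρ)) ≤ f a0 * g b0 * (2 * ρ) := h2
          _ = g b0 * (f a0 * (2 * ρ)) := by ring
      · rw [if_neg ha, hκ]
        simp only
        rw [if_neg (by simpa using ha)]
        have h1 : Real.log (1 - 1 / 2 : ℝ) = -Real.log 2 := by
          rw [show (1 - 1 / 2 : ℝ) = 2⁻¹ by norm_num, Real.log_inv]
        rw [h1]
        exact le_of_eq (by ring)
    · rw [if_neg hb, hWd]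
      simp only
      rw [if_neg hb]
      rcases eq_or_lt_of_le (hf a) with ha | ha
      · rw [← ha]
        simp only [zero_mul, Real.negMulLog_zero, zero_add]
        refine mul_nonneg (hg b) ?_
        split_ifs
        · refine mul_nonneg (by linarith) ?_
          have := Real.log_nonpos hρ.le (by linarith)
          linarith
        · exact le_rfl
      · rw [Real.log_mul (hκ0 _).ne' ha.ne', Real.negMulLog]
        have hlogρ : 0 ≤ -Real.log ρ := by
          have := Real.log_nonpos hρ.le (by linarith)
          linarith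
        by_cases hab : a = a0 + b0 - b
        · rw [if_pos hab]
          have h1 : a + b = a0 + b0 := by rw [hab, sub_add_cancel]
          have h2 : κ (a + b) = ρ := by
            rw [hκ]
            simp only
            rw [if_pos h1]
          have h3 : a ≠ a0 := by
            intro h4
            rw [h4] at h1
            exact hb (add_left_cancel h1)
          have h4 := hfo a h3
          rw [h2]
          have h5 : f a * (-Real.log ρ) ≤ (1 - f a0) * (-Real.log ρ) :=
            mul_le_mul_of_nonneg_right h4 hlogρ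
          have h6 : 0 ≤ f a * Real.log 2 := by positivity
          have h7 : f a * g b * (-(Real.log ρ + Real.log (f a))) =
              g b * (f a * (-Real.log ρ) + -f a * Real.log (f a)) := by ring
          rw [h7]
          refine mul_le_mul_of_nonneg_left ?_ (hg b)
          linarith
        · rw [if_neg hab]
          have h1 : a + b ≠ a0 + b0 := by
            intro h2
            exact hab (by rw [← h2, add_sub_cancel_right])
          have h2 : κ (a + b) = 1 / 2 := by
            rw [hκ]
            simp only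
            rw [if_neg h1]
          rw [h2, one_div, Real.log_inv]
          exact le_of_eq (by ring)
  refine (Finset.sum_le_sum fun a _ => Finset.sum_le_sum fun b _ => hterm a b).trans ?_
  rw [Finset.sum_comm]
  have hsplit : ∀ b : G, ∑ a, (if b = b0 then g b0 * ((if a = a0 then f a0 * (2 * ρ) else
      f a * Real.log 2)) else g b * (Real.negMulLog (f a) + f a * Real.log 2 +
          (if a = a0 + b0 - b then (1 - f a0) * (-Real.log ρ) else 0))) =
      (if b = b0 then g b0 * (f a0 * (2 * ρ) + (1 - f a0) * Real.log 2) else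
        g b * (ent f + Real.log 2 + (1 - f a0) * (-Real.log ρ))) := by
    intro b
    by_cases hb : b = b0
    · simp only [if_pos hb]
      rw [← Finset.mul_sum]
      congr 1
      rw [← Finset.add_sum_erase univ _ (Finset.mem_univ a0)]
      rw [if_pos rfl]
      congr 1
      have h1 : ∑ a ∈ univ.erase a0, (if a = a0 then f a0 * (2 * ρ) else f a * Real.log 2) =
          ∑ a ∈ univ.erase a0, f a * Real.log 2 := by
        refine Finset.sum_congr rfl fun a ha => ?_
        rw [if_neg (Finset.ne_of_mem_erase ha)]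
      rw [h1, ← Finset.sum_mul]
      congr 1
      have := Finset.add_sum_erase univ f (Finset.mem_univ a0)
      linarith
    · simp only [if_neg hb]
      rw [← Finset.mul_sum]
      congr 1
      rw [Finset.sum_add_distrib, Finset.sum_add_distrib, ← Finset.sum_mul, hf1, one_mul,
        Finset.sum_ite_eq' univ (a0 + b0 - b)]
      simp only [Finset.mem_univ, if_true]
      rfl
  rw [Finset.sum_congr rfl fun b _ => hsplit b]
  rw [← Finset.add_sum_erase univ _ (Finset.mem_univ b0), if_pos rfl]
  have h1 : ∑ b ∈ univ.erase b0, (if b = b0 then g b0 * (f a0 * (2 * ρ) + (1 - f a0) * Real.log 2)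
      else g b * (ent f + Real.log 2 + (1 - f a0) * (-Real.log ρ))) =
      (1 - g b0) * (ent f + Real.log 2 + (1 - f a0) * (-Real.log ρ)) := by
    have h2 : ∑ b ∈ univ.erase b0, (if b = b0 then
        g b0 * (f a0 * (2 * ρ) + (1 - f a0) * Real.log 2)
        else g b * (ent f + Real.log 2 + (1 - f a0) * (-Real.log ρ))) =
        ∑ b ∈ univ.erase b0, g b * (ent f + Real.log 2 + (1 - f a0) * (-Real.log ρ)) := by
      refine Finset.sum_congr rfl fun b hb => ?_
      rw [if_neg (Finset.ne_of_mem_erase hb)]
    rw [h2, ← Finset.sum_mul]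
    congr 1
    have := Finset.add_sum_erase univ g (Finset.mem_univ b0)
    linarith
  rw [h1]
  have h2 : g b0 * (f a0 * (2 * ρ) + (1 - f a0) * Real.log 2) ≤
      2 * ρ + (1 - f a0) * Real.log 2 := by
    have h3 : 0 ≤ f a0 * (2 * ρ) + (1 - f a0) * Real.log 2 :=
      add_nonneg (by positivity) (mul_nonneg (by linarith) hl2.le)
    have h4 : g b0 * (f a0 * (2 * ρ) + (1 - f a0) * Real.log 2) ≤
        f a0 * (2 * ρ) + (1 - f a0) * Real.log 2 := mul_le_of_le_one_left h3 hgb1
    have h5 : f a0 * (2 * ρ) ≤ 2 * ρ := mul_le_of_le_one_left (by positivity) hfa1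
    linarith
  calc g b0 * (f a0 * (2 * ρ) + (1 - f a0) * Real.log 2) +
        (1 - g b0) * (ent f + Real.log 2 + (1 - f a0) * (-Real.log ρ))
      ≤ (2 * ρ + (1 - f a0) * Real.log 2) +
        (1 - g b0) * (ent f + Real.log 2 + (1 - f a0) * (-Real.log ρ)) := by linarith
    _ = _ := by ring

end Pool.Agent.Helper15.GL
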