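import Pool.Agent.Helper15.GL.Node

set_option autoImplicit false

/-!
# Project GL (MP_120218), Node2: the node inequality
-/

namespace Pool.Agent.Helper15.GL

open Finset

private theorem exists_mode {α : Type} [Fintype α] (f : α → ℝ) (hf1 : ∑ a, f a = 1) :
    ∃ a0, ∀ a, f a ≤ f a0 := by
  classical
  have hne : (univ : Finset α).Nonempty := by
    rw [Finset.nonempty_iff_ne_empty]
    intro h
    rw [h, Finset.sum_empty] at hf1
    exact zero_ne_one hf1
  obtain ⟨a0, -, h⟩ := Finset.exists_max_image univ f hne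
  exact ⟨a0, fun a => h a (Finset.mem_univ a)⟩

/-- one of the laws has small entropy -/
private theorem node_aux (η t0 : ℝ) (hη : 0 < η) (hη1 : η ≤ 1) (ht0 : 0 < t0) (ht1 : t0 < 1)
    (h1 : Real.log 2 ≤ η / 4 * (-Real.log t0)) (h2 : t0 * (1 + Real.log (8 / η)) ≤ η / 4)
    {G : Type} [Fintype G] [AddCommGroup G] (f g : G → ℝ) (hf : ∀ a, 0 ≤ f a)
    (hg : ∀ a, 0 ≤ g a) (hf1 : ∑ a, f a = 1) (hg1 : ∑ a, g a = 1) (hs : ent g ≤ η * t0) :
    ent f + ent g - ent (conv f g) ≤ η * (ent f + ent g) := by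
  classical
  have hhf := ent_nonneg f hf hf1
  have hhg := ent_nonneg g hg hg1
  have hloss := loss_le f g hf hg hf1 hg1
  obtain ⟨a0, ha0⟩ := exists_mode f hf1
  obtain ⟨b0, hb0⟩ := exists_mode g hg1
  obtain ⟨hfa, hfa1, -, hf3, hf4⟩ := mode_facts f hf hf1 a0 ha0
  obtain ⟨hgb, hgb1, -, hg3, hg4⟩ := mode_facts g hg hg1 b0 hb0
  obtain ⟨τ, hτ⟩ : ∃ τ : ℝ, τ = 1 - f a0 := ⟨_, rfl⟩
  obtain ⟨σ, hσ⟩ : ∃ σ : ℝ, σ = 1 - g b0 := ⟨_, rfl⟩
  rw [← hτ] at hf3 hf4
  rw [← hσ] at hg3 hg4
  have hτ0 : 0 ≤ τ := by rw [hτ]; linarith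
  have hσ0 : 0 ≤ σ := by rw [hσ]; linarith
  rcases le_or_gt t0 τ with hcase | hcase
  · calc ent f + ent g - ent (conv f g) ≤ ent g := hloss
      _ ≤ η * t0 := hs
      _ ≤ η * (ent f + ent g) := mul_le_mul_of_nonneg_left (by linarith) hη.le
  · rcases eq_or_lt_of_le hhg with hg0 | hg0
    · rw [← hg0] at hloss
      have := mul_nonneg hη.le (add_nonneg hhf hhg)
      linarith
    · obtain ⟨ρ, hρ⟩ : ∃ ρ : ℝ, ρ = η * ent g / 8 := ⟨_, rfl⟩
      have hρ0 : 0 < ρ := by rw [hρ]; positivity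
      have hgt : ent g ≤ t0 := hs.trans (mul_le_of_le_one_left ht0.le hη1)
      have hρ2 : ρ ≤ 1 / 2 := by
        rw [hρ]
        have : η * ent g ≤ 1 * 1 := mul_le_mul hη1 (by linarith) hhg (by norm_num)
        linarith
      have hmain := loss_code f g hf hg hf1 hg1 a0 b0 ha0 hb0 ρ hρ0 hρ2
      rw [← hτ, ← hσ] at hmain
      have hl8 : 0 ≤ Real.log (8 / η) := Real.log_nonneg (by
        rw [le_div_iff₀ hη]
        linarith)
      have hsm : ∀ t h : ℝ, 0 ≤ t → t < t0 → t * (-Real.log t) ≤ h →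
          t * Real.log 2 ≤ η / 4 * h := by
        intro t h ht ht' hh
        rcases eq_or_lt_of_le ht with he | hlt
        · rw [← he] at hh ⊢
          simp only [zero_mul] at hh ⊢
          exact mul_nonneg (by positivity) hh
        · have h3 : -Real.log t0 ≤ -Real.log t := neg_le_neg (Real.log_le_log hlt ht'.le)
          calc t * Real.log 2 ≤ t * (η / 4 * (-Real.log t0)) := mul_le_mul_of_nonneg_left h1 ht
            _ ≤ t * (η / 4 * (-Real.log t)) :=
              mul_le_mul_of_nonneg_left (mul_le_mul_of_nonneg_left h3 (by positivity)) ht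
            _ = η / 4 * (t * (-Real.log t)) := by ring
            _ ≤ η / 4 * h := mul_le_mul_of_nonneg_left hh (by positivity)
      have hσt : σ ≤ t0 := hg3.trans hgt
      have e1 := hsm τ (ent f) hτ0 hcase hf4
      have e2 : σ * Real.log 2 ≤ η / 4 * ent g := by
        rcases lt_or_eq_of_le hσt with h | h
        · exact hsm σ (ent g) hσ0 h hg4
        · calc σ * Real.log 2 ≤ σ * (η / 4 * (-Real.log t0)) := mul_le_mul_of_nonneg_left h1 hσ0
            _ = η / 4 * (σ * (-Real.log σ)) := by rw [h]; ring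
            _ ≤ η / 4 * ent g := mul_le_mul_of_nonneg_left hg4 (by positivity)
      have ht04 : t0 ≤ η / 4 := by
        have : t0 * 1 ≤ t0 * (1 + Real.log (8 / η)) :=
          mul_le_mul_of_nonneg_left (by linarith) ht0.le
        linarith
      have e3 : σ * ent f ≤ η / 4 * ent f := mul_le_mul_of_nonneg_right (hσt.trans ht04) hhf
      have e4 : τ * σ * (-Real.log ρ) ≤ η / 4 * ent g := by
        have h3 : -Real.log ρ = Real.log (8 / η) + (-Real.log (ent g)) := by
          rw [hρ, show η * ent g / 8 = (8 / η)⁻¹ * ent g by field_simp,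
            Real.log_mul (by positivity) hg0.ne', Real.log_inv]
          ring
        have h4 : σ * (-Real.log (ent g)) ≤ ent g := by
          rcases eq_or_lt_of_le hσ0 with he | hlt
          · rw [← he, zero_mul]
            exact hhg
          · have h5 : -Real.log (ent g) ≤ -Real.log σ := neg_le_neg (Real.log_le_log hlt hg3)
            exact (mul_le_mul_of_nonneg_left h5 hσ0).trans hg4
        have h5 : σ * (-Real.log ρ) ≤ (1 + Real.log (8 / η)) * ent g := by
          rw [h3, mul_add]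
          have := mul_le_mul_of_nonneg_right hg3 hl8
          nlinarith
        calc τ * σ * (-Real.log ρ) = τ * (σ * (-Real.log ρ)) := by ring
          _ ≤ τ * ((1 + Real.log (8 / η)) * ent g) := mul_le_mul_of_nonneg_left h5 hτ0
          _ ≤ t0 * ((1 + Real.log (8 / η)) * ent g) :=
            mul_le_mul_of_nonneg_right hcase.le (mul_nonneg (by linarith) hhg)
          _ = (t0 * (1 + Real.log (8 / η))) * ent g := by ring
          _ ≤ η / 4 * ent g := mul_le_mul_of_nonneg_right h2 hhg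
      have e5 : 2 * ρ = η / 4 * ent g := by rw [hρ]; ring
      have e6 : (τ + σ) * Real.log 2 = τ * Real.log 2 + σ * Real.log 2 := by ring
      rw [e5, e6] at hmain
      have e7 := mul_nonneg hη.le hhf
      have e8 := mul_nonneg hη.le hhg
      linarith

/-- the node inequality with constants `η`, `K` -/
def NodeE (η K : ℝ) : Prop :=
  ∀ (G : Type) [Fintype G] [AddCommGroup G] (f g : G → ℝ),
    (∀ a, 0 ≤ f a) → (∀ a, 0 ≤ g a) → ∑ a, f a = 1 → ∑ a, g a = 1 →
    ent f + ent g - ent (conv f g) ≤ η * (ent f + ent g) + K * (ent f * ent g)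

/-- **The node inequality.** -/
theorem node_exists (η : ℝ) (hη : 0 < η) : ∃ K : ℝ, 0 < K ∧ NodeE η K := by
  obtain ⟨η', hη'⟩ : ∃ η' : ℝ, η' = min η 1 := ⟨_, rfl⟩
  have hη0 : 0 < η' := by rw [hη']; exact lt_min hη one_pos
  have hη1 : η' ≤ 1 := by rw [hη']; exact min_le_right _ _
  have hηη : η' ≤ η := by rw [hη']; exact min_le_left _ _
  have hl2 : 0 < Real.log 2 := Real.log_pos (by norm_num)
  have hl8 : 0 ≤ Real.log (8 / η') := Real.log_nonneg (by
    rw [le_div_iff₀ hη0]
    linarith)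
  obtain ⟨t0, ht0⟩ : ∃ t0 : ℝ, t0 = min (Real.exp (-(4 * Real.log 2 / η')))
    (η' / (4 * (1 + Real.log (8 / η')))) := ⟨_, rfl⟩
  have ht0pos : 0 < t0 := by
    rw [ht0]
    exact lt_min (Real.exp_pos _) (by positivity)
  have ht1 : t0 < 1 := by
    rw [ht0]
    refine lt_of_le_of_lt (min_le_left _ _) ?_
    rw [Real.exp_lt_one_iff]
    have : 0 < 4 * Real.log 2 / η' := by positivity
    linarith
  have h1 : Real.log 2 ≤ η' / 4 * (-Real.log t0) := by
    have h3 : Real.log t0 ≤ -(4 * Real.log 2 / η') := by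
      rw [Real.log_le_iff_le_exp ht0pos, ht0]
      exact min_le_left _ _
    have h4 : η' / 4 * (4 * Real.log 2 / η') = Real.log 2 := by field_simp
    calc Real.log 2 = η' / 4 * (4 * Real.log 2 / η') := h4.symm
      _ ≤ η' / 4 * (-Real.log t0) := mul_le_mul_of_nonneg_left (by linarith) (by positivity)
  have h2 : t0 * (1 + Real.log (8 / η')) ≤ η' / 4 := by
    have h3 : t0 ≤ η' / (4 * (1 + Real.log (8 / η'))) := by rw [ht0]; exact min_le_right _ _
    have h4 : η' / (4 * (1 + Real.log (8 / η'))) * (1 + Real.log (8 / η')) = η' / 4 := by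
      have : (1 + Real.log (8 / η')) ≠ 0 := by positivity
      field_simp
    rw [← h4]
    exact mul_le_mul_of_nonneg_right h3 (by linarith)
  have hc : 0 < η' * t0 := mul_pos hη0 ht0pos
  refine ⟨1 / (η' * t0), by positivity, ?_⟩
  intro G _ _ f g hf hg hf1 hg1
  have hhf := ent_nonneg f hf hf1
  have hhg := ent_nonneg g hg hg1
  have hfg : 0 ≤ 1 / (η' * t0) * (ent f * ent g) := by positivity
  have hsum : 0 ≤ ent f + ent g := add_nonneg hhf hhg
  have hmono : η' * (ent f + ent g) ≤ η * (ent f + ent g) := mul_le_mul_of_nonneg_right hηη hsum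
  have hpos : 0 ≤ η * (ent f + ent g) := mul_nonneg hη.le hsum
  rcases le_or_gt (ent g) (η' * t0) with h | h
  · have := node_aux η' t0 hη0 hη1 ht0pos ht1 h1 h2 f g hf hg hf1 hg1 h
    linarith
  rcases le_or_gt (ent f) (η' * t0) with h' | h'
  · have := node_aux η' t0 hη0 hη1 ht0pos ht1 h1 h2 g f hg hf hg1 hf1 h'
    rw [conv_comm g f] at this
    linarith
  · have h3 := loss_le f g hf hg hf1 hg1
    have h4 : ent g ≤ 1 / (η' * t0) * (ent f * ent g) := by
      rw [div_mul_eq_mul_div, one_mul, le_div_iff₀ hc, mul_comm]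
      exact mul_le_mul_of_nonneg_right h'.le hhg
    linarith

end Pool.Agent.Helper15.GL
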