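import Pool.Agent.Helper15.GL.Main

set_option autoImplicit false

/-!
# Project GL (MP_120218), Opt: the dichotomy is sharp for every rank
-/

namespace Pool.Agent.Helper15.GL

open Finset

theorem opt_fac {r : ℕ} (p : Fin r → ℕ) (hp : ∀ i, (p i).Prime) (hinj : Function.Injective p)
    (m : ℕ) (hm0 : m ≠ 0) (hm : ∀ i, ¬ p i ∣ m) (e : Fin r → ℕ) (i : Fin r) :
    (m * ∏ j, p j ^ e j).factorization (p i) = e i := by
  classical
  have h0 : ∀ j, p j ^ e j ≠ 0 := fun j => pow_ne_zero _ (hp j).ne_zero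
  have hprod : (∏ j, p j ^ e j) ≠ 0 := Finset.prod_ne_zero_iff.2 fun j _ => h0 j
  rw [Nat.factorization_mul hm0 hprod, Finsupp.add_apply,
    Nat.factorization_eq_zero_of_not_dvd (hm i), zero_add,
    Nat.factorization_prod (fun j _ => h0 j), Finsupp.finsetSum_apply]
  have h1 : ∀ j ∈ (Finset.univ : Finset (Fin r)),
      ((p j ^ e j).factorization) (p i) = if j = i then e j else 0 := by
    intro j _
    rw [Nat.factorization_pow, Finsupp.smul_apply, (hp j).factorization, Finsupp.single_apply]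
    by_cases h : j = i
    · rw [if_pos (by rw [h]), if_pos h]
      simp
    · rw [if_neg (fun h' => h (hinj h')), if_neg h]
      simp
  rw [Finset.sum_congr rfl h1, Finset.sum_ite_eq' Finset.univ i e, if_pos (Finset.mem_univ i)]

/-- the multidimensional geometric progression with natural exponents -/
def gprogN {r : ℕ} (g : Fin r → ℚ) (L : ℕ) : Finset ℚ :=
  (Fintype.piFinset (fun _ : Fin r => Finset.range L)).image (fun e => ∏ i, g i ^ e i)

/-- the multidimensional geometric progression -/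
noncomputable def gprog {r : ℕ} (g : Fin r → ℚ) (L : ℕ) : Finset ℚ :=
  (Fintype.piFinset (fun _ : Fin r => Finset.Icc (-(L : ℤ)) (L : ℤ))).image
    (fun e => ∏ i, g i ^ e i)

theorem gprog_eq {r : ℕ} (g : Fin r → ℚ) (hg : ∀ i, g i ≠ 0) (L : ℕ) :
    gprog g L = (gprogN g (2 * L + 1)).image (fun s => s * (∏ i, g i ^ L)⁻¹) := by
  classical
  have hL : (∏ i, g i ^ L) ≠ 0 := Finset.prod_ne_zero_iff.2 fun i _ => pow_ne_zero _ (hg i)
  ext x
  unfold gprog gprogN
  rw [Finset.mem_image, Finset.mem_image]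
  constructor
  · rintro ⟨e, he, rfl⟩
    rw [Fintype.mem_piFinset] at he
    refine ⟨∏ i, g i ^ (e i + L).toNat, Finset.mem_image.2 ⟨fun i => (e i + L).toNat, ?_, rfl⟩, ?_⟩
    · rw [Fintype.mem_piFinset]
      intro i
      have h1 := Finset.mem_Icc.1 (he i)
      rw [Finset.mem_range]
      omega
    · rw [← div_eq_mul_inv, ← Finset.prod_div_distrib]
      refine Finset.prod_congr rfl fun i _ => ?_
      have h1 := Finset.mem_Icc.1 (he i)
      have h2 : (((e i + L).toNat : ℕ) : ℤ) = e i + L := Int.toNat_of_nonneg (by omega)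
      rw [← zpow_natCast, ← zpow_natCast, ← zpow_sub₀ (hg i), h2]
      congr 1
      ring
  · rintro ⟨y, hy, rfl⟩
    obtain ⟨e, he, rfl⟩ := Finset.mem_image.1 hy
    rw [Fintype.mem_piFinset] at he
    refine ⟨fun i => (e i : ℤ) - L, ?_, ?_⟩
    · rw [Fintype.mem_piFinset]
      intro i
      have h1 := Finset.mem_range.1 (he i)
      rw [Finset.mem_Icc]
      omega
    · rw [← div_eq_mul_inv, ← Finset.prod_div_distrib]
      refine Finset.prod_congr rfl fun i _ => ?_
      rw [zpow_sub₀ (hg i), zpow_natCast, zpow_natCast]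

theorem card_gprog_eq {r : ℕ} (g : Fin r → ℚ) (hg : ∀ i, g i ≠ 0) (L : ℕ) :
    (gprog g L).card = (gprogN g (2 * L + 1)).card := by
  classical
  have hL : (∏ i, g i ^ L) ≠ 0 := Finset.prod_ne_zero_iff.2 fun i _ => pow_ne_zero _ (hg i)
  rw [gprog_eq g hg, Finset.card_image_of_injective]
  exact mul_left_injective₀ (inv_ne_zero hL)

theorem card_prd_eq {r : ℕ} (g : Fin r → ℚ) (hg : ∀ i, g i ≠ 0) (L : ℕ) (A : Finset ℤ) :
    (prd A (gprog g L)).card ≤ (prd A (gprogN g (2 * L + 1))).card := by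
  classical
  have hsub : prd A (gprog g L) ⊆
      (prd A (gprogN g (2 * L + 1))).image (fun s => s * (∏ i, g i ^ L)⁻¹) := by
    intro z hz
    rw [gprog_eq g hg] at hz
    unfold prd at hz
    obtain ⟨a, ha, s, hs, rfl⟩ := Finset.mem_image₂.1 hz
    obtain ⟨t, ht, rfl⟩ := Finset.mem_image.1 hs
    refine Finset.mem_image.2 ⟨(a : ℚ) * t, Finset.mem_image₂_of_mem ha ht, ?_⟩
    ring
  exact (Finset.card_le_card hsub).trans Finset.card_image_le

/-- the extremal set -/
def optA {r : ℕ} (p : Fin r → ℕ) (D T n : ℕ) : Finset ℤ :=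
  (Finset.range T ×ˢ Fintype.piFinset (fun _ : Fin r => Finset.range n)).image
    (fun x : ℕ × (Fin r → ℕ) => (((1 + D * x.1) * ∏ i, p i ^ x.2 i : ℕ) : ℤ))

theorem card_optA {r : ℕ} (p : Fin r → ℕ) (hp : ∀ i, (p i).Prime) (hinj : Function.Injective p)
    (D T n : ℕ) (hD : ∀ i, p i ∣ D) (hD0 : 0 < D) : (optA p D T n).card = T * n ^ r := by
  classical
  unfold optA
  rw [Finset.card_image_of_injOn, Finset.card_product, Finset.card_range, Fintype.card_piFinset]
  · simp
  · rintro ⟨t, e⟩ _ ⟨t', e'⟩ _ h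
    have h1 : (1 + D * t) * ∏ i, p i ^ e i = (1 + D * t') * ∏ i, p i ^ e' i := by
      have h' : (((1 + D * t) * ∏ i, p i ^ e i : ℕ) : ℤ) =
          (((1 + D * t') * ∏ i, p i ^ e' i : ℕ) : ℤ) := h
      exact Int.natCast_inj.1 h'
    have hnd : ∀ (t : ℕ) (i : Fin r), ¬ p i ∣ 1 + D * t := by
      intro t i hd
      have h2 : p i ∣ 1 := (Nat.dvd_add_left ((hD i).mul_right t)).1 hd
      exact (hp i).one_lt.ne' (Nat.dvd_one.1 h2)
    have he : e = e' := by
      funext i
      have h2 := opt_fac p hp hinj (1 + D * t) (by omega) (hnd t) e i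
      have h3 := opt_fac p hp hinj (1 + D * t') (by omega) (hnd t') e' i
      rw [← h2, ← h3, h1]
    subst he
    have hpos : 0 < ∏ i, p i ^ e i := Finset.prod_pos fun i _ => pow_pos (hp i).pos _
    have h4 := Nat.eq_of_mul_eq_mul_right hpos h1
    have h5 : t = t' := Nat.eq_of_mul_eq_mul_left hD0 (by omega)
    rw [h5]

theorem card_gprogN {r : ℕ} (p : Fin r → ℕ) (hp : ∀ i, (p i).Prime)
    (hinj : Function.Injective p) (L : ℕ) : (gprogN (fun i => (p i : ℚ)) L).card = L ^ r := by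
  classical
  unfold gprogN
  rw [Finset.card_image_of_injOn, Fintype.card_piFinset]
  · simp
  · intro e _ e' _ h
    have h1 : 1 * ∏ i, p i ^ e i = 1 * ∏ i, p i ^ e' i := by
      rw [one_mul, one_mul]
      have h' : ∏ i, ((p i : ℚ)) ^ e i = ∏ i, ((p i : ℚ)) ^ e' i := h
      exact_mod_cast h'
    have hnd : ∀ i : Fin r, ¬ p i ∣ 1 := by
      intro i hd
      exact (hp i).one_lt.ne' (Nat.dvd_one.1 hd)
    funext i
    have h2 := opt_fac p hp hinj 1 one_ne_zero hnd e i
    have h3 := opt_fac p hp hinj 1 one_ne_zero hnd e' i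
    rw [← h2, ← h3, h1]

theorem card_prd_opt {r : ℕ} (p : Fin r → ℕ) (D T n L : ℕ) :
    (prd (optA p D T n) (gprogN (fun i => (p i : ℚ)) (2 * L + 1))).card ≤
      T * (n + 2 * L) ^ r := by
  classical
  have hsub : prd (optA p D T n) (gprogN (fun i => (p i : ℚ)) (2 * L + 1)) ⊆
      (Finset.range T ×ˢ Fintype.piFinset (fun _ : Fin r => Finset.range (n + 2 * L))).image
        (fun x : ℕ × (Fin r → ℕ) => (((1 + D * x.1) * ∏ i, p i ^ x.2 i : ℕ) : ℚ)) := by
    intro z hz
    unfold prd optA gprogN at hz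
    obtain ⟨a, ha, s, hs, rfl⟩ := Finset.mem_image₂.1 hz
    obtain ⟨⟨t, e⟩, hte, rfl⟩ := Finset.mem_image.1 ha
    obtain ⟨f, hf, rfl⟩ := Finset.mem_image.1 hs
    rw [Finset.mem_product, Fintype.mem_piFinset] at hte
    rw [Fintype.mem_piFinset] at hf
    refine Finset.mem_image.2 ⟨(t, fun i => e i + f i), ?_, ?_⟩
    · rw [Finset.mem_product, Fintype.mem_piFinset]
      refine ⟨hte.1, fun i => ?_⟩
      have h1 := Finset.mem_range.1 (hte.2 i)
      have h2 := Finset.mem_range.1 (hf i)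
      have h1' : e i < n := h1
      have h3 : e i + f i < n + 2 * L := by omega
      exact Finset.mem_range.2 h3
    · push_cast
      rw [mul_assoc, ← Finset.prod_mul_distrib]
      congr 1
      exact Finset.prod_congr rfl fun i _ => by rw [pow_add]
  refine (Finset.card_le_card hsub).trans (Finset.card_image_le.trans ?_)
  rw [Finset.card_product, Finset.card_range, Fintype.card_piFinset]
  simp

/-- every element of the extremal set has many neighbours -/
theorem rich_opt {r : ℕ} (p : Fin r → ℕ) (hp : ∀ i, (p i).Prime) (hinj : Function.Injective p)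
    (D T n L : ℕ) (hnL : n ≤ L) (a : ℤ) (ha : a ∈ optA p D T n) :
    n ^ r ≤ (rich (optA p D T n) (gprog (fun i => (p i : ℚ)) L) a).card := by
  classical
  unfold optA at ha
  obtain ⟨⟨t, e⟩, hte, rfl⟩ := Finset.mem_image.1 ha
  rw [Finset.mem_product, Fintype.mem_piFinset] at hte
  have hcard : (Fintype.piFinset (fun _ : Fin r => Finset.range n)).card = n ^ r := by
    rw [Fintype.card_piFinset]
    simp
  rw [← hcard]
  refine Finset.card_le_card_of_injOn
    (fun f : Fin r → ℕ => (((1 + D * t) * ∏ i, p i ^ f i : ℕ) : ℤ)) ?_ ?_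
  · intro f hf
    have hf' := Finset.mem_coe.1 hf
    rw [Fintype.mem_piFinset] at hf'
    refine Finset.mem_coe.2 (mem_rich.2 ⟨?_, ∏ i, (p i : ℚ) ^ ((f i : ℤ) - e i), ?_, ?_⟩)
    · unfold optA
      refine Finset.mem_image.2 ⟨(t, f), ?_, rfl⟩
      rw [Finset.mem_product, Fintype.mem_piFinset]
      exact ⟨hte.1, hf'⟩
    · unfold gprog
      refine Finset.mem_image.2 ⟨fun i => (f i : ℤ) - e i, ?_, rfl⟩
      rw [Fintype.mem_piFinset]
      intro i
      have h1 := Finset.mem_range.1 (hte.2 i)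
      have h2 := Finset.mem_range.1 (hf' i)
      have h1' : e i < n := h1
      rw [Finset.mem_Icc]
      omega
    · push_cast
      rw [mul_assoc, ← Finset.prod_mul_distrib]
      congr 1
      refine Finset.prod_congr rfl fun i _ => ?_
      have h0 : (p i : ℚ) ≠ 0 := Nat.cast_ne_zero.2 (hp i).ne_zero
      rw [zpow_sub₀ h0, zpow_natCast, zpow_natCast]
      field_simp
  · intro f _ f' _ h
    have h1 : (1 + D * t) * ∏ i, p i ^ f i = (1 + D * t) * ∏ i, p i ^ f' i := by
      have h' : (((1 + D * t) * ∏ i, p i ^ f i : ℕ) : ℤ) =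
          (((1 + D * t) * ∏ i, p i ^ f' i : ℕ) : ℤ) := h
      exact Int.natCast_inj.1 h'
    have h2 := Nat.eq_of_mul_eq_mul_left (by omega) h1
    have hnd : ∀ i : Fin r, ¬ p i ∣ 1 := by
      intro i hd
      exact (hp i).one_lt.ne' (Nat.dvd_one.1 hd)
    funext i
    have h3 := opt_fac p hp hinj 1 one_ne_zero hnd f i
    have h4 := opt_fac p hp hinj 1 one_ne_zero hnd f' i
    rw [← h3, ← h4, h2]

theorem sum_optA {r : ℕ} (p : Fin r → ℕ) (hp : ∀ i, (p i).Prime) (D T n : ℕ)
    (hD : D = ∏ i, p i) (hD0 : 0 < D) (k : ℕ) :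
    ((Fintype.piFinset (fun _ : Fin k => optA p D T n)).image
      (fun f : Fin k → ℤ => ∑ i, f i)).card ≤ k * (T * D ^ (n + 1)) + 1 := by
  classical
  have hmem : ∀ a ∈ optA p D T n, 0 ≤ a ∧ a ≤ ((T * D ^ (n + 1) : ℕ) : ℤ) := by
    intro a ha
    unfold optA at ha
    obtain ⟨⟨t, e⟩, hte, rfl⟩ := Finset.mem_image.1 ha
    rw [Finset.mem_product, Fintype.mem_piFinset] at hte
    refine ⟨by positivity, ?_⟩
    have ht := Finset.mem_range.1 hte.1
    have h1 : ∏ i, p i ^ e i ≤ D ^ n := by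
      rw [hD, ← Finset.prod_pow]
      refine Finset.prod_le_prod' fun i _ => ?_
      exact Nat.pow_le_pow_right (hp i).pos (Finset.mem_range.1 (hte.2 i)).le
    have h2 : 1 + D * t ≤ T * D := by
      have ht' : t < T := ht
      calc 1 + D * t ≤ D + D * t := by omega
        _ = (t + 1) * D := by ring
        _ ≤ T * D := Nat.mul_le_mul_right _ ht'
    have h3 : (1 + D * t) * ∏ i, p i ^ e i ≤ T * D ^ (n + 1) := by
      calc (1 + D * t) * ∏ i, p i ^ e i ≤ (T * D) * D ^ n := Nat.mul_le_mul h2 h1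
        _ = T * D ^ (n + 1) := by ring
    exact_mod_cast h3
  have hsub : (Fintype.piFinset (fun _ : Fin k => optA p D T n)).image
      (fun f : Fin k → ℤ => ∑ i, f i) ⊆
      Finset.Icc 0 (((k * (T * D ^ (n + 1)) : ℕ) : ℤ)) := by
    intro z hz
    obtain ⟨f, hf, rfl⟩ := Finset.mem_image.1 hz
    rw [Fintype.mem_piFinset] at hf
    rw [Finset.mem_Icc]
    refine ⟨Finset.sum_nonneg fun i _ => (hmem _ (hf i)).1, ?_⟩
    calc ∑ i, f i ≤ ∑ _i : Fin k, ((T * D ^ (n + 1) : ℕ) : ℤ) :=
          Finset.sum_le_sum fun i _ => (hmem _ (hf i)).2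
      _ = ((k * (T * D ^ (n + 1)) : ℕ) : ℤ) := by
          rw [Finset.sum_const, Finset.card_univ, Fintype.card_fin, nsmul_eq_mul]
          push_cast
          ring
  refine (Finset.card_le_card hsub).trans (le_of_eq ?_)
  rw [Int.card_Icc]
  omega

/-- **Theorem GL, part (2): sharpness for every rank.** -/
theorem opt (r : ℕ) (hr : 1 ≤ r) (η : ℝ) (hη : 0 < η) : ∃ c : ℝ, 0 < c ∧ ∀ N₀ : ℕ,
    ∃ (A : Finset ℤ) (g : Fin r → ℚ), N₀ ≤ A.card ∧ (∀ i, g i ≠ 0) ∧
      (∀ k : ℕ, (((Fintype.piFinset (fun _ : Fin k => A)).image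
        (fun f : Fin k → ℤ => ∑ i, f i)).card : ℝ) ≤ ((k : ℝ) + 1) * (A.card : ℝ) ^ (1 + η)) ∧
      ∀ L : ℕ, Real.log A.card ≤ L →
        (∀ a ∈ A, (c * Real.log A.card) ^ r ≤ (rich A (gprog g L) a).card) ∧
        (gprog g L).card = (2 * L + 1) ^ r ∧
        (c * Real.log A.card) ^ r * (prd A (gprog g L)).card ≤ A.card * (gprog g L).card := by
  classical
  obtain ⟨p, hpd⟩ : ∃ p : Fin r → ℕ, p = fun i : Fin r => Nat.nth Nat.Prime i := ⟨_, rfl⟩
  have hp : ∀ i, (p i).Prime := by
    intro i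
    rw [hpd]
    exact Nat.prime_nth_prime _
  have hinj : Function.Injective p := by
    intro i j h
    rw [hpd] at h
    exact Fin.ext (Nat.nth_injective Nat.infinite_setOfPred_prime h)
  obtain ⟨D, hD⟩ : ∃ D : ℕ, D = ∏ i, p i := ⟨_, rfl⟩
  have hDi : ∀ i, p i ∣ D := by
    intro i
    rw [hD]
    exact Finset.dvd_prod_of_mem _ (Finset.mem_univ i)
  have hD0 : 0 < D := by
    rw [hD]
    exact Finset.prod_pos fun i _ => (hp i).pos
  have hD2 : 2 ≤ D := (hp ⟨0, hr⟩).two_le.trans (Nat.le_of_dvd hD0 (hDi _))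
  have hDR : (2 : ℝ) ≤ D := by exact_mod_cast hD2
  have hlD : 0 < Real.log D := Real.log_pos (by linarith)
  obtain ⟨δ, hδ⟩ : ∃ δ : ℝ, δ = min 1 (η / (2 * Real.log D)) := ⟨_, rfl⟩
  have hδ0 : 0 < δ := by rw [hδ]; exact lt_min one_pos (by positivity)
  have hδ1 : δ ≤ 1 := by rw [hδ]; exact min_le_left _ _
  have hδ2 : δ * Real.log D ≤ η / 2 := by
    have h1 : δ ≤ η / (2 * Real.log D) := by rw [hδ]; exact min_le_right _ _
    calc δ * Real.log D ≤ η / (2 * Real.log D) * Real.log D :=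
          mul_le_mul_of_nonneg_right h1 hlD.le
      _ = η / 2 := by field_simp
  have hr0 : (0 : ℝ) ≤ r := Nat.cast_nonneg r
  refine ⟨δ / (4 * (1 + r)), by positivity, fun N₀ => ?_⟩
  -- the size
  obtain ⟨T, hT⟩ : ∃ T : ℕ, T = max N₀ (max 1 ⌈Real.exp (2 / δ + 2 * Real.log D / η)⌉₊) :=
    ⟨_, rfl⟩
  have hTN : N₀ ≤ T := by rw [hT]; exact le_max_left _ _
  have hT1 : 1 ≤ T := by rw [hT]; exact (le_max_left _ _).trans (le_max_right _ _)
  have hT1R : (1 : ℝ) ≤ T := by exact_mod_cast hT1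
  have hTlog : 2 / δ + 2 * Real.log D / η ≤ Real.log T := by
    rw [Real.le_log_iff_exp_le (by linarith)]
    have h1 : ⌈Real.exp (2 / δ + 2 * Real.log D / η)⌉₊ ≤ T := by
      rw [hT]
      exact (le_max_right _ _).trans (le_max_right _ _)
    have h2 := Nat.le_ceil (Real.exp (2 / δ + 2 * Real.log D / η))
    have h3 : ((⌈Real.exp (2 / δ + 2 * Real.log D / η)⌉₊ : ℕ) : ℝ) ≤ T := by exact_mod_cast h1
    linarith
  have hq1 : 0 < 2 / δ := by positivity
  have hq2 : 0 < 2 * Real.log D / η := by positivity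
  have hT2 : 2 ≤ δ * Real.log T := by
    have h1 : 2 / δ ≤ Real.log T := by linarith
    rw [div_le_iff₀ hδ0] at h1
    linarith
  have hT3 : Real.log D ≤ η / 2 * Real.log T := by
    have h1 : 2 * Real.log D / η ≤ Real.log T := by linarith
    rw [div_le_iff₀ hη] at h1
    linarith
  have hlT : 0 ≤ Real.log T := Real.log_nonneg hT1R
  obtain ⟨n, hn⟩ : ∃ n : ℕ, n = ⌊δ * Real.log T⌋₊ := ⟨_, rfl⟩
  have hnle : (n : ℝ) ≤ δ * Real.log T := by
    rw [hn]
    exact Nat.floor_le (by positivity)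
  have hnge : δ / 2 * Real.log T ≤ n := by
    have h1 := Nat.lt_floor_add_one (δ * Real.log T)
    rw [← hn] at h1
    linarith
  have hn1 : (1 : ℝ) ≤ n := by linarith
  have hnT : (n : ℝ) ≤ T := by
    have h1 : δ * Real.log T ≤ Real.log T := by nlinarith
    have h2 := Real.log_le_sub_one_of_pos (x := (T : ℝ)) (by linarith)
    linarith
  have hA : (optA p D T n).card = T * n ^ r := card_optA p hp hinj D T n hDi hD0
  have hAR : ((optA p D T n).card : ℝ) = T * (n : ℝ) ^ r := by rw [hA]; push_cast; ring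
  have hnr : (1 : ℝ) ≤ (n : ℝ) ^ r := one_le_pow₀ hn1
  have hAT : (T : ℝ) ≤ (optA p D T n).card := by
    rw [hAR]
    nlinarith
  have hA1 : (1 : ℝ) ≤ (optA p D T n).card := hT1R.trans hAT
  have hlogA : Real.log (optA p D T n).card ≤ (1 + r) * Real.log T := by
    rw [hAR, Real.log_mul (by linarith) (by positivity), Real.log_pow]
    have h1 : Real.log n ≤ Real.log T := Real.log_le_log (by linarith) hnT
    nlinarith
  have hlogA' : Real.log T ≤ Real.log (optA p D T n).card := Real.log_le_log (by linarith) hAT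
  refine ⟨optA p D T n, fun i => (p i : ℚ), ?_, fun i => Nat.cast_ne_zero.2 (hp i).ne_zero, ?_, ?_⟩
  · have h1 : (N₀ : ℝ) ≤ T := by exact_mod_cast hTN
    have h2 := h1.trans hAT
    exact_mod_cast h2
  · intro k
    have h1 := sum_optA p hp D T n hD hD0 k
    have h2 : (((Fintype.piFinset (fun _ : Fin k => optA p D T n)).image
        (fun f : Fin k → ℤ => ∑ i, f i)).card : ℝ) ≤ k * (T * (D : ℝ) ^ (n + 1)) + 1 := by
      exact_mod_cast h1
    refine h2.trans ?_
    have hDn : (1 : ℝ) ≤ (D : ℝ) ^ (n + 1) := one_le_pow₀ (by linarith)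
    have h3 : (T : ℝ) * (D : ℝ) ^ (n + 1) ≤ ((optA p D T n).card : ℝ) ^ (1 + η) := by
      have h4 : (D : ℝ) ^ (n + 1) ≤ (T : ℝ) ^ η := by
        rw [← Real.log_le_log_iff (by positivity) (by positivity), Real.log_pow,
          Real.log_rpow (by linarith)]
        push_cast
        have h5 : (n : ℝ) * Real.log D ≤ (δ * Real.log T) * Real.log D :=
          mul_le_mul_of_nonneg_right hnle hlD.le
        have h6 : (δ * Real.log T) * Real.log D ≤ η / 2 * Real.log T := by
          calc (δ * Real.log T) * Real.log D = (δ * Real.log D) * Real.log T := by ring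
            _ ≤ η / 2 * Real.log T := mul_le_mul_of_nonneg_right hδ2 hlT
        linarith
      calc (T : ℝ) * (D : ℝ) ^ (n + 1) ≤ T * (T : ℝ) ^ η :=
            mul_le_mul_of_nonneg_left h4 (by linarith)
        _ = (T : ℝ) ^ (1 + η) := by rw [Real.rpow_add (by linarith), Real.rpow_one]
        _ ≤ _ := Real.rpow_le_rpow (by linarith) hAT (by linarith)
    have hk : (0 : ℝ) ≤ k := Nat.cast_nonneg k
    have h5 : (1 : ℝ) ≤ ((optA p D T n).card : ℝ) ^ (1 + η) :=
      Real.one_le_rpow hA1 (by linarith)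
    calc (k : ℝ) * (T * (D : ℝ) ^ (n + 1)) + 1 ≤
          k * ((optA p D T n).card : ℝ) ^ (1 + η) + ((optA p D T n).card : ℝ) ^ (1 + η) :=
            add_le_add (mul_le_mul_of_nonneg_left h3 hk) h5
      _ = _ := by ring
  · intro L hL
    have hgp : ∀ i, (fun i => (p i : ℚ)) i ≠ 0 := fun i => Nat.cast_ne_zero.2 (hp i).ne_zero
    have hcg : (gprog (fun i => (p i : ℚ)) L).card = (2 * L + 1) ^ r := by
      rw [card_gprog_eq _ hgp, card_gprogN p hp hinj]
    have hnLR : (n : ℝ) ≤ L := by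
      have h2 : δ * Real.log T ≤ Real.log T := by nlinarith
      linarith
    have hnL : n ≤ L := by exact_mod_cast hnLR
    have h2 : δ / (4 * (1 + r)) * Real.log (optA p D T n).card ≤ n / 2 := by
      calc δ / (4 * (1 + r)) * Real.log (optA p D T n).card ≤
            δ / (4 * (1 + r)) * ((1 + r) * Real.log T) :=
              mul_le_mul_of_nonneg_left hlogA (by positivity)
        _ = (δ / 2 * Real.log T) / 2 := by
            field_simp
            ring
        _ ≤ n / 2 := by linarith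
    have h3 : (δ / (4 * (1 + r)) * Real.log (optA p D T n).card) ^ r ≤ ((n : ℝ) / 2) ^ r :=
      pow_le_pow_left₀ (mul_nonneg (by positivity) (by linarith)) h2 r
    refine ⟨fun a ha => ?_, hcg, ?_⟩
    · have h4 : ((n ^ r : ℕ) : ℝ) ≤
          (rich (optA p D T n) (gprog (fun i => (p i : ℚ)) L) a).card := by
        exact_mod_cast rich_opt p hp hinj D T n L hnL a ha
      push_cast at h4
      have h5 : ((n : ℝ) / 2) ^ r ≤ (n : ℝ) ^ r :=
        pow_le_pow_left₀ (by linarith) (by linarith) r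
      linarith
    · have h1 : ((prd (optA p D T n) (gprog (fun i => (p i : ℚ)) L)).card : ℝ) ≤
          T * ((n : ℝ) + 2 * L) ^ r := by
        have h4 := (card_prd_eq _ hgp L (optA p D T n)).trans (card_prd_opt p D T n L)
        exact_mod_cast h4
      rw [hcg, hAR]
      push_cast
      have h3' : (δ / (4 * (1 + r)) * Real.log (T * (n : ℝ) ^ r)) ^ r ≤ ((n : ℝ) / 2) ^ r := by
        rw [hAR] at h3
        exact h3
      have h6 : (n : ℝ) / 2 * (n + 2 * L) ≤ n * (2 * L + 1) := by nlinarith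
      calc (δ / (4 * (1 + r)) * Real.log (T * (n : ℝ) ^ r)) ^ r *
            (prd (optA p D T n) (gprog (fun i => (p i : ℚ)) L)).card ≤
            ((n : ℝ) / 2) ^ r * (T * ((n : ℝ) + 2 * L) ^ r) :=
              mul_le_mul h3' h1 (Nat.cast_nonneg _) (by positivity)
        _ = T * ((n : ℝ) / 2 * (n + 2 * L)) ^ r := by
            rw [mul_pow]
            ring
        _ ≤ T * (n * (2 * L + 1)) ^ r := by
            refine mul_le_mul_of_nonneg_left ?_ (by linarith)
            exact pow_le_pow_left₀ (by positivity) h6 r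
        _ = T * (n : ℝ) ^ r * (2 * (L : ℝ) + 1) ^ r := by
            rw [mul_pow]
            ring

end Pool.Agent.Helper15.GL
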