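import Pool.Agent.Helper15.GL.Opt

set_option autoImplicit false

/-!
# Project GL (MP_120218), Result: the statement of the hand-in
-/

namespace Pool.Agent.Helper15.GL

open Finset

theorem result :
    (∀ k : ℕ, ∀ ε b : ℝ, 0 < ε → ∃ C c : ℝ, 0 < C ∧ 0 < c ∧
      ∀ A X : Finset ℤ, A.Nonempty → X.Nonempty → (X.card : ℝ) ≤ (A.card : ℝ) ^ b →
        c * X.card * (A.card : ℝ) ^ ((k : ℝ) - ε) ≤
          (((X ×ˢ Fintype.piFinset (fun _ : Fin k => A)).image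
            (fun f : ℤ × (Fin k → ℤ) => f.1 + ∑ i, f.2 i)).card : ℝ) ∨
        ((∀ g : ℚ, g ≠ 0 → g ≠ 1 → g ≠ -1 →
            ({a : ℤ | a ∈ A ∧ C * Real.log (A.card : ℝ) <
              ({b : ℤ | b ∈ A ∧ ∃ e : ℤ, (b : ℚ) = a * g ^ e}.ncard : ℝ)}.ncard : ℝ) ≤
                (A.card : ℝ) ^ (1 - c)) ∧
         (∀ (r : ℕ) (g : Fin r → ℚ) (P : Finset ℚ), 1 ≤ r → (∀ i, g i ≠ 0) →
            (∀ s ∈ P, ∃ e : Fin r → ℤ, s = ∏ i, g i ^ e i) →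
            (P.card : ℝ) ≤ (A.card : ℝ) ^ c →
            ∀ Z : Finset ℚ, (∀ z ∈ Z, (C * Real.log (A.card : ℝ)) ^ r <
              ((A.filter (fun a : ℤ => ∃ s ∈ P, (a : ℚ) = z * s)).card : ℝ)) →
              (Z.card : ℝ) ≤ (A.card : ℝ) ^ (1 - c)) ∧
         (∀ (r : ℕ) (g : Fin r → ℚ) (P : Finset ℚ), 1 ≤ r → (∀ i, g i ≠ 0) →
            (∀ s ∈ P, ∃ e : Fin r → ℤ, s = ∏ i, g i ^ e i) →
            (r = 1 ∨ (P.card : ℝ) ≤ (A.card : ℝ) ^ c) →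
            (A.card : ℝ) * P.card ≤ (C * Real.log (A.card : ℝ)) ^ r *
              ((Finset.image₂ (fun (a : ℤ) (s : ℚ) => (a : ℚ) * s) A P).card : ℝ)) ∧
         (∀ g : ℚ, g ≠ 0 → g ≠ 1 → g ≠ -1 →
            (A.card : ℝ) ≤ C * Real.log (A.card : ℝ) *
              ((A.filter (fun a : ℤ => ∀ b ∈ A, (b : ℚ) ≠ g * a)).card : ℝ)))) ∧
    (∀ r : ℕ, 1 ≤ r → ∀ η : ℝ, 0 < η → ∃ c : ℝ, 0 < c ∧ ∀ N₀ : ℕ,
      ∃ (A : Finset ℤ) (g : Fin r → ℚ), N₀ ≤ A.card ∧ (∀ i, g i ≠ 0) ∧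
        (∀ k : ℕ, (((Fintype.piFinset (fun _ : Fin k => A)).image
          (fun f : Fin k → ℤ => ∑ i, f i)).card : ℝ) ≤
            ((k : ℝ) + 1) * (A.card : ℝ) ^ (1 + η)) ∧
        ∀ (L : ℕ) (P : Finset ℚ), Real.log (A.card : ℝ) ≤ L →
          P = (Fintype.piFinset (fun _ : Fin r => Finset.Icc (-(L : ℤ)) (L : ℤ))).image
            (fun e => ∏ i, g i ^ e i) →
          (∀ a ∈ A, (c * Real.log (A.card : ℝ)) ^ r ≤
            ((A.filter (fun b : ℤ => ∃ s ∈ P, (b : ℚ) = a * s)).card : ℝ)) ∧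
          P.card = (2 * L + 1) ^ r ∧
          (c * Real.log (A.card : ℝ)) ^ r *
            ((Finset.image₂ (fun (a : ℤ) (s : ℚ) => (a : ℚ) * s) A P).card : ℝ) ≤
              (A.card : ℝ) * P.card) := by
  refine ⟨fun k ε b hε => main k ε b hε, fun r hr η hη => ?_⟩
  obtain ⟨c, hc, h⟩ := opt r hr η hη
  refine ⟨c, hc, fun N₀ => ?_⟩
  obtain ⟨A, g, hA, hg, hk, hL⟩ := h N₀
  refine ⟨A, g, hA, hg, hk, fun L P hlog hP => ?_⟩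
  subst hP
  exact hL L hlog

end Pool.Agent.Helper15.GL
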