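import Pool.Agent.Helper15.GL.Node2

set_option autoImplicit false

/-!
# Project GL (MP_120218), Split: one digit of a sumset
-/

namespace Pool.Agent.Helper15.GL

open Finset

/-- the law of `δ` on `C` -/
noncomputable def law {G : Type} [DecidableEq G] (C : Finset ℤ) (δ : ℤ → G) (u : G) : ℝ :=
  ((C.filter (fun x => δ x = u)).card : ℝ) / C.card

theorem law_nonneg {G : Type} [DecidableEq G] (C : Finset ℤ) (δ : ℤ → G) (u : G) :
    0 ≤ law C δ u := by
  unfold law
  positivity

theorem sum_law_mul {G : Type} [Fintype G] [DecidableEq G] (C : Finset ℤ) (hC : C.Nonempty)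
    (δ : ℤ → G) (F : G → ℝ) : (C.card : ℝ) * ∑ u, law C δ u * F u = ∑ x ∈ C, F (δ x) := by
  have hc : (C.card : ℝ) ≠ 0 := by
    have := Finset.card_pos.2 hC
    positivity
  rw [← Finset.sum_fiberwise C δ, Finset.mul_sum]
  refine Finset.sum_congr rfl fun u _ => ?_
  have h1 : ∑ x ∈ C.filter (fun x => δ x = u), F (δ x) =
      ∑ x ∈ C.filter (fun x => δ x = u), F u := by
    refine Finset.sum_congr rfl fun x hx => ?_
    rw [(Finset.mem_filter.1 hx).2]
  rw [h1, Finset.sum_const, nsmul_eq_mul]
  unfold law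
  field_simp

theorem sum_law {G : Type} [Fintype G] [DecidableEq G] (C : Finset ℤ) (hC : C.Nonempty)
    (δ : ℤ → G) : ∑ u, law C δ u = 1 := by
  have hc : (C.card : ℝ) ≠ 0 := by
    have := Finset.card_pos.2 hC
    positivity
  have h := sum_law_mul C hC δ (fun _ => 1)
  simp only [mul_one, Finset.sum_const, nsmul_eq_mul] at h
  exact mul_left_cancel₀ hc (by rw [h, mul_one])

theorem ent_law {G : Type} [Fintype G] [DecidableEq G] (C : Finset ℤ) (hC : C.Nonempty)
    (δ : ℤ → G) : (C.card : ℝ) * ent (law C δ) =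
      ∑ x ∈ C, (Real.log C.card - Real.log ((C.filter (fun y => δ y = δ x)).card)) := by
  have hc : (C.card : ℝ) ≠ 0 := by
    have := Finset.card_pos.2 hC
    positivity
  have h := sum_law_mul C hC δ (fun u => Real.log C.card -
    Real.log ((C.filter (fun y => δ y = u)).card))
  rw [← h]
  congr 1
  unfold ent
  refine Finset.sum_congr rfl fun u _ => ?_
  rcases eq_or_ne ((C.filter (fun y => δ y = u)).card) 0 with h0 | h0
  · have h1 : law C δ u = 0 := by
      unfold law
      rw [h0]
      simp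
    rw [h1]
    simp
  · have h1 : (((C.filter (fun y => δ y = u)).card : ℕ) : ℝ) ≠ 0 := by exact_mod_cast h0
    unfold Real.negMulLog
    have h2 : Real.log (law C δ u) = Real.log ((C.filter (fun y => δ y = u)).card) -
        Real.log C.card := by
      unfold law
      rw [Real.log_div h1 hc]
    rw [h2]
    ring

/-- Splitting a sumset along `δ3 (x + y) = δ1 x + δ2 y`. -/
theorem split_step {G : Type} [Fintype G] [DecidableEq G] [AddCommGroup G] (C D : Finset ℤ)
    (hC : C.Nonempty) (hD : D.Nonempty) (δ1 δ2 δ3 : ℤ → G)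
    (hδ : ∀ x ∈ C, ∀ y ∈ D, δ3 (x + y) = δ1 x + δ2 y) :
    (C.card : ℝ) * D.card * ent (conv (law C δ1) (law D δ2)) +
      ∑ x ∈ C, ∑ y ∈ D, Real.log ((Finset.image₂ (fun a b => a + b)
        (C.filter (fun z => δ1 z = δ1 x)) (D.filter (fun z => δ2 z = δ2 y))).card) ≤
      (C.card : ℝ) * D.card * Real.log ((Finset.image₂ (fun a b => a + b) C D).card) := by
  classical
  obtain ⟨S, hS⟩ : ∃ S : Finset ℤ, S = Finset.image₂ (fun a b => a + b) C D := ⟨_, rfl⟩
  have hSne : S.Nonempty := by
    rw [hS]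
    exact hC.image₂ hD
  have hSc : (0 : ℝ) < S.card := by exact_mod_cast Finset.card_pos.2 hSne
  have hCc : (0 : ℝ) < C.card := by exact_mod_cast Finset.card_pos.2 hC
  have hDc : (0 : ℝ) < D.card := by exact_mod_cast Finset.card_pos.2 hD
  obtain ⟨q, hq⟩ : ∃ q : G → ℝ, q = conv (law C δ1) (law D δ2) := ⟨_, rfl⟩
  have hq0 : ∀ z, 0 ≤ q z := by
    rw [hq]
    exact conv_nonneg _ _ (law_nonneg C δ1) (law_nonneg D δ2)
  have hq1 : ∑ z, q z = 1 := by
    rw [hq, sum_conv, sum_law C hC, sum_law D hD, one_mul]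
  rw [← hS, ← hq]
  obtain ⟨sw, hsw⟩ : ∃ sw : G → ℝ, sw = fun w => ((S.filter (fun z => δ3 z = w)).card : ℝ) :=
    ⟨_, rfl⟩
  have hsw0 : ∀ w, 0 ≤ sw w := by
    intro w
    rw [hsw]
    exact Nat.cast_nonneg _
  have hswsum : ∑ w, sw w = S.card := by
    rw [hsw]
    have h := Finset.card_eq_sum_card_fiberwise (f := δ3) (s := S) (t := Finset.univ)
      (fun x _ => Finset.mem_coe.mpr (Finset.mem_univ _))
    rw [h]
    push_cast
    rfl
  -- the parts of the sumset
  have hsub : ∀ x ∈ C, ∀ y ∈ D, Finset.image₂ (fun a b => a + b)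
      (C.filter (fun z => δ1 z = δ1 x)) (D.filter (fun z => δ2 z = δ2 y)) ⊆
      S.filter (fun z => δ3 z = δ1 x + δ2 y) := by
    intro x hx y hy z hz
    rw [Finset.mem_image₂] at hz
    obtain ⟨a, ha, b, hb, rfl⟩ := hz
    rw [Finset.mem_filter] at ha hb
    rw [Finset.mem_filter, hS]
    refine ⟨Finset.mem_image₂_of_mem ha.1 hb.1, ?_⟩
    rw [hδ a ha.1 b hb.1, ha.2, hb.2]
  have hne : ∀ x ∈ C, ∀ y ∈ D, (Finset.image₂ (fun a b => a + b)
      (C.filter (fun z => δ1 z = δ1 x)) (D.filter (fun z => δ2 z = δ2 y))).Nonempty := by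
    intro x hx y hy
    exact Finset.Nonempty.image₂ ⟨x, Finset.mem_filter.2 ⟨hx, rfl⟩⟩
      ⟨y, Finset.mem_filter.2 ⟨hy, rfl⟩⟩
  -- Gibbs
  have hqs : ∀ w, 0 < q w → 0 < sw w := by
    intro w hw
    rw [hq] at hw
    unfold conv at hw
    obtain ⟨a, -, ha⟩ := Finset.exists_ne_zero_of_sum_ne_zero hw.ne'
    have h1 : law C δ1 a ≠ 0 := left_ne_zero_of_mul ha
    have h2 : law D δ2 (w - a) ≠ 0 := right_ne_zero_of_mul ha
    unfold law at h1 h2
    have h3 : (C.filter (fun x => δ1 x = a)).Nonempty := by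
      rw [← Finset.card_pos]
      by_contra h
      have : (C.filter (fun x => δ1 x = a)).card = 0 := by omega
      rw [this] at h1
      simp at h1
    have h4 : (D.filter (fun x => δ2 x = w - a)).Nonempty := by
      rw [← Finset.card_pos]
      by_contra h
      have : (D.filter (fun x => δ2 x = w - a)).card = 0 := by omega
      rw [this] at h2
      simp at h2
    obtain ⟨x, hx⟩ := h3
    obtain ⟨y, hy⟩ := h4
    rw [Finset.mem_filter] at hx hy
    rw [hsw]
    simp only
    have h5 : (S.filter (fun z => δ3 z = w)).Nonempty := by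
      refine ⟨x + y, ?_⟩
      rw [Finset.mem_filter, hS]
      refine ⟨Finset.mem_image₂_of_mem hx.1 hy.1, ?_⟩
      rw [hδ x hx.1 y hy.1, hx.2, hy.2, add_sub_cancel]
    exact_mod_cast Finset.card_pos.2 h5
  have hG : ent q + ∑ w, q w * Real.log (sw w) ≤ Real.log S.card := by
    have h1 : ∀ w, q w * (Real.log (sw w) - Real.log (q w) - Real.log S.card) ≤
        sw w / S.card - q w := by
      intro w
      rcases eq_or_lt_of_le (hq0 w) with h | h
      · rw [← h, zero_mul, sub_zero]
        exact div_nonneg (hsw0 w) hSc.le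
      · have h2 := hqs w h
        have h3 : Real.log (sw w) - Real.log (q w) - Real.log S.card =
            Real.log (sw w / (q w * S.card)) := by
          rw [Real.log_div h2.ne' (by positivity), Real.log_mul h.ne' hSc.ne']
          ring
        rw [h3]
        have h4 := Real.log_le_sub_one_of_pos (show 0 < sw w / (q w * S.card) by positivity)
        calc q w * Real.log (sw w / (q w * S.card)) ≤ q w * (sw w / (q w * S.card) - 1) :=
              mul_le_mul_of_nonneg_left h4 h.le
          _ = sw w / S.card - q w := by field_simp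
    have h2 := Finset.sum_le_sum (s := univ) fun w _ => h1 w
    rw [Finset.sum_sub_distrib, ← Finset.sum_div, hswsum, hq1, div_self hSc.ne', sub_self] at h2
    have h3 : ∑ w, q w * (Real.log (sw w) - Real.log (q w) - Real.log S.card) =
        ∑ w, q w * Real.log (sw w) + ent q - Real.log S.card := by
      have e : Real.log S.card = ∑ w, q w * Real.log S.card := by
        rw [← Finset.sum_mul, hq1, one_mul]
      conv_rhs => rw [e]
      unfold ent Real.negMulLog
      rw [← Finset.sum_add_distrib, ← Finset.sum_sub_distrib]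
      refine Finset.sum_congr rfl fun w _ => ?_
      ring
    linarith
  -- the average of the logarithms of the parts
  have hA : (C.card : ℝ) * D.card * ∑ w, q w * Real.log (sw w) =
      ∑ x ∈ C, ∑ y ∈ D, Real.log (sw (δ1 x + δ2 y)) := by
    rw [hq, sum_conv_mul (law C δ1) (law D δ2) (fun z => Real.log (sw z))]
    have h1 : ∀ x ∈ C, ∑ y ∈ D, Real.log (sw (δ1 x + δ2 y)) =
        D.card * ∑ v, law D δ2 v * Real.log (sw (δ1 x + v)) := fun x _ =>
      (sum_law_mul D hD δ2 (fun v => Real.log (sw (δ1 x + v)))).symm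
    rw [Finset.sum_congr rfl h1, ← Finset.mul_sum]
    have h2 := sum_law_mul C hC δ1 (fun u => ∑ v, law D δ2 v * Real.log (sw (u + v)))
    rw [← h2]
    have h3 : ∑ a, ∑ b, law C δ1 a * law D δ2 b * Real.log (sw (a + b)) =
        ∑ u, law C δ1 u * ∑ v, law D δ2 v * Real.log (sw (u + v)) := by
      refine Finset.sum_congr rfl fun u _ => ?_
      rw [Finset.mul_sum]
      refine Finset.sum_congr rfl fun v _ => ?_
      ring
    rw [h3]
    ring
  have hB : ∑ x ∈ C, ∑ y ∈ D, Real.log ((Finset.image₂ (fun a b => a + b)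
        (C.filter (fun z => δ1 z = δ1 x)) (D.filter (fun z => δ2 z = δ2 y))).card) ≤
      ∑ x ∈ C, ∑ y ∈ D, Real.log (sw (δ1 x + δ2 y)) := by
    refine Finset.sum_le_sum fun x hx => Finset.sum_le_sum fun y hy => ?_
    apply Real.log_le_log
    · exact_mod_cast Finset.card_pos.2 (hne x hx y hy)
    · rw [hsw]
      simp only
      exact_mod_cast Finset.card_le_card (hsub x hx y hy)
  have hfin := mul_le_mul_of_nonneg_left hG (mul_nonneg hCc.le hDc.le)
  rw [mul_add, hA] at hfin
  linarith

end Pool.Agent.Helper15.GL
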